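import Pool.Agent.H.MP_21b43d_ag.S.Exact

/-!
# M21 (MP_21b43d): stalks of quasi-coherent modules as localizations; the rank of a coherent module
on an integral scheme
-/

open CategoryTheory CategoryTheory.Limits AlgebraicGeometry TopologicalSpace Opposite

noncomputable section

namespace M21

variable {X : Scheme.{0}} {M : X.Modules}

/-- the stalk as a module over the ring of sections -/
abbrev stalkSecModule (M : X.Modules) {U : X.Opens} (x : X) (hx : x ∈ U) :
    Module Γ(X, U) ((stalkMod X x).obj M) :=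
  Module.compHom _ (X.presheaf.germ U x hx).hom

/-- the germ map as a linear map -/
def gmLin (M : X.Modules) {U : X.Opens} (x : X) (hx : x ∈ U) :
    letI := stalkSecModule M x hx
    Γ(M, U) →ₗ[Γ(X, U)] (stalkMod X x).obj M :=
  letI := stalkSecModule M x hx
  { toFun := gm M x U hx
    map_add' := gm_add M x U hx
    map_smul' := gm_smul M x U hx }

theorem isLocalizedModule_gmLin (hM : QC M) {U : X.Opens} (hU : IsAffineOpen U) (x : X)
    (hx : x ∈ U) :
    letI := stalkSecModule M x hx
    IsLocalizedModule (hU.primeIdealOf ⟨x, hx⟩).asIdeal.primeCompl (gmLin M x hx) := by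
  let := stalkSecModule M x hx
  let := X.presheaf.algebra_section_stalk ⟨x, hx⟩
  have := hU.isLocalization_stalk ⟨x, hx⟩
  have hmem : ∀ f : Γ(X, U), x ∈ X.basicOpen f →
      f ∈ (hU.primeIdealOf ⟨x, hx⟩).asIdeal.primeCompl := by
    intro f hf
    rw [Scheme.mem_basicOpen _ _ _ hx] at hf
    exact (IsLocalization.AtPrime.isUnit_to_map_iff (X.presheaf.stalk x)
      (hU.primeIdealOf ⟨x, hx⟩).asIdeal f).1 hf
  refine ⟨?_, ?_, ?_⟩
  · intro s
    have h1 : IsUnit (X.presheaf.germ U x hx s.1) :=
      (IsLocalization.AtPrime.isUnit_to_map_iff (X.presheaf.stalk x)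
        (hU.primeIdealOf ⟨x, hx⟩).asIdeal s.1).2 s.2
    rw [Module.End.isUnit_iff]
    obtain ⟨u, hu⟩ := h1
    constructor
    · intro a b hab
      have hab' : X.presheaf.germ U x hx s.1 • a = X.presheaf.germ U x hx s.1 • b := hab
      rw [← hu] at hab'
      exact smul_left_cancel u hab'
    · intro b
      refine ⟨u⁻¹ • b, ?_⟩
      change X.presheaf.germ U x hx s.1 • (u⁻¹ • b) = b
      rw [← hu]
      exact smul_inv_smul u b
  · intro n
    obtain ⟨V, hVU, hxV, m, rfl⟩ := exists_le_gm M x n hx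
    obtain ⟨f, hfV, hxf⟩ := hU.exists_basicOpen_le ⟨x, hxV⟩ hx
    obtain ⟨k, t, ht⟩ := hM.ext U hU f (res M hfV m)
    refine ⟨⟨t, ⟨f ^ k, pow_mem (hmem f hxf) k⟩⟩, ?_⟩
    change X.presheaf.germ U x hx (f ^ k) • gm M x V hxV m = gm M x U hx t
    rw [← gm_res M x (X.basicOpen_le f) hxf t]
    change _ = gm M x _ hxf (res M (X.basicOpen_le f) t)
    rw [ht, gm_smul]
    have e1 : gm M x _ hxf (res M hfV m) = gm M x V hxV m := gm_res M x hfV hxf m
    rw [e1]
    congr 1
    rw [map_pow, map_pow]
    congr 1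
    exact (TopCat.Presheaf.germ_res_apply X.presheaf (homOfLE (X.basicOpen_le f)) x hxf f).symm
  · intro m₁ m₂ h
    obtain ⟨W, hxW, h1, h2, e⟩ := gm_eq M x hx hx m₁ m₂ h
    obtain ⟨f, hfV, hxf⟩ := hU.exists_basicOpen_le ⟨x, hxW⟩ hx
    have e1 : res M (X.basicOpen_le f) (m₁ - m₂) = 0 := by
      rw [res_sub, sub_eq_zero, ← res_res h1 hfV, ← res_res h2 hfV]
      exact congrArg (res M hfV) e
    obtain ⟨n, hn⟩ := hM.tors U hU f (m₁ - m₂) e1
    refine ⟨⟨f ^ n, pow_mem (hmem f hxf) n⟩, ?_⟩
    change f ^ n • m₁ = f ^ n • m₂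
    rw [← sub_eq_zero, ← smul_sub, hn]

/-- The rank of the stalk of a quasi-coherent module is the rank of the module of sections over an
affine open. -/
theorem finrank_stalk [IsIntegral X] (hM : QC M) {U : X.Opens} (hU : IsAffineOpen U) (x : X)
    (hx : x ∈ U) : Module.finrank (X.presheaf.stalk x) ((stalkMod X x).obj M) =
      Module.finrank Γ(X, U) Γ(M, U) := by
  have : Nonempty U := ⟨⟨x, hx⟩⟩
  let := stalkSecModule M x hx
  let := X.presheaf.algebra_section_stalk ⟨x, hx⟩
  have := hU.isLocalization_stalk ⟨x, hx⟩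
  have := isLocalizedModule_gmLin hM hU x hx
  have : IsScalarTower Γ(X, U) (X.presheaf.stalk x) ((stalkMod X x).obj M) :=
    ⟨fun a b c => by
      rw [Algebra.smul_def, mul_smul]
      rfl⟩
  have hp : (hU.primeIdealOf ⟨x, hx⟩).asIdeal.primeCompl ≤ nonZeroDivisors Γ(X, U) :=
    Ideal.primeCompl_le_nonZeroDivisors _
  rw [IsLocalization.finrank_eq (X.presheaf.stalk x) _ hp]
  exact IsLocalizedModule.finrank_eq _ (gmLin M x hx) hp

/-- The rank of the stalk of a quasi-coherent module on an integral scheme does not depend on the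
point. -/
theorem finrank_stalk_eq [IsIntegral X] (hM : QC M) (x y : X) :
    Module.finrank (X.presheaf.stalk x) ((stalkMod X x).obj M) =
      Module.finrank (X.presheaf.stalk y) ((stalkMod X y).obj M) := by
  have key : ∀ x : X, Module.finrank (X.presheaf.stalk x) ((stalkMod X x).obj M) =
      Module.finrank (X.presheaf.stalk (genericPoint X)) ((stalkMod X (genericPoint X)).obj M) := by
    intro x
    obtain ⟨U, hU, hxU, -⟩ := exists_isAffineOpen_mem_and_subset (X := X) (x := x) (U := ⊤)
      trivial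
    rw [finrank_stalk hM hU x hxU, finrank_stalk hM hU (genericPoint X)
      ((genericPoint_spec X).mem_open_set_iff U.isOpen |>.2 ⟨x, trivial, hxU⟩)]
  rw [key x, key y]

/-- The stalk of a quasi-coherent module with finitely generated sections is finitely generated. -/
theorem finite_stalk (hM : QC M) {U : X.Opens} (hU : IsAffineOpen U) (x : X)
    (hx : x ∈ U) (hfin : Module.Finite Γ(X, U) Γ(M, U)) :
    Module.Finite (X.presheaf.stalk x) ((stalkMod X x).obj M) := by
  let := stalkSecModule M x hx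
  let := X.presheaf.algebra_section_stalk ⟨x, hx⟩
  have := hU.isLocalization_stalk ⟨x, hx⟩
  have := isLocalizedModule_gmLin hM hU x hx
  have : IsScalarTower Γ(X, U) (X.presheaf.stalk x) ((stalkMod X x).obj M) :=
    ⟨fun a b c => by
      rw [Algebra.smul_def, mul_smul]
      rfl⟩
  exact Module.Finite.of_isLocalizedModule (hU.primeIdealOf ⟨x, hx⟩).asIdeal.primeCompl
    (gmLin M x hx)

end M21
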