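import Pool.Agent.H.MP_21b43d_ag.B.QC2

open CategoryTheory CategoryTheory.Limits AlgebraicGeometry TopologicalSpace Opposite
open AlgebraicGeometry.Scheme (Modules)

noncomputable section

namespace M21

variable {X : Scheme.{0}}

/-- Quasi-coherent modules satisfy the explicit conditions. -/
theorem QC.of_isQuasicoherent (M : X.Modules) (hM : M.IsQuasicoherent) : QC M := by
  have key : ∀ (U : X.Opens) (hU : IsAffineOpen U),
      IsLocalizing (modulesSpecToSheaf.obj (M.restrict hU.fromSpec)) := by
    intro U hU
    rw [← isIso_fromTildeΓ_iff_isLocalizing]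
    infer_instance
  constructor
  · intro U hU f s
    exact (((isLocalizing_iff M hU).mp (key U hU)) f).2 s
  · intro U hU f s hs
    exact (((isLocalizing_iff M hU).mp (key U hU)) f).1 s hs

set_option backward.isDefEq.respectTransparency false in
/-- The presentation over an affine open. -/
def presentationOver (M : X.Modules) {U : X.Opens} (hU : IsAffineOpen U)
    (P : (M.restrict hU.fromSpec).Presentation) : (SheafOfModules.over M U).Presentation :=
  let ψ : (U : Scheme.{0}) ⟶ Spec Γ(X, U) := hU.isoSpec.hom
  let P1 := Modules.presentationRestrict ψ P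
  let iso1 : (M.restrict hU.fromSpec).restrict ψ ≅ M.restrict U.ι :=
    ((Modules.restrictFunctorComp ψ hU.fromSpec).symm ≪≫
      Modules.restrictFunctorCongr hU.isoSpec_hom_fromSpec).app M
  let P2 : (M.restrict U.ι).Presentation := SheafOfModules.Presentation.ofIsIso.{0, 0, 0} iso1.hom P1
  let G := (Modules.overEquiv U).inverse
  let η : SheafOfModules.unit (X.ringCatSheaf.over U) ≅
      G.obj (SheafOfModules.unit (U : Scheme.{0}).ringCatSheaf) :=
    (Modules.overEquiv U).unitIso.app _ ≪≫ G.mapIso ((Modules.overFunctorEquiv U).app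
      (SheafOfModules.unit X.ringCatSheaf) ≪≫ Modules.restrictUnitIso U.ι)
  let iso3 : G.obj (M.restrict U.ι) ≅ SheafOfModules.over M U :=
    G.mapIso ((Modules.overFunctorEquiv U).app M).symm ≪≫
      (Modules.overEquiv U).unitIso.symm.app (SheafOfModules.over M U)
  SheafOfModules.Presentation.ofIsIso.{0, 0, 0} iso3.hom (P2.map G η)

/-- The presentation over an affine open. -/
theorem nonempty_presentation_over (M : X.Modules) {U : X.Opens} (hU : IsAffineOpen U)
    (h : IsIso (M.restrict hU.fromSpec).fromTildeΓ) :
    Nonempty (SheafOfModules.over M U).Presentation := by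
  refine ⟨presentationOver M hU ?_⟩
  exact @SheafOfModules.Presentation.ofIsIso.{0, 0, 0} _ _ _ _ _ _ _ _
    (M.restrict hU.fromSpec).fromTildeΓ h
    (presentationTilde _ .univ (by simp) _ (Submodule.span_eq _))

/-- The explicit conditions imply quasi-coherence. -/
theorem QC.isQuasicoherent (M : X.Modules) (hM : QC M) : M.IsQuasicoherent := by
  have key : ∀ (U : X.affineOpens), Nonempty (SheafOfModules.over M U.1).Presentation := by
    intro U
    apply nonempty_presentation_over M U.2
    rw [isIso_fromTildeΓ_iff_isLocalizing,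
      isLocalizing_iff M U.2]
    exact fun f => ⟨hM.tors U.1 U.2 f, hM.ext U.1 U.2 f⟩
  refine ⟨⟨⟨X.affineOpens, fun U => U.1, ?_, fun U => (key U).some⟩⟩⟩
  rw [Opens.coversTop_iff]
  exact iSup_affineOpens_eq_top X

end M21
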