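import Mathlib

/-!
# M21: natural transformations of exact functors on derived categories
-/

open CategoryTheory CategoryTheory.Limits

noncomputable section

universe w₁ w₂ w₃ v₁ v₂ v₃ u₁ u₂ u₃

namespace M21

variable {C : Type u₁} [Category.{v₁} C] [Abelian C] [HasDerivedCategory.{w₁} C]
  {D : Type u₂} [Category.{v₂} D] [Abelian D] [HasDerivedCategory.{w₂} D]
  {E : Type u₃} [Category.{v₃} E] [Abelian E] [HasDerivedCategory.{w₃} E]

section nat

variable (F G H : C ⥤ D) [F.Additive] [PreservesFiniteLimits F] [PreservesFiniteColimits F]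
  [G.Additive] [PreservesFiniteLimits G] [PreservesFiniteColimits G]
  [H.Additive] [PreservesFiniteLimits H] [PreservesFiniteColimits H]

variable {F G H}

/-- The natural transformation of derived functors. -/
def derNat (α : F ⟶ G) : F.mapDerivedCategory ⟶ G.mapDerivedCategory :=
  Localization.liftNatTrans DerivedCategory.Q
    (HomologicalComplex.quasiIso C (ComplexShape.up ℤ))
    (F.mapHomologicalComplex (ComplexShape.up ℤ) ⋙ DerivedCategory.Q)
    (G.mapHomologicalComplex (ComplexShape.up ℤ) ⋙ DerivedCategory.Q)
    F.mapDerivedCategory G.mapDerivedCategory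
    (Functor.whiskerRight (NatTrans.mapHomologicalComplex α _) DerivedCategory.Q)

theorem derNat_app (α : F ⟶ G) (K : CochainComplex C ℤ) :
    (derNat α).app (DerivedCategory.Q.obj K) =
      F.mapDerivedCategoryFactors.hom.app K ≫
        DerivedCategory.Q.map ((NatTrans.mapHomologicalComplex α _).app K) ≫
          G.mapDerivedCategoryFactors.inv.app K :=
  Localization.liftNatTrans_app DerivedCategory.Q
    (HomologicalComplex.quasiIso C (ComplexShape.up ℤ)) _ _ _ _ _ K

theorem derNat_comp (α : F ⟶ G) (β : G ⟶ H) : derNat (α ≫ β) = derNat α ≫ derNat β := by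
  unfold derNat
  rw [Localization.comp_liftNatTrans]
  congr 1
  rw [NatTrans.mapHomologicalComplex_comp, Functor.whiskerRight_comp]

theorem derNat_id : derNat (𝟙 F) = 𝟙 _ := by
  unfold derNat
  rw [NatTrans.mapHomologicalComplex_id, Functor.whiskerRight_id']
  exact Localization.liftNatTrans_id _ _ _ _

/-- The natural isomorphism of derived functors. -/
def derIso (e : F ≅ G) : F.mapDerivedCategory ≅ G.mapDerivedCategory where
  hom := derNat e.hom
  inv := derNat e.inv
  hom_inv_id := by rw [← derNat_comp, e.hom_inv_id, derNat_id]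
  inv_hom_id := by rw [← derNat_comp, e.inv_hom_id, derNat_id]

theorem quasiIso_mapNat (α : F ⟶ G) (K : CochainComplex C ℤ)
    (h : ∀ n : ℤ, IsIso (α.app (K.homology n))) :
    QuasiIso ((NatTrans.mapHomologicalComplex α (ComplexShape.up ℤ)).app K) := by
  constructor
  intro n
  rw [quasiIsoAt_iff_isIso_homologyMap]
  have h1 := NatTrans.app_homology α (K.sc n)
  have h2 : IsIso (α.app (K.sc n).homology) := h n
  rw [h1] at h2
  have h3 : IsIso (ShortComplex.homologyMap ((K.sc n).mapNatTrans α) ≫
      ((K.sc n).mapHomologyIso G).hom) :=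
    IsIso.of_isIso_comp_left ((K.sc n).mapHomologyIso F).inv _
  have h4 : IsIso (ShortComplex.homologyMap ((K.sc n).mapNatTrans α)) :=
    IsIso.of_isIso_comp_right _ ((K.sc n).mapHomologyIso G).hom
  exact h4

theorem isIso_app_of_iso {C' D' : Type*} [Category C'] [Category D'] {F G : C' ⥤ D'} (α : F ⟶ G)
    {X Y : C'} (e : X ≅ Y) (h : IsIso (α.app X)) : IsIso (α.app Y) := by
  have h1 : α.app Y = F.map e.inv ≫ α.app X ≫ G.map e.hom := by
    rw [← α.naturality, ← Category.assoc, ← F.map_comp, e.inv_hom_id, F.map_id, Category.id_comp]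
  rw [h1]
  infer_instance

/-- A natural transformation of exact functors which is an isomorphism on all cohomology objects of
`A` is an isomorphism at `A`. -/
theorem isIso_derNat_app (α : F ⟶ G) (A : DerivedCategory C)
    (h : ∀ n : ℤ, IsIso (α.app ((DerivedCategory.homologyFunctor C n).obj A))) :
    IsIso ((derNat α).app A) := by
  let K := DerivedCategory.Q.objPreimage A
  let e : DerivedCategory.Q.obj K ≅ A := DerivedCategory.Q.objObjPreimageIso A
  refine isIso_app_of_iso (derNat α) e ?_
  have h1 : QuasiIso ((NatTrans.mapHomologicalComplex α (ComplexShape.up ℤ)).app K) := by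
    refine quasiIso_mapNat α K fun n => ?_
    let e' : (DerivedCategory.homologyFunctor C n).obj A ≅ K.homology n :=
      (DerivedCategory.homologyFunctor C n).mapIso e.symm ≪≫
        (DerivedCategory.homologyFunctorFactors C n).app K
    exact isIso_app_of_iso α e' (h n)
  rw [derNat_app]
  infer_instance

end nat

section homology

variable (F : C ⥤ D) [F.Additive] [PreservesFiniteLimits F] [PreservesFiniteColimits F]

omit [HasDerivedCategory C] [HasDerivedCategory D] in
/-- Exact functors commute with the homology of complexes. -/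
def hcHomology (n : ℤ) :
    F.mapHomologicalComplex (ComplexShape.up ℤ) ⋙
      HomologicalComplex.homologyFunctor D (ComplexShape.up ℤ) n ≅
    HomologicalComplex.homologyFunctor C (ComplexShape.up ℤ) n ⋙ F :=
  NatIso.ofComponents (fun K => (K.sc n).mapHomologyIso F) (fun {K L} f => by
    exact ShortComplex.mapHomologyIso_hom_naturality
      ((HomologicalComplex.shortComplexFunctor C (ComplexShape.up ℤ) n).map f) F)

/-- Derived functors of exact functors commute with cohomology. -/
def derHomology (n : ℤ) :
    F.mapDerivedCategory ⋙ DerivedCategory.homologyFunctor D n ≅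
      DerivedCategory.homologyFunctor C n ⋙ F :=
  letI h1 : Localization.Lifting DerivedCategory.Q
    (HomologicalComplex.quasiIso C (ComplexShape.up ℤ))
    (F.mapHomologicalComplex (ComplexShape.up ℤ) ⋙
      HomologicalComplex.homologyFunctor D (ComplexShape.up ℤ) n)
    (F.mapDerivedCategory ⋙ DerivedCategory.homologyFunctor D n) :=
      ⟨(Functor.associator _ _ _).symm ≪≫
        Functor.isoWhiskerRight F.mapDerivedCategoryFactors _ ≪≫
        Functor.associator _ _ _ ≪≫
        Functor.isoWhiskerLeft _ (DerivedCategory.homologyFunctorFactors D n)⟩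
  letI h2 : Localization.Lifting DerivedCategory.Q
    (HomologicalComplex.quasiIso C (ComplexShape.up ℤ))
    (HomologicalComplex.homologyFunctor C (ComplexShape.up ℤ) n ⋙ F)
    (DerivedCategory.homologyFunctor C n ⋙ F) :=
      ⟨(Functor.associator _ _ _).symm ≪≫
        Functor.isoWhiskerRight (DerivedCategory.homologyFunctorFactors C n) F⟩
  Localization.liftNatIso DerivedCategory.Q
    (HomologicalComplex.quasiIso C (ComplexShape.up ℤ)) _ _ _ _ (hcHomology F n)

end homology

section comp

variable (F : C ⥤ D) [F.Additive] [PreservesFiniteLimits F] [PreservesFiniteColimits F]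
  (G : D ⥤ E) [G.Additive] [PreservesFiniteLimits G] [PreservesFiniteColimits G]

instance exactCompLim : PreservesFiniteLimits (F ⋙ G) := comp_preservesFiniteLimits F G

instance exactCompColim : PreservesFiniteColimits (F ⋙ G) := comp_preservesFiniteColimits F G

/-- The lifting property of the composition of the derived functors. -/
@[instance_reducible]
def liftComp : Localization.Lifting DerivedCategory.Q
    (HomologicalComplex.quasiIso C (ComplexShape.up ℤ))
    ((F ⋙ G).mapHomologicalComplex (ComplexShape.up ℤ) ⋙ DerivedCategory.Q)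
    (F.mapDerivedCategory ⋙ G.mapDerivedCategory) :=
  ⟨(Functor.associator _ _ _).symm ≪≫
    Functor.isoWhiskerRight F.mapDerivedCategoryFactors G.mapDerivedCategory ≪≫
    Functor.associator _ _ _ ≪≫
    Functor.isoWhiskerLeft _ G.mapDerivedCategoryFactors ≪≫
    (Functor.associator _ _ _).symm ≪≫
    Functor.isoWhiskerRight (Iso.refl _) DerivedCategory.Q⟩

/-- Derived functors of exact functors compose. -/
def derComp : (F ⋙ G).mapDerivedCategory ≅ F.mapDerivedCategory ⋙ G.mapDerivedCategory :=
  letI := liftComp F G
  Localization.liftNatIso DerivedCategory.Q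
    (HomologicalComplex.quasiIso C (ComplexShape.up ℤ))
    ((F ⋙ G).mapHomologicalComplex (ComplexShape.up ℤ) ⋙ DerivedCategory.Q)
    ((F ⋙ G).mapHomologicalComplex (ComplexShape.up ℤ) ⋙ DerivedCategory.Q)
    (F ⋙ G).mapDerivedCategory (F.mapDerivedCategory ⋙ G.mapDerivedCategory) (Iso.refl _)

variable (C)

/-- The derived functor of the identity is the identity. -/
def derId : (𝟭 C).mapDerivedCategory ≅ 𝟭 (DerivedCategory C) :=
  letI : Localization.Lifting DerivedCategory.Q
    (HomologicalComplex.quasiIso C (ComplexShape.up ℤ))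
    ((𝟭 C).mapHomologicalComplex (ComplexShape.up ℤ) ⋙ DerivedCategory.Q)
    (𝟭 (DerivedCategory C)) :=
      ⟨Functor.rightUnitor _ ≪≫ (Functor.leftUnitor _).symm ≪≫
        Functor.isoWhiskerRight (Functor.mapHomologicalComplexIdIso C _).symm _⟩
  Localization.liftNatIso DerivedCategory.Q
    (HomologicalComplex.quasiIso C (ComplexShape.up ℤ))
    ((𝟭 C).mapHomologicalComplex (ComplexShape.up ℤ) ⋙ DerivedCategory.Q)
    ((𝟭 C).mapHomologicalComplex (ComplexShape.up ℤ) ⋙ DerivedCategory.Q)
    (𝟭 C).mapDerivedCategory (𝟭 (DerivedCategory C)) (Iso.refl _)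

end comp

end M21
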