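import Pool.Agent.H.MP_21b43d_ag.B.Chi5
import Pool.Agent.H.MP_21b43d_ag.B.Chi6
import Pool.Agent.H.MP_21b43d_ag.B.QC3
import Pool.Agent.H.MP_21b43d_ag.S.DStalk
import Pool.Agent.H.MP_21b43d_ag.Lin

/-!
# M21 (MP_21b43d): `χ(G, 𝒪_x)` is the rank of `G`; it does not depend on the closed point `x`
-/

open CategoryTheory CategoryTheory.Limits AlgebraicGeometry TopologicalSpace Opposite
open scoped ModuleCat

noncomputable section

namespace M21

variable {X : Scheme.{0}}

/-- The ring homomorphism from the complex numbers to the local ring. -/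
def cstalk (f : X ⟶ Spec (.of ℂ)) (x : X) : ℂ →+* X.presheaf.stalk x :=
  (X.presheaf.germ ⊤ x trivial).hom.comp (cmap f)

/-- The local ring as an algebra over the complex numbers. -/
abbrev algStalk (f : X ⟶ Spec (.of ℂ)) (x : X) : Algebra ℂ (X.presheaf.stalk x) :=
  (cstalk f x).toAlgebra

theorem smul_hom_apply {R : Type} [CommRing R] [Algebra ℂ R] {M N : ModuleCat.{0} R}
    (c : ℂ) (φ : M ⟶ N) (m : M) : (c • φ) m = algebraMap ℂ R c • φ m := rfl

/-- The stalk functor is linear over the complex numbers. -/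
theorem stalkMod_linear (f : X ⟶ Spec (.of ℂ)) (x : X) :
    letI := linC f
    letI := algStalk f x
    (stalkMod X x).Linear ℂ := by
  let := linC f
  let := algStalk f x
  refine ⟨fun {M N} φ c => ?_⟩
  ext m
  obtain ⟨U, hxU, m, rfl⟩ := exists_gm M x m
  have h1 : (c • φ : M ⟶ N) = φ ≫ mulG (cmap f c) N := rfl
  have h2 : (stalkMod X x).map (c • φ) (gm M x U hxU m) =
      X.presheaf.germ U x hxU (resF le_top (cmap f c)) • gm N x U hxU (φ.app U m) := by
    rw [h1, map_gm, comp_app_apply, mulG_app, gm_smul]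
  have h3 : (c • (stalkMod X x).map φ) (gm M x U hxU m) =
      X.presheaf.germ ⊤ x trivial (cmap f c) • gm N x U hxU (φ.app U m) := by
    rw [← map_gm]
    rfl
  refine h2.trans (Eq.trans ?_ h3.symm)
  congr 1
  exact TopCat.Presheaf.germ_res_apply X.presheaf (homOfLE le_top) x hxU (cmap f c)

/-- The linear version of `homSkyEquiv`. -/
theorem homDim_sky (f : X ⟶ Spec (.of ℂ)) (x : X) (G : DMod X) (i : ℤ) :
    letI := algStalk f x
    homDim f G ((skyD x)⟦i⟧) = Module.finrank ℂ ((stalkD x).obj G ⟶ (kapD x)⟦i⟧) := by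
  let := linC f
  let := algStalk f x
  have := stalkMod_linear f x
  have : (stalkD x).Linear ℂ := inferInstance
  have e : (G ⟶ (skyD x)⟦i⟧) ≃ₗ[ℂ] ((stalkD x).obj G ⟶ (kapD x)⟦i⟧) :=
    { homSkyEquiv x G i with
      map_smul' := fun c g => by
        change ((adjD x).homEquiv G ((kapD x)⟦i⟧)).symm ((c • g) ≫ (skyDShiftIso x i).hom) =
          c • ((adjD x).homEquiv G ((kapD x)⟦i⟧)).symm (g ≫ (skyDShiftIso x i).hom)
        rw [Linear.smul_comp]
        simp only [Adjunction.homEquiv_counit, Functor.map_smul, Linear.smul_comp] }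
  exact e.finrank_eq

/-- The residue field at a point with residue field `ℂ` has dimension one. -/
theorem finrank_kap (f : X ⟶ Spec (.of ℂ)) (x : X)
    (hx : ∀ v : X.residueField x, ∃ c : ℂ, X.evaluation ⊤ x trivial (cmap f c) = v) :
    letI := algStalk f x
    letI := ModuleCat.moduleOfAlgebraModule (k := ℂ) (kap x)
    Module.finrank ℂ (kap x) = 1 := by
  let := algStalk f x
  let := ModuleCat.moduleOfAlgebraModule (k := ℂ) (kap x)
  refine finrank_eq_one (M := kap x) (1 : X.residueField x)
    (one_ne_zero (α := X.residueField x)) fun v => ?_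
  obtain ⟨c, hc⟩ := hx v
  refine ⟨c, ?_⟩
  change X.residue x (X.presheaf.germ ⊤ x trivial (cmap f c)) * 1 = v
  rw [mul_one, ← hc]
  have h := ConcreteCategory.congr_hom (X.germ_residue x (U := ⊤) trivial) (cmap f c)
  exact h

/-- The stalk of an object of `D^b(X)` is bounded with finitely generated homology. -/
theorem stalkD_hfg {G : DMod X} (hG : dbCoh X G) (x : X) : HFG ((stalkD x).obj G) := by
  intro i
  obtain ⟨U, hU, hxU, -⟩ := exists_isAffineOpen_mem_and_subset (X := X) (x := x) (U := ⊤)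
    trivial
  have h1 := hG.2 i
  have h2 : Module.Finite (X.presheaf.stalk x)
      ((DerivedCategory.homologyFunctor X.Modules i ⋙ stalkMod X x).obj G) :=
    finite_stalk (QC.of_isQuasicoherent _ h1.qcoh) hU x hxU (h1.finite U hU)
  exact Module.Finite.equiv ((stalkHomology x i).app G).symm.toLinearEquiv

/-- `χ(G, 𝒪_x)` is the alternating sum of the ranks of the stalks of the cohomology. -/
theorem chi_sky [IsIntegral X] [IsLocallyNoetherian X] (f : X ⟶ Spec (.of ℂ)) (x : X)
    (hx : ∀ v : X.residueField x, ∃ c : ℂ, X.evaluation ⊤ x trivial (cmap f c) = v)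
    {a b : X.presheaf.stalk x} (hab : IsPar2 (X.presheaf.stalk x) a b) {G : DMod X}
    (hG : dbCoh X G) :
    chi f G (skyD x) = altSum fun i =>
      Module.finrank (X.presheaf.stalk x) ((stalkMod X x).obj (hh i G)) := by
  let := algStalk f x
  obtain ⟨m, n, hm, hn⟩ := hG.1
  have h1 : ((stalkD x).obj G).IsGE m := by
    rw [DerivedCategory.isGE_iff]
    intro i hi
    exact IsZero.of_iso ((stalkMod X x).map_isZero (G.isZero_of_isGE m i hi))
      ((stalkHomology x i).app G)
  have h2 : ((stalkD x).obj G).IsLE n := by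
    rw [DerivedCategory.isLE_iff]
    intro i hi
    exact IsZero.of_iso ((stalkMod X x).map_isZero (G.isZero_of_isLE n i hi))
      ((stalkHomology x i).app G)
  have h3 := hab.good (F := ℂ) (finrank_kap f x hx) ((stalkD x).obj G) m n (stalkD_hfg hG x)
  have h4 : chi f G (skyD x) = eulF ℂ ((stalkD x).obj G) (kapD x) :=
    finsum_congr fun i => by rw [homDim_sky f x G i]
  rw [h4, h3.eq]
  exact altSum_congr fun i => LinearEquiv.finrank_eq ((stalkHomology x i).app G).toLinearEquiv

/-- **B11**: `χ(G, 𝒪_x)` does not depend on the closed point `x`. -/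
theorem chi_sky_eq [IsIntegral X] [IsLocallyNoetherian X] (f : X ⟶ Spec (.of ℂ)) (x y : X)
    (hx : ∀ v : X.residueField x, ∃ c : ℂ, X.evaluation ⊤ x trivial (cmap f c) = v)
    (hy : ∀ v : X.residueField y, ∃ c : ℂ, X.evaluation ⊤ y trivial (cmap f c) = v)
    {a b : X.presheaf.stalk x} (hab : IsPar2 (X.presheaf.stalk x) a b)
    {a' b' : X.presheaf.stalk y} (hab' : IsPar2 (X.presheaf.stalk y) a' b') {G : DMod X}
    (hG : dbCoh X G) : chi f G (skyD x) = chi f G (skyD y) := by
  rw [chi_sky f x hx hab hG, chi_sky f y hy hab' hG]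
  exact altSum_congr fun i => finrank_stalk_eq (QC.of_isQuasicoherent _ (hG.2 i).qcoh) x y

end M21
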