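import Pool.Agent.H.MP_21b43d_ag.B.Coh2

/-!
# M21: the structure sheaf and the skyscraper sheaves of closed points are coherent
-/

open CategoryTheory CategoryTheory.Limits AlgebraicGeometry TopologicalSpace Opposite
open CategoryTheory.Pretriangulated
open AlgebraicGeometry.Scheme (Modules)
open scoped ZeroObject

noncomputable section

namespace M21

variable {X : Scheme.{0}}

/-- The structure sheaf as a module. -/
abbrev unitMod (X : Scheme.{0}) : X.Modules := SheafOfModules.unit X.ringCatSheaf

theorem res_unit {U V : X.Opens} (h : V ≤ U) (s : Γ(X, U)) :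
    res (unitMod X) h s = resF h s := rfl

theorem smul_unit {U : X.Opens} (r s : Γ(X, U)) :
    (r • (show Γ(unitMod X, U) from s) : Γ(unitMod X, U)) = r * s := rfl

theorem isCoh_unit (X : Scheme.{0}) : IsCoh (unitMod X) := by
  refine isCoh_iff.mpr ⟨⟨fun U hU f s => ?_, fun U hU f s hs => ?_⟩, fun U hU => ?_⟩
  · have := hU.isLocalization_basicOpen f
    let s' : Γ(X, X.basicOpen f) := s
    obtain ⟨⟨t, ⟨_, n, rfl⟩⟩, ht⟩ := IsLocalization.surj (Submonoid.powers f) s'
    refine ⟨n, t, ?_⟩
    change resF (X.basicOpen_le f) t = resF (X.basicOpen_le f) f ^ n * s'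
    have ht' : s' * resF (X.basicOpen_le f) (f ^ n) = resF (X.basicOpen_le f) t := ht
    rw [← ht', resF_pow, mul_comm]
  · have := hU.isLocalization_basicOpen f
    let s' : Γ(X, U) := s
    have hs' : algebraMap Γ(X, U) Γ(X, X.basicOpen f) s' = 0 := hs
    obtain ⟨⟨_, n, rfl⟩, hn⟩ := (IsLocalization.map_eq_zero_iff (Submonoid.powers f) _ s').mp hs'
    exact ⟨n, hn⟩
  · refine ⟨⟨{(show Γ(unitMod X, U) from (1 : Γ(X, U)))}, ?_⟩⟩
    rw [Finset.coe_singleton, eq_top_iff]
    intro s _
    rw [Submodule.mem_span_singleton]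
    exact ⟨(show Γ(X, U) from s), mul_one (show Γ(X, U) from s)⟩

/-! ### skyscrapers -/

theorem preimage_residue_of_mem (x : X) {U : X.Opens} (hx : x ∈ U) :
    X.fromSpecResidueField x ⁻¹ᵁ U = ⊤ := by
  rw [eq_top_iff]
  intro y _
  change X.fromSpecResidueField x y ∈ U
  rw [Scheme.fromSpecResidueField_apply]; exact hx

theorem preimage_residue_of_not_mem (x : X) {U : X.Opens} (hx : x ∉ U) :
    X.fromSpecResidueField x ⁻¹ᵁ U = ⊥ := by
  rw [eq_bot_iff]
  intro y hy
  change X.fromSpecResidueField x y ∈ U at hy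
  rw [Scheme.fromSpecResidueField_apply] at hy; exact absurd hy hx

theorem subsingleton_sky (x : X) {U : X.Opens} (hx : x ∉ U) : Subsingleton Γ(sky x, U) := by
  change Subsingleton Γ(Spec (X.residueField x), X.fromSpecResidueField x ⁻¹ᵁ U)
  rw [preimage_residue_of_not_mem x hx]
  infer_instance

theorem smul_sky_app (x : X) {U : X.Opens} (r : Γ(X, U)) (s : Γ(sky x, U)) :
    r • s = ((X.fromSpecResidueField x).app U r *
      (show Γ(Spec (X.residueField x), X.fromSpecResidueField x ⁻¹ᵁ U) from s) :
      Γ(Spec (X.residueField x), X.fromSpecResidueField x ⁻¹ᵁ U)) := rfl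

theorem res_sky (x : X) {U V : X.Opens} (h : V ≤ U) (s : Γ(sky x, U)) :
    res (sky x) h s = (Spec (X.residueField x)).presheaf.map
      (homOfLE (show X.fromSpecResidueField x ⁻¹ᵁ V ≤ X.fromSpecResidueField x ⁻¹ᵁ U from
        fun _ hy => h hy)).op s := rfl

theorem res_sky_bijective (x : X) {U V : X.Opens} (h : V ≤ U) (hx : x ∈ V) :
    Function.Bijective (res (sky x) h) := by
  let hle : X.fromSpecResidueField x ⁻¹ᵁ V ≤ X.fromSpecResidueField x ⁻¹ᵁ U := fun _ hy => h hy
  have hge : X.fromSpecResidueField x ⁻¹ᵁ U ≤ X.fromSpecResidueField x ⁻¹ᵁ V := by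
    rw [preimage_residue_of_mem x hx]; exact le_top
  have hiso : IsIso (homOfLE hle) := ⟨homOfLE hge, rfl, rfl⟩
  have h1 : IsIso ((Spec (X.residueField x)).presheaf.map (homOfLE hle).op) := inferInstance
  exact ConcreteCategory.bijective_of_isIso
    ((Spec (X.residueField x)).presheaf.map (homOfLE hle).op)

theorem app_eq_zero_of_not_mem (x : X) {U : X.Opens} (f : Γ(X, U))
    (hf : x ∉ X.basicOpen f) : (X.fromSpecResidueField x).app U f = 0 := by
  have h1 : (Spec (X.residueField x)).basicOpen ((X.fromSpecResidueField x).app U f) = ⊥ := by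
    rw [← Scheme.preimage_basicOpen]
    exact preimage_residue_of_not_mem x hf
  exact (basicOpen_eq_bot_iff _).mp h1

/-- Skyscraper sheaves are quasi-coherent. -/
theorem qc_sky (x : X) : QC (sky x) where
  ext U hU f s := by
    by_cases hxU : x ∈ X.basicOpen f
    · obtain ⟨t, ht⟩ := (res_sky_bijective x (X.basicOpen_le f) hxU).2 s
      exact ⟨0, t, by rw [ht, pow_zero, one_smul]⟩
    · have := subsingleton_sky x hxU
      exact ⟨0, 0, Subsingleton.elim _ _⟩
  tors U hU f s hs := by
    by_cases hxU : x ∈ X.basicOpen f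
    · refine ⟨0, ?_⟩
      rw [pow_zero, one_smul]
      apply (res_sky_bijective x (X.basicOpen_le f) hxU).1
      rw [hs, res_zero]
    · by_cases hx : x ∈ U
      · refine ⟨1, ?_⟩
        rw [pow_one, smul_sky_app, app_eq_zero_of_not_mem x f hxU, zero_mul]
        rfl
      · have := subsingleton_sky x hx
        exact ⟨0, Subsingleton.elim _ _⟩

/-- Skyscraper sheaves at closed points are coherent. -/
theorem isCoh_sky (x : X) (hx : IsClosed ({x} : Set X)) : IsCoh (sky x) := by
  refine isCoh_iff.mpr ⟨qc_sky x, fun U hU => ?_⟩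
  have hc := isClosed_singleton_iff_isClosedImmersion.mp hx
  have hs := (X.fromSpecResidueField x).app_surjective U hU
  refine ⟨⟨{(show Γ(sky x, U) from
    (1 : Γ(Spec (X.residueField x), X.fromSpecResidueField x ⁻¹ᵁ U)))}, ?_⟩⟩
  rw [Finset.coe_singleton, eq_top_iff]
  intro s _
  rw [Submodule.mem_span_singleton]
  obtain ⟨r, hr⟩ := hs s
  refine ⟨r, ?_⟩
  rw [smul_sky_app, hr]
  exact mul_one (show Γ(Spec (X.residueField x), X.fromSpecResidueField x ⁻¹ᵁ U) from s)

/-! ### objects of the derived category -/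

/-- Coherent modules in degree zero are in `D^b_coh(X)`. -/
theorem dbCoh_single [IsLocallyNoetherian X] (M : X.Modules) (hM : IsCoh M) (n : ℤ) :
    dbCoh X ((DerivedCategory.singleFunctor X.Modules n).obj M) := by
  refine ⟨⟨n, n, inferInstance, inferInstance⟩, fun i => ?_⟩
  by_cases hi : i = n
  · subst hi
    exact hM.of_iso ((DerivedCategory.singleFunctorCompHomologyFunctorIso X.Modules i).app M)
  · apply isCoh_of_isZero
    rcases lt_or_gt_of_ne hi with h | h
    · exact (DerivedCategory.isGE_iff _ n).mp inferInstance i h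
    · exact (DerivedCategory.isLE_iff _ n).mp inferInstance i h

theorem dbCoh_skyD [IsLocallyNoetherian X] (x : X) (hx : IsClosed ({x} : Set X)) :
    dbCoh X (skyD x) :=
  dbCoh_single (sky x) (isCoh_sky x hx) 0

/-- The structure sheaf as an object of the derived category. -/
def unitD (X : Scheme.{0}) : DMod X :=
  (DerivedCategory.singleFunctor X.Modules 0).obj (unitMod X)

theorem dbCoh_unitD [IsLocallyNoetherian X] : dbCoh X (unitD X) :=
  dbCoh_single (unitMod X) (isCoh_unit X) 0

end M21
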