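import Pool.Agent.H.MP_21b43d_ag.B.Coh3

/-!
# M21: the support of a coherent module is closed
-/

open CategoryTheory CategoryTheory.Limits AlgebraicGeometry TopologicalSpace Opposite
open CategoryTheory.Pretriangulated
open AlgebraicGeometry.Scheme (Modules)

noncomputable section

namespace M21

variable {X : Scheme.{0}}

/-- On `D(g)` multiplication by `g` is injective on sections. -/
theorem eq_zero_of_pow_smul_basicOpen (M : X.Modules) {U : X.Opens} (g : Γ(X, U)) (n : ℕ)
    (t : Γ(M, X.basicOpen g)) (h : resF (X.basicOpen_le g) g ^ n • t = 0) : t = 0 := by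
  have hu : IsUnit (resF (X.basicOpen_le g) g) := X.toRingedSpace.isUnit_res_basicOpen g
  exact (hu.pow n).smul_eq_zero.mp h

/-- A coherent module (or one with finitely generated sections over affine opens) which vanishes
at a point vanishes on a neighbourhood. -/
theorem exists_open_zeroAt (M : X.Modules) (hM : IsCoh M) (x : X) (h : ZeroAt M x) :
    ∃ V : X.Opens, x ∈ V ∧ (∀ W : X.Opens, W ≤ V → ∀ t : Γ(M, W), t = 0) ∧
      ∀ y ∈ V, ZeroAt M y := by
  classical
  obtain ⟨U, hU, hxU, -⟩ := exists_isAffineOpen_mem_and_subset (Opens.mem_top x)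
  obtain ⟨S, hS⟩ := (hM.finite U hU).fg_top
  -- a common neighbourhood where the generators vanish
  have h1 : ∃ V : X.Opens, ∃ hV : V ≤ U, x ∈ V ∧ ∀ s ∈ S, res M hV s = 0 := by
    clear hS
    induction S using Finset.induction_on with
    | empty => exact ⟨U, le_rfl, hxU, by simp⟩
    | insert a S _ ih =>
      obtain ⟨V, hV, hxV, hVS⟩ := ih
      obtain ⟨V', hV', hxV', h0⟩ := h U hxU a
      refine ⟨V ⊓ V', inf_le_left.trans hV, ⟨hxV, hxV'⟩, fun s hs => ?_⟩
      rcases Finset.mem_insert.mp hs with rfl | hs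
      · have := congrArg (res M (inf_le_right : V ⊓ V' ≤ V')) h0
        rwa [res_res, res_zero] at this
      · have := congrArg (res M (inf_le_left : V ⊓ V' ≤ V)) (hVS s hs)
        rwa [res_res, res_zero] at this
  obtain ⟨V, hV, hxV, hVS⟩ := h1
  have h2 : ∀ s : Γ(M, U), res M hV s = 0 := by
    intro s
    have hs : s ∈ Submodule.span Γ(X, U) (S : Set Γ(M, U)) := by rw [hS]; trivial
    induction hs using Submodule.span_induction with
    | mem s hs => exact hVS s hs
    | zero => exact res_zero hV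
    | add s t _ _ h3 h4 => rw [res_add, h3, h4, add_zero]
    | smul r s _ h3 => rw [res_smul, h3, smul_zero]
  have h3 : ∀ W : X.Opens, W ≤ V → ∀ t : Γ(M, W), t = 0 := by
    intro W hW t
    refine sec_ext M fun y hy => ?_
    obtain ⟨g, hg, hyg⟩ := hU.exists_basicOpen_le ⟨y, hy⟩ (hV (hW hy))
    refine ⟨X.basicOpen g, hg, hyg, ?_⟩
    rw [res_zero]
    obtain ⟨n, s, hs⟩ := hM.qc.ext U hU g (res M hg t)
    apply eq_zero_of_pow_smul_basicOpen M g n
    rw [← hs]
    have := congrArg (res M (hg.trans hW)) (h2 s)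
    rwa [res_res, res_zero] at this
  exact ⟨V, hxV, h3, fun y hy W hyW t => ⟨W ⊓ V, inf_le_left, ⟨hyW, hy⟩, h3 _ inf_le_right _⟩⟩

theorem isClosed_support (M : X.Modules) (hM : IsCoh M) : IsClosed {x : X | ¬ ZeroAt M x} := by
  rw [← isOpen_compl_iff, isOpen_iff_forall_mem_open]
  intro x hx
  obtain ⟨V, hxV, -, hV⟩ := exists_open_zeroAt M hM x (not_not.mp hx)
  exact ⟨V, fun y hy => not_not.mpr (hV y hy), V.2, hxV⟩

/-- The support of an object of `D^b_coh(X)` is closed. -/
theorem isClosed_supp (K : DMod X) (hK : dbCoh X K) : IsClosed (supp K) := by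
  rw [dbCoh_iff] at hK
  obtain ⟨⟨a, b, hab⟩, hc⟩ := hK
  have h : supp K = ⋃ i ∈ Finset.Icc a b, {x : X | ¬ ZeroAt (hh i K) x} := by
    ext x
    simp only [supp, Set.mem_ofPred_eq, Set.mem_iUnion, Finset.mem_Icc]
    constructor
    · rintro ⟨n, hn⟩
      refine ⟨n, ?_, hn⟩
      by_contra hcon
      apply hn
      intro U hxU s
      have := subsingleton_of_isZero (hab n (by omega)) U
      exact ⟨U, le_rfl, hxU, by rw [Subsingleton.elim s 0, res_zero]⟩
    · rintro ⟨n, -, hn⟩
      exact ⟨n, hn⟩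
  rw [h]
  exact Set.Finite.isClosed_biUnion (Finset.finite_toSet _) fun i _ => isClosed_support _ (hc i)

end M21
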