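import Pool.Agent.H.MP_21b43d_ag.B.End2

/-!
# M21: the skyscraper sheaf of a closed point and coherent modules supported at a closed point

* `exists_epi_sky`, `exists_mono_sky`: a nonzero coherent module supported at the closed point `x`
  maps onto `sky x` and contains `sky x`.
-/

open CategoryTheory CategoryTheory.Limits AlgebraicGeometry TopologicalSpace

noncomputable section

namespace M21

variable {X : Scheme.{0}} {M N : X.Modules} {x : X}

theorem preimage_eq_bot {V : X.Opens} (hx : x ∉ V) : X.fromSpecResidueField x ⁻¹ᵁ V = ⊥ := by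
  rw [eq_bot_iff]
  intro y hy
  have : X.fromSpecResidueField x y ∈ V := hy
  rw [Scheme.fromSpecResidueField_apply] at this
  exact absurd this hx

theorem preimage_eq_top {V : X.Opens} (hx : x ∈ V) : X.fromSpecResidueField x ⁻¹ᵁ V = ⊤ := by
  rw [eq_top_iff]
  intro y _
  change X.fromSpecResidueField x y ∈ V
  rw [Scheme.fromSpecResidueField_apply]
  exact hx

theorem suppPt_sky (hcl : IsClosed ({x} : Set X)) : SuppPt (sky x) x := by
  intro y hyx U hy s
  refine ⟨U ⊓ ⟨{x}ᶜ, hcl.isOpen_compl⟩, inf_le_left, ⟨hy, hyx⟩, ?_⟩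
  have h1 : x ∉ (U ⊓ ⟨{x}ᶜ, hcl.isOpen_compl⟩ : X.Opens) := fun hx => hx.2 rfl
  have h2 := preimage_eq_bot h1
  have h3 : Subsingleton Γ(Spec (X.residueField x),
      X.fromSpecResidueField x ⁻¹ᵁ (U ⊓ ⟨{x}ᶜ, hcl.isOpen_compl⟩)) := by
    rw [h2]
    infer_instance
  exact h3.elim _ _

/-- The section `1` of the skyscraper sheaf. -/
def skyOne (x : X) (V : X.Opens) : Γ(sky x, V) :=
  (1 : Γ(Spec (X.residueField x), X.fromSpecResidueField x ⁻¹ᵁ V))

theorem smul_sky {V : X.Opens} (a : Γ(X, V))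
    (s : Γ(Spec (X.residueField x), X.fromSpecResidueField x ⁻¹ᵁ V)) :
    (a • (show Γ(sky x, V) from s)) =
      (show Γ(sky x, V) from ((X.fromSpecResidueField x).app V a * s :
        Γ(Spec (X.residueField x), X.fromSpecResidueField x ⁻¹ᵁ V))) := rfl

theorem smul_skyOne {V : X.Opens} (a : Γ(X, V)) : a • skyOne x V =
    (show Γ(sky x, V) from (X.fromSpecResidueField x).app V a) := by
  change ((X.fromSpecResidueField x).app V a * 1 :
        Γ(Spec (X.residueField x), X.fromSpecResidueField x ⁻¹ᵁ V)) = _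
  rw [mul_one]

theorem smul_skyOne_eq_zero_iff {V : X.Opens} (a : Γ(X, V)) :
    a • skyOne x V = 0 ↔ x ∉ X.basicOpen a := by
  rw [smul_skyOne]
  change (X.fromSpecResidueField x).app V a = 0 ↔ _
  rw [← basicOpen_eq_bot_iff, ← Scheme.preimage_basicOpen]
  constructor
  · intro h hx
    rw [preimage_eq_top hx] at h
    have h1 : (default : Spec (X.residueField x)) ∈ (⊤ : (Spec (X.residueField x)).Opens) :=
      trivial
    rw [h] at h1
    exact h1
  · exact preimage_eq_bot

theorem smul_skyOne_surjective (hcl : IsClosed ({x} : Set X)) {V : X.Opens}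
    (hV : IsAffineOpen V) (s : Γ(sky x, V)) : ∃ a : Γ(X, V), a • skyOne x V = s := by
  have : IsClosedImmersion (X.fromSpecResidueField x) :=
    .of_isPreimmersion _ (by rw [Scheme.range_fromSpecResidueField]; exact hcl)
  obtain ⟨a, ha⟩ := (X.fromSpecResidueField x).app_surjective V hV s
  exact ⟨a, by rw [smul_skyOne]; exact ha⟩

/-- The maximal ideal of the closed point `x` in the ring of an affine open neighbourhood. -/
def maxId (x : X) (V : X.Opens) (hx : x ∈ V) : Ideal Γ(X, V) :=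
  RingHom.ker (X.evaluation V x hx).hom

theorem mem_maxId {V : X.Opens} (hx : x ∈ V) (a : Γ(X, V)) :
    a ∈ maxId x V hx ↔ x ∉ X.basicOpen a := by
  rw [maxId, RingHom.mem_ker]
  exact X.evaluation_eq_zero_iff_notMem_basicOpen x hx a

theorem isMaximal_maxId (hcl : IsClosed ({x} : Set X)) {V : X.Opens} (hV : IsAffineOpen V)
    (hx : x ∈ V) : (maxId x V hx).IsMaximal := by
  have : IsClosedImmersion (X.fromSpecResidueField x) :=
    .of_isPreimmersion _ (by rw [Scheme.range_fromSpecResidueField]; exact hcl)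
  have hsurj := (X.fromSpecResidueField x).app_surjective V hV
  have hker : maxId x V hx = RingHom.ker ((X.fromSpecResidueField x).app V).hom := by
    ext a
    rw [mem_maxId, RingHom.mem_ker, ← smul_skyOne_eq_zero_iff, smul_skyOne]
    rfl
  have hfield : IsField Γ(Spec (X.residueField x), X.fromSpecResidueField x ⁻¹ᵁ V) := by
    rw [preimage_eq_top hx]
    exact (Scheme.ΓSpecIso (X.residueField x)).commRingCatIsoToRingEquiv.toMulEquiv.isField
      (Field.toIsField (X.residueField x))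
  rw [hker]
  let _ := hfield.toField
  exact RingHom.ker_isMaximal_of_surjective ((X.fromSpecResidueField x).app V).hom hsurj

/-- Elements outside of the maximal ideal act injectively on modules supported at `x`. -/
theorem SuppPt.smul_eq_zero (hM : SuppPt M x) {V : X.Opens} {r : Γ(X, V)}
    (hr : x ∈ X.basicOpen r) {m : Γ(M, V)} (h : r • m = 0) : m = 0 := by
  apply hM.res_injective (X.basicOpen_le r) hr
  have h1 := congrArg (res M (X.basicOpen_le r)) h
  rw [res_smul, res_zero] at h1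
  rw [res_zero]
  exact (isUnit_resF V r).smul_eq_zero.mp h1

/-- **A nonzero module of finite type supported at the closed point `x` maps onto `sky x`.** -/
theorem exists_epi_sky (hcl : IsClosed ({x} : Set X)) (hM : SuppPt M x) (h0 : ¬ IsZero M)
    {V : X.Opens} (hV : IsAffineOpen V) (hx : x ∈ V) (hfin : Module.Finite Γ(X, V) Γ(M, V)) :
    ∃ g : M ⟶ sky x, Epi g := by
  have hmax := isMaximal_maxId hcl hV hx
  have hne : (maxId x V hx • ⊤ : Submodule Γ(X, V) Γ(M, V)) ≠ ⊤ := by
    intro htop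
    obtain ⟨r, hr, hrm⟩ := Submodule.exists_sub_one_mem_and_smul_eq_zero_of_fg_of_le_smul
      (maxId x V hx) (⊤ : Submodule Γ(X, V) Γ(M, V)) hfin.fg_top htop.ge
    have hr1 : x ∈ X.basicOpen r := by
      by_contra hcon
      rw [← mem_maxId hx] at hcon
      apply hmax.ne_top
      rw [Ideal.eq_top_iff_one]
      have := Ideal.sub_mem _ hcon hr
      rwa [sub_sub_cancel] at this
    exact h0 (isZero_of_suppPt hcl hM hx fun m => hM.smul_eq_zero hr1 (hrm m trivial))
  let _ : Field (Γ(X, V) ⧸ maxId x V hx) := Ideal.Quotient.field _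
  obtain ⟨m₀, hm₀⟩ : ∃ m₀ : Γ(M, V), m₀ ∉ (maxId x V hx • ⊤ : Submodule Γ(X, V) Γ(M, V)) := by
    by_contra hcon
    push Not at hcon
    exact hne (eq_top_iff.mpr fun m _ => hcon m)
  have hm₁ : (Submodule.Quotient.mk m₀ :
      Γ(M, V) ⧸ (maxId x V hx • ⊤ : Submodule Γ(X, V) Γ(M, V))) ≠ 0 := by
    rwa [Ne, Submodule.Quotient.mk_eq_zero]
  obtain ⟨f, hf⟩ : ∃ f : Module.Dual (Γ(X, V) ⧸ maxId x V hx)
      (Γ(M, V) ⧸ (maxId x V hx • ⊤ : Submodule Γ(X, V) Γ(M, V))),
      f (Submodule.Quotient.mk m₀) ≠ 0 := by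
    by_contra hcon
    push Not at hcon
    exact hm₁ ((Module.forall_dual_apply_eq_zero_iff (Γ(X, V) ⧸ maxId x V hx) _).mp hcon)
  let e : (Γ(X, V) ⧸ maxId x V hx) →ₗ[Γ(X, V)] Γ(sky x, V) :=
    Submodule.liftQ (maxId x V hx) (LinearMap.toSpanSingleton Γ(X, V) Γ(sky x, V) (skyOne x V))
      (fun a ha => by
        rw [LinearMap.mem_ker, LinearMap.toSpanSingleton_apply, smul_skyOne_eq_zero_iff,
          ← mem_maxId hx]
        exact ha)
  have he : ∀ a : Γ(X, V), e (Ideal.Quotient.mk _ a) = a • skyOne x V := fun a => rfl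
  let φ : Γ(M, V) → Γ(sky x, V) := fun m => e (f (Submodule.Quotient.mk m))
  have hadd : ∀ m m', φ (m + m') = φ m + φ m' := by
    intro m m'
    change e (f (Submodule.Quotient.mk (m + m'))) = _
    rw [Submodule.Quotient.mk_add, map_add, map_add]
  have hmk : ∀ (a : Γ(X, V)) (m : Γ(M, V)), f (Submodule.Quotient.mk (a • m)) =
      Ideal.Quotient.mk _ a * f (Submodule.Quotient.mk m) := by
    intro a m
    rw [← Module.Quotient.mk_smul_mk, map_smul, smul_eq_mul]
  have hsmul : ∀ (a : Γ(X, V)) (m), φ (a • m) = a • φ m := by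
    intro a m
    change e (f (Submodule.Quotient.mk (a • m))) = a • e (f (Submodule.Quotient.mk m))
    rw [hmk, ← map_smul]
    rfl
  obtain ⟨Φ, hΦ⟩ := exists_hom_of_suppPt hcl hM (suppPt_sky hcl) hV hx φ hadd hsmul
  refine ⟨Φ, epi_of_surjective_suppPt hcl (suppPt_sky hcl) hx Φ fun s => ?_⟩
  obtain ⟨c, hc⟩ := smul_skyOne_surjective hcl hV s
  obtain ⟨d, hd⟩ := Ideal.Quotient.mk_surjective (I := maxId x V hx)
    (f (Submodule.Quotient.mk m₀))⁻¹
  refine ⟨(c * d) • m₀, ?_⟩
  rw [hΦ]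
  change e (f (Submodule.Quotient.mk ((c * d) • m₀))) = s
  have h1 : f (Submodule.Quotient.mk ((c * d) • m₀)) = Ideal.Quotient.mk _ c := by
    rw [hmk, RingHom.map_mul, hd, mul_assoc, inv_mul_cancel₀ hf, mul_one]
  rw [h1, he, hc]

/-- **A nonzero coherent module supported at the closed point `x` contains `sky x`.** -/
theorem exists_mono_sky (hcl : IsClosed ({x} : Set X)) (hM : SuppPt M x) (h0 : ¬ IsZero M)
    (hQ : QC M) {V : X.Opens} (hV : IsAffineOpen V) (hx : x ∈ V)
    (hnoeth : IsNoetherianRing Γ(X, V)) : ∃ g : sky x ⟶ M, Mono g := by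
  have hnt : Nontrivial Γ(M, V) := by
    by_contra hcon
    rw [not_nontrivial_iff_subsingleton] at hcon
    exact h0 (isZero_of_suppPt hcl hM hx fun m => Subsingleton.elim _ _)
  obtain ⟨p, hp⟩ := associatedPrimes.nonempty Γ(X, V) Γ(M, V)
  rw [AssociatedPrimes.mem_iff, isAssociatedPrime_iff] at hp
  obtain ⟨hpr, m, hm⟩ := hp
  have hpm : ∀ a : Γ(X, V), a ∈ p ↔ a • m = 0 := by
    intro a
    rw [hm, Submodule.mem_colon_singleton, Submodule.mem_bot]
  have hp1 : ∀ a ∈ p, a ∈ maxId x V hx := by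
    intro a ha
    rw [mem_maxId]
    intro hcon
    have h1 := hM.smul_eq_zero hcon ((hpm a).mp ha)
    apply hpr.ne_top
    rw [Ideal.eq_top_iff_one, hpm, one_smul, h1]
  have hp2 : ∀ a ∈ maxId x V hx, a ∈ p := by
    intro a ha
    rw [mem_maxId] at ha
    obtain ⟨n, hn⟩ := hQ.tors V hV a m (hM.eq_zero ha _)
    exact hpr.mem_of_pow_mem n ((hpm _).mpr hn)
  have hkey : ∀ a : Γ(X, V), a • skyOne x V = 0 ↔ a • m = 0 := by
    intro a
    rw [smul_skyOne_eq_zero_iff, ← mem_maxId hx, ← hpm]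
    exact ⟨hp2 a, hp1 a⟩
  have hch : ∀ s : Γ(sky x, V), ∃ a : Γ(X, V), a • skyOne x V = s :=
    smul_skyOne_surjective hcl hV
  choose c hc using hch
  have hc' : ∀ a a' : Γ(X, V), a • skyOne x V = a' • skyOne x V → a • m = a' • m := by
    intro a a' h
    rw [← sub_eq_zero, ← sub_smul, ← hkey, sub_smul, sub_eq_zero]
    exact h
  obtain ⟨Φ, hΦ⟩ := exists_hom_of_suppPt hcl (suppPt_sky hcl) hM hV hx (fun s => c s • m)
    (fun s s' => by
      rw [← add_smul]
      apply hc'
      rw [add_smul, hc, hc, hc])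
    (fun a s => by
      rw [← mul_smul]
      apply hc'
      rw [mul_smul, hc, hc])
  refine ⟨Φ, mono_of_injective_suppPt hcl (suppPt_sky hcl) hM hx Φ ?_⟩
  intro s s' hss
  rw [hΦ, hΦ, ← sub_eq_zero, ← sub_smul, ← hkey, sub_smul, sub_eq_zero, hc, hc] at hss
  exact hss

end M21
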