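import Pool.Agent.H.MP_21b43d_ag.B.Supp

/-!
# M21: consequences of extension by zero for objects with small support

* `isIso_Dres_eD` : `(j_! j^* A ⟶ A)|W` is an isomorphism;
* `hom_zero_restrict_of_supp` (B1)(i);
* `hom_eq_zero_of_disjoint` : `Hom(C, K) = 0` if `supp K` is contained in a closed set disjoint from
  `supp C`;
* `exists_split` (B1)(ii) : if `supp A` is contained in the union of two disjoint closed subsets `T₁`
  and `T₂` then `A ≅ A₁ ⊞ A₂` with `supp A₁ = supp A ∩ T₁`, `supp A₂ = supp A ∩ T₂`.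
-/

open CategoryTheory CategoryTheory.Limits CategoryTheory.Pretriangulated AlgebraicGeometry
  TopologicalSpace Opposite
open AlgebraicGeometry.Scheme (Modules)

noncomputable section

namespace M21

section gen

universe w₁ w₂ w₃ v₁ v₂ v₃ u₁ u₂ u₃

variable {C : Type u₁} [Category.{v₁} C] [Abelian C] [HasDerivedCategory.{w₁} C]
  {D : Type u₂} [Category.{v₂} D] [Abelian D] [HasDerivedCategory.{w₂} D]
  {E : Type u₃} [Category.{v₃} E] [Abelian E] [HasDerivedCategory.{w₃} E]
  {F G : C ⥤ D} [F.Additive] [PreservesFiniteLimits F] [PreservesFiniteColimits F]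
  [G.Additive] [PreservesFiniteLimits G] [PreservesFiniteColimits G]

theorem isIso_map_derNat_app (α : F ⟶ G)
    (H : D ⥤ E) [H.Additive] [PreservesFiniteLimits H] [PreservesFiniteColimits H]
    (h : ∀ M : C, IsIso (H.map (α.app M))) (A : DerivedCategory C) :
    IsIso (H.mapDerivedCategory.map ((derNat α).app A)) := by
  let K := DerivedCategory.Q.objPreimage A
  let e : DerivedCategory.Q.obj K ≅ A := DerivedCategory.Q.objObjPreimageIso A
  have h0 : IsIso ((H.mapHomologicalComplex (ComplexShape.up ℤ)).map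
      ((NatTrans.mapHomologicalComplex α (ComplexShape.up ℤ)).app K)) := by
    have : ∀ i, IsIso (((H.mapHomologicalComplex (ComplexShape.up ℤ)).map
      ((NatTrans.mapHomologicalComplex α (ComplexShape.up ℤ)).app K)).f i) := fun i => h (K.X i)
    exact HomologicalComplex.Hom.isIso_of_components _
  have h1 : IsIso (H.mapDerivedCategory.map (DerivedCategory.Q.map
      ((NatTrans.mapHomologicalComplex α (ComplexShape.up ℤ)).app K))) := by
    have h2 := H.mapDerivedCategoryFactors_hom_naturality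
      ((NatTrans.mapHomologicalComplex α (ComplexShape.up ℤ)).app K)
    have h3 : IsIso (H.mapDerivedCategory.map (DerivedCategory.Q.map
      ((NatTrans.mapHomologicalComplex α (ComplexShape.up ℤ)).app K)) ≫
        H.mapDerivedCategoryFactors.hom.app _) := by
      rw [h2]
      infer_instance
    exact IsIso.of_isIso_comp_right _ (H.mapDerivedCategoryFactors.hom.app _)
  have h4 : IsIso (H.mapDerivedCategory.map ((derNat α).app (DerivedCategory.Q.obj K))) := by
    rw [derNat_app, Functor.map_comp, Functor.map_comp]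
    infer_instance
  exact isIso_app_of_iso (Functor.whiskerRight (derNat α) H.mapDerivedCategory) e h4

end gen

variable {X W : Scheme.{0}} (j : W ⟶ X) [IsOpenImmersion j]

/-- `j^*(j_! j^* M ⟶ M)` is an isomorphism. -/
theorem isIso_restrict_extHom (M : X.Modules) :
    IsIso ((Modules.restrictFunctor j).map (extHom j M)) := by
  refine isIso_of_bijective _ fun U => ⟨?_, ?_⟩
  · intro s s' h
    have h1 : extSec M (U := j ''ᵁ U) s = extSec M (U := j ''ᵁ U) s' := h
    refine jValM_injective (M := M) (U := j ''ᵁ U) ?_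
    rw [← (isExt_extSec M (U := j ''ᵁ U) s).res_eq, ← (isExt_extSec M (U := j ''ᵁ U) s').res_eq, h1]
  · intro t
    have h0 : ∀ x ∈ j ''ᵁ U, x ∉ j.opensRange → False := fun x hx hx' =>
      hx' (image_le_opensRange j U hx)
    refine ⟨jSecM (U := j ''ᵁ U) (res M (j.image_preimage_le (j ''ᵁ U)) t)
      (fun x hx hx' => (h0 x hx hx').elim), ?_⟩
    have h1 : extSec M (U := j ''ᵁ U)
        (jSecM (U := j ''ᵁ U) (res M (j.image_preimage_le (j ''ᵁ U)) t)
          (fun x hx hx' => (h0 x hx hx').elim)) = t :=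
      extSec_eq M ⟨rfl, fun x hx hx' => (h0 x hx hx').elim⟩
    exact h1

theorem isIso_Dres_eD (A : DMod X) : IsIso ((Dres j).map ((eD j).app A)) := by
  have h1 : IsIso ((Modules.restrictFunctor j).mapDerivedCategory.map
      ((derNat (extE j)).app A)) :=
    isIso_map_derNat_app (extE j) (Modules.restrictFunctor j) (isIso_restrict_extHom j) A
  have h2 : IsIso ((Modules.restrictFunctor j).mapDerivedCategory.map
      ((derComp (Modules.restrictFunctor j) (jShriek j)).inv.app A ≫
      (derNat (extE j)).app A ≫ (derId X.Modules).hom.app A)) := by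
    rw [Functor.map_comp, Functor.map_comp]
    infer_instance
  exact h2

/-- (B1)(i). -/
theorem hom_zero_restrict_of_supp {A B : DMod X} (hA : supp A ⊆ (j.opensRange : Set X))
    (hB : supp B ⊆ (j.opensRange : Set X)) (h : ∀ f : A ⟶ B, f = 0)
    (g : (Dres j).obj A ⟶ (Dres j).obj B) : g = 0 := by
  refine hom_zero_restrict j (fun n => (suppIn_iff j _).mpr fun x hx => ?_)
    (fun n => (suppIn_iff j _).mpr fun x hx => ?_) h g
  · by_contra hx'
    exact hx (hA ⟨n, hx'⟩)
  · by_contra hx'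
    exact hx (hB ⟨n, hx'⟩)

/-- A morphism from an object supported in `W` vanishes if the target vanishes on `W`. -/
theorem hom_eq_zero_of_isZero {C K : DMod X} (hC : supp C ⊆ (j.opensRange : Set X))
    (hK : IsZero ((Dres j).obj K)) (f : C ⟶ K) : f = 0 := by
  have h1 := isIso_eD_of_supp j hC
  have h2 := (eD j).naturality f
  have h3 : (Dres j).map f = 0 := hK.eq_of_tgt _ _
  have h4 : (Dres j ⋙ Djs j).map f = 0 := by
    rw [Functor.comp_map, h3, Functor.map_zero]
  rw [h4, zero_comp] at h2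
  have h5 : (eD j).app C ≫ f = (eD j).app C ≫ 0 := by
    rw [comp_zero]
    exact h2.symm
  exact (cancel_epi ((eD j).app C)).mp h5

theorem hom_eq_zero_of_disjoint {C K : DMod X} {T : Set X} (hT : IsClosed T) (hK : supp K ⊆ T)
    (hC : Disjoint (supp C) T) (f : C ⟶ K) : f = 0 := by
  let U : X.Opens := ⟨Tᶜ, hT.isOpen_compl⟩
  refine hom_eq_zero_of_isZero U.ι ?_ ?_ f
  · rw [Scheme.Opens.opensRange_ι]
    exact fun x hx hxT => Set.disjoint_left.mp hC hx hxT
  · rw [isZero_Dres_iff, Scheme.Opens.opensRange_ι, Set.disjoint_left]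
    exact fun x hx hx' => hx' (hK hx)

theorem supp_retract_inr {A A₁ A₂ : DMod X} (E : A ≅ A₁ ⊞ A₂) : supp A₂ ⊆ supp A :=
  supp_retract (biprod.inr ≫ E.inv) (E.hom ≫ biprod.snd) (by simp)

theorem supp_retract_inl {A A₁ A₂ : DMod X} (E : A ≅ A₁ ⊞ A₂) : supp A₁ ⊆ supp A :=
  supp_retract (biprod.inl ≫ E.inv) (E.hom ≫ biprod.fst) (by simp)

/-- (B1)(ii). -/
theorem exists_split {A : DMod X} {T₁ T₂ : Set X} (h₁ : IsClosed T₁) (h₂ : IsClosed T₂)
    (hT : Disjoint T₁ T₂) (hA : supp A ⊆ T₁ ∪ T₂) :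
    ∃ A₁ A₂ : DMod X, Nonempty (A ≅ A₁ ⊞ A₂) ∧ supp A₁ = supp A ∩ T₁ ∧ supp A₂ = supp A ∩ T₂ := by
  let U : X.Opens := ⟨T₂ᶜ, h₂.isOpen_compl⟩
  let A₁ : DMod X := (Djs U.ι).obj ((Dres U.ι).obj A)
  let e : A₁ ⟶ A := (eD U.ι).app A
  obtain ⟨C, g, h, hC⟩ := distinguished_cocone_triangle e
  have hs₁ : supp A₁ = supp A ∩ T₁ := by
    ext x
    constructor
    · intro hx
      have h1 : x ∈ (U.ι.opensRange : Set X) := supp_Djs_subset U.ι _ hx
      obtain ⟨w, rfl⟩ := h1
      have h2 : U.ι w ∈ supp A :=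
        (mem_supp_Dres U.ι A w).mp ((mem_supp_Djs U.ι _ w).mp hx)
      refine ⟨h2, ?_⟩
      rcases hA h2 with h3 | h3
      · exact h3
      · exact absurd h3 w.2
    · rintro ⟨hx, hx1⟩
      have h1 : x ∈ U := fun h3 => Set.disjoint_left.mp hT hx1 h3
      rw [← Scheme.Opens.opensRange_ι U] at h1
      obtain ⟨w, rfl⟩ := h1
      exact (mem_supp_Djs U.ι _ w).mpr ((mem_supp_Dres U.ι A w).mpr hx)
  have hzero : IsZero ((Dres U.ι).obj C) := by
    have h1 := (Dres U.ι).map_distinguished _ hC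
    have h2 : IsIso ((Dres U.ι).map e) := isIso_Dres_eD U.ι A
    exact (Triangle.isZero₃_iff_isIso₁ _ h1).mpr h2
  have hsC : supp C ⊆ T₂ := by
    intro x hx
    rw [isZero_Dres_iff, Scheme.Opens.opensRange_ι, Set.disjoint_left] at hzero
    by_contra h3
    exact hzero hx h3
  have hh0 : h = 0 := by
    refine hom_eq_zero_of_disjoint (T := T₁) h₁ ?_ ?_ h
    · rw [supp_shift, hs₁]
      exact Set.inter_subset_right
    · exact (hT.mono_right hsC).symm
  obtain ⟨E, hE1, hE2⟩ := exists_iso_binaryBiproduct_of_distTriang _ hC hh0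
  refine ⟨A₁, C, ⟨E⟩, hs₁, ?_⟩
  refine Set.Subset.antisymm (Set.subset_inter ?_ hsC) ?_
  · exact supp_retract_inr E
  · rintro x ⟨hx, hx2⟩
    rcases supp_triangle₂ hC hx with h3 | h3
    · have h4 : x ∈ supp A₁ := h3
      rw [hs₁] at h4
      exact absurd hx2 (Set.disjoint_left.mp hT h4.2)
    · exact h3

end M21
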