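import Pool.Agent.H.MP_21b43d_ag.B.End1
import Pool.Agent.H.MP_21b43d_ag.B.End3
import Pool.Agent.H.MP_21b43d_ag.B.JSplit

/-!
# M21: the end lemma (B8)

Let `A ⟶ 𝒪_x ⟶ B ⟶ A[1]` be a distinguished triangle with `A`, `B` bounded with coherent
cohomology, such that the supports of `A` and `B` are finite sets of closed points and
`Hom(A, B[i]) = 0` for `i ≤ 0`.  Then `A = 0` or `B = 0`.
-/

open CategoryTheory CategoryTheory.Limits CategoryTheory.Pretriangulated AlgebraicGeometry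
  TopologicalSpace

noncomputable section

namespace M21

variable {X : Scheme.{0}} {x : X}

theorem not_isZero_sky (x : X) : ¬ IsZero (sky x) := by
  intro h
  have h1 : (𝟙 (sky x) : sky x ⟶ sky x) = 0 := h.eq_of_src _ _
  have h2 : skyOne x ⊤ = (𝟙 (sky x) : sky x ⟶ sky x).app ⊤ (skyOne x ⊤) := rfl
  rw [h1] at h2
  have h3 : (1 : Γ(X, ⊤)) • skyOne x ⊤ = 0 := by
    rw [one_smul, h2]
    rfl
  rw [smul_skyOne_eq_zero_iff] at h3
  apply h3
  rw [Scheme.basicOpen_of_isUnit X isUnit_one]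
  trivial

theorem supp_skyD (hcl : IsClosed ({x} : Set X)) : supp (skyD x) ⊆ {x} := by
  rw [skyD, supp_single]
  intro y hy
  by_contra hyx
  exact hy (suppPt_sky hcl y hyx)

theorem Triangle.lift_of_comp_zero {C : Type*} [Category C] [HasZeroObject C] [HasShift C ℤ]
    [Preadditive C] [∀ n : ℤ, (shiftFunctor C n).Additive] [Pretriangulated C]
    (T : Triangle C) (hT : T ∈ distTriang C) {K : C} (f : K ⟶ T.obj₁) (hf : f ≫ T.mor₁ = 0) :
    ∃ g : K ⟶ T.obj₃⟦(-1 : ℤ)⟧, g ≫ T.invRotate.mor₁ = f := by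
  obtain ⟨g, hg⟩ := Triangle.coyoneda_exact₂ _ (inv_rot_of_distTriang T hT) f hf
  exact ⟨g, hg.symm⟩

/-- The part of `A` away from `x` vanishes. -/
theorem supp_left_subset (hcl : IsClosed ({x} : Set X)) (T : Triangle (DMod X))
    (hT : T ∈ distTriang (DMod X)) (e : T.obj₂ ≅ skyD x) {S : Set X} (hS : IsClosed S)
    (hxS : x ∉ S) (hA : supp T.obj₁ ⊆ {x} ∪ S)
    (hHom : ∀ f : T.obj₁ ⟶ T.obj₃⟦(-1 : ℤ)⟧, f = 0) : supp T.obj₁ ⊆ {x} := by
  have hdis : Disjoint ({x} : Set X) S := Set.disjoint_singleton_left.mpr hxS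
  obtain ⟨A₁, A₂, ⟨E⟩, -, h2⟩ := exists_split hcl hS hdis hA
  let i₂ : A₂ ⟶ T.obj₁ := biprod.inr ≫ E.inv
  let p₂ : T.obj₁ ⟶ A₂ := E.hom ≫ biprod.snd
  have hip : i₂ ≫ p₂ = 𝟙 A₂ := by simp [i₂, p₂]
  have h3 : i₂ ≫ T.mor₁ = 0 := by
    have h4 : (i₂ ≫ T.mor₁) ≫ e.hom = 0 := by
      refine hom_eq_zero_of_disjoint (T := {x}) hcl (supp_skyD hcl) ?_ _
      rw [h2]
      exact hdis.symm.mono_left Set.inter_subset_right
    rw [← cancel_mono e.hom, h4, zero_comp]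
  obtain ⟨g, hg⟩ := Triangle.lift_of_comp_zero T hT i₂ h3
  have h5 : p₂ ≫ g = 0 := hHom _
  have h6 : g = 0 := by
    rw [← Category.id_comp g, ← hip, Category.assoc, h5, comp_zero]
  have hi0 : i₂ = 0 := by
    rw [← hg, h6]
    exact zero_comp
  have h7 : IsZero A₂ := by
    rw [IsZero.iff_id_eq_zero, ← hip, hi0, zero_comp]
  have h8 := supp_isZero h7
  intro y hy
  rcases hA hy with h9 | h9
  · exact h9
  · have : y ∈ supp A₂ := by
      rw [h2]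
      exact ⟨hy, h9⟩
    rw [h8] at this
    exact absurd this (Set.notMem_empty y)

/-- The part of `B` away from `x` vanishes. -/
theorem supp_right_subset (hcl : IsClosed ({x} : Set X)) (T : Triangle (DMod X))
    (hT : T ∈ distTriang (DMod X)) (e : T.obj₂ ≅ skyD x) {S : Set X} (hS : IsClosed S)
    (hxS : x ∉ S) (hB : supp T.obj₃ ⊆ {x} ∪ S)
    (hHom : ∀ f : T.obj₁ ⟶ T.obj₃⟦(-1 : ℤ)⟧, f = 0) : supp T.obj₃ ⊆ {x} := by
  have hdis : Disjoint ({x} : Set X) S := Set.disjoint_singleton_left.mpr hxS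
  obtain ⟨B₁, B₂, ⟨E⟩, -, h2⟩ := exists_split hcl hS hdis hB
  let i₂ : B₂ ⟶ T.obj₃ := biprod.inr ≫ E.inv
  let p₂ : T.obj₃ ⟶ B₂ := E.hom ≫ biprod.snd
  have hip : i₂ ≫ p₂ = 𝟙 B₂ := by simp [i₂, p₂]
  have h3 : T.mor₂ ≫ p₂ = 0 := by
    have h4 : e.inv ≫ T.mor₂ ≫ p₂ = 0 := by
      refine hom_eq_zero_of_disjoint (T := S) hS ?_ ?_ _
      · rw [h2]
        exact Set.inter_subset_right
      · exact hdis.mono_left (supp_skyD hcl)
    rw [← cancel_epi e.inv, h4, comp_zero]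
  obtain ⟨g, hg⟩ := Triangle.yoneda_exact₃ T hT p₂ h3
  have hHom' : ∀ f : T.obj₁⟦(1 : ℤ)⟧ ⟶ T.obj₃, f = 0 := by
    intro f
    have h5 : (shiftShiftNeg T.obj₁ (1 : ℤ)).inv ≫ f⟦(-1 : ℤ)⟧' = 0 := hHom _
    have h6 : f⟦(-1 : ℤ)⟧' = 0 := by
      rw [← cancel_epi (shiftShiftNeg T.obj₁ (1 : ℤ)).inv, h5, comp_zero]
    exact (shiftFunctor (DMod X) (-1 : ℤ)).map_injective (by rw [h6, Functor.map_zero])
  have h5 : g ≫ i₂ = 0 := hHom' _
  have h6 : g = 0 := by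
    rw [← Category.comp_id g, ← hip, ← Category.assoc, h5, zero_comp]
  have h7 : IsZero B₂ := by
    rw [IsZero.iff_id_eq_zero, ← hip, hg, h6, comp_zero, comp_zero]
  have h8 := supp_isZero h7
  intro y hy
  rcases hB hy with h9 | h9
  · exact h9
  · have : y ∈ supp B₂ := by
      rw [h2]
      exact ⟨hy, h9⟩
    rw [h8] at this
    exact absurd this (Set.notMem_empty y)

theorem exists_top {A : DMod X} (hb : ∃ b : ℤ, A.IsLE b) (h0 : ¬ IsZero A) :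
    ∃ p : ℤ, A.IsLE p ∧ ¬ IsZero (hh p A) := by
  have h1 : ∃ n : ℤ, ¬ IsZero (hh n A) := by
    by_contra hcon
    push Not at hcon
    exact h0 (isZero_of_hh hcon)
  obtain ⟨b, hb⟩ := hb
  obtain ⟨p, hp, hmax⟩ := Int.exists_greatest_of_bdd
    (P := fun n => ¬ IsZero (hh n A))
    ⟨b, fun z hz => by
      by_contra hcon
      exact hz (DerivedCategory.isZero_of_isLE A b z (by lia))⟩ h1
  refine ⟨p, ?_, hp⟩
  rw [DerivedCategory.isLE_iff]
  intro i hi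
  by_contra hcon
  have := hmax i hcon
  lia

theorem exists_bottom {A : DMod X} (ha : ∃ a : ℤ, A.IsGE a) (h0 : ¬ IsZero A) :
    ∃ q : ℤ, A.IsGE q ∧ ¬ IsZero (hh q A) := by
  have h1 : ∃ n : ℤ, ¬ IsZero (hh n A) := by
    by_contra hcon
    push Not at hcon
    exact h0 (isZero_of_hh hcon)
  obtain ⟨a, ha⟩ := ha
  obtain ⟨q, hq, hmin⟩ := Int.exists_least_of_bdd
    (P := fun n => ¬ IsZero (hh n A))
    ⟨a, fun z hz => by
      by_contra hcon
      exact hz (DerivedCategory.isZero_of_isGE A a z (by lia))⟩ h1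
  refine ⟨q, ?_, hq⟩
  rw [DerivedCategory.isGE_iff]
  intro i hi
  by_contra hcon
  have := hmin i hcon
  lia

/-- **The end lemma (B8)**, with explicit finiteness and quasi-coherence hypotheses. -/
theorem end_lemma [IsLocallyNoetherian X] (hcl : IsClosed ({x} : Set X)) (T : Triangle (DMod X))
    (hT : T ∈ distTriang (DMod X)) (e : T.obj₂ ≅ skyD x)
    (hAb : ∃ b : ℤ, T.obj₁.IsLE b) (hBb : ∃ a : ℤ, T.obj₃.IsGE a)
    (hAf : ∀ (n : ℤ) (U : X.Opens), IsAffineOpen U →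
      Module.Finite Γ(X, U) Γ(hh n T.obj₁, U))
    (hBq : ∀ n : ℤ, QC (hh n T.obj₃))
    (hfin : (supp T.obj₁ ∪ supp T.obj₃).Finite)
    (hclos : ∀ y ∈ supp T.obj₁ ∪ supp T.obj₃, IsClosed ({y} : Set X))
    (hHom : ∀ i : ℤ, i ≤ 0 → ∀ f : T.obj₁ ⟶ T.obj₃⟦i⟧, f = 0) :
    IsZero T.obj₁ ∨ IsZero T.obj₃ := by
  by_contra hcon
  rw [not_or] at hcon
  obtain ⟨hA0, hB0⟩ := hcon
  have hS : IsClosed ((supp T.obj₁ ∪ supp T.obj₃) \ {x}) := by
    have h1 : ((supp T.obj₁ ∪ supp T.obj₃) \ {x}) =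
        ⋃ y ∈ ((supp T.obj₁ ∪ supp T.obj₃) \ {x}), {y} := by
      rw [Set.biUnion_of_singleton]
    rw [h1]
    exact (hfin.subset Set.sdiff_subset).isClosed_biUnion fun y hy => hclos y hy.1
  have hxS : x ∉ ((supp T.obj₁ ∪ supp T.obj₃) \ {x}) := fun h => h.2 rfl
  have hsub : supp T.obj₁ ∪ supp T.obj₃ ⊆ {x} ∪ ((supp T.obj₁ ∪ supp T.obj₃) \ {x}) := by
    intro y hy
    by_cases hyx : y = x
    · exact Or.inl hyx
    · exact Or.inr ⟨hy, hyx⟩
  have hsA := supp_left_subset hcl T hT e hS hxS (Set.subset_union_left.trans hsub)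
    (hHom (-1) (by lia))
  have hsB := supp_right_subset hcl T hT e hS hxS (Set.subset_union_right.trans hsub)
    (hHom (-1) (by lia))
  obtain ⟨p, hp, hpA⟩ := exists_top hAb hA0
  obtain ⟨q, hq, hqB⟩ := exists_bottom hBb hB0
  have hMA : SuppPt (hh p T.obj₁) x := by
    intro y hyx
    by_contra hc
    exact hyx (hsA ⟨p, hc⟩)
  have hMB : SuppPt (hh q T.obj₃) x := by
    intro y hyx
    by_contra hc
    exact hyx (hsB ⟨q, hc⟩)
  obtain ⟨V, hV, hxV, -⟩ := exists_isAffineOpen_mem_and_subset (X := X) (x := x)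
    (U := ⊤) trivial
  obtain ⟨ga, hga⟩ := exists_epi_sky hcl hMA hpA hV hxV (hAf p V hV)
  obtain ⟨gb, hgb⟩ := exists_mono_sky hcl hMB hqB (hBq q) hV hxV
    (IsLocallyNoetherian.component_noetherian ⟨V, hV⟩)
  exact end_abs (not_isZero_sky x) T hT e p q ga gb hHom

end M21
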