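import Pool.Agent.H.MP_21b43d_ag.B.JShriek
import Pool.Agent.H.MP_21b43d_ag.B.DerNat
import Pool.Agent.H.MP_21b43d_ag.Coh

/-!
# M21: extension by zero on derived categories

`Dres j : DMod X ⥤ DMod W` (restriction), `Djs j : DMod W ⥤ DMod X` (extension by zero),
`DjsRes : Djs j ⋙ Dres j ≅ 𝟭`, `eD : Dres j ⋙ Djs j ⟶ 𝟭`.

* `isIso_eD` : `eD` is an isomorphism at complexes with cohomology supported in the image of `j`;
* `hom_zero_restrict` (B1)(i) : if `A`, `B` are supported in the image of `j` and `Hom(A, B) = 0` then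
  `Hom(A|W, B|W) = 0`;
* `exists_retraction` (B1)(ii) : if the cohomology of `A` is supported in the union of two opens and
  vanishes on their intersection, then `j_! j^* A ⟶ A` is a split monomorphism.
-/

open CategoryTheory CategoryTheory.Limits AlgebraicGeometry TopologicalSpace Opposite
open AlgebraicGeometry.Scheme (Modules)

noncomputable section

namespace M21

/-! ### restriction is exact -/

section Res

universe u

variable {X W : Scheme.{u}} (j : W ⟶ X) [IsOpenImmersion j]

instance : (Modules.restrictFunctor j).Additive where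
  map_add := rfl

theorem restrict_lift {N₁ N₂ N₃ : X.Modules} (f : N₁ ⟶ N₂) (g : N₂ ⟶ N₃)
    (h : ∀ (U : X.Opens) (s : Γ(N₂, U)), g.app U s = 0 → ∀ x ∈ U,
      ∃ (V : X.Opens) (hV : V ≤ U), x ∈ V ∧ ∃ t : Γ(N₁, V), f.app V t = res N₂ hV s)
    (U : W.Opens) (s : Γ((Modules.restrictFunctor j).obj N₂, U))
    (hs : ((Modules.restrictFunctor j).map g).app U s = 0)
    (x : W) (hx : x ∈ U) :
    ∃ (V : W.Opens) (hV : V ≤ U), x ∈ V ∧ ∃ t : Γ((Modules.restrictFunctor j).obj N₁, V),
      ((Modules.restrictFunctor j).map f).app V t = res _ hV s := by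
  obtain ⟨V, hV, hxV, t, ht⟩ := h (j ''ᵁ U) s hs (j x) ⟨x, hx, rfl⟩
  have h1 : j ⁻¹ᵁ V ≤ U := by
    intro w hw
    obtain ⟨w', hw', he⟩ := hV hw
    have : w' = w := j.isOpenEmbedding.injective he
    exact this ▸ hw'
  refine ⟨j ⁻¹ᵁ V, h1, hxV, (res N₁ (j.image_preimage_le V) t :), ?_⟩
  have h2 : f.app (j ''ᵁ (j ⁻¹ᵁ V)) (res N₁ (j.image_preimage_le V) t) =
      res N₂ (j.image_mono h1) s := by
    rw [app_res, ht]
    exact res_res (M := N₂) hV (j.image_preimage_le V) s
  exact h2

theorem restrict_exact (S : ShortComplex X.Modules) (hS : S.Exact) :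
    (S.map (Modules.restrictFunctor j)).Exact := by
  rw [exact_iff_lift] at hS ⊢
  exact restrict_lift j S.f S.g hS

theorem restrict_exact' :
    PreservesFiniteLimits (Modules.restrictFunctor j) ∧
      PreservesFiniteColimits (Modules.restrictFunctor j) := by
  have h : ∀ S : ShortComplex X.Modules, S.Exact → (S.map (Modules.restrictFunctor j)).Exact :=
    restrict_exact j
  exact ((Modules.restrictFunctor j).exact_tfae.out 1 3).mp h

instance : PreservesFiniteLimits (Modules.restrictFunctor j) := (restrict_exact' j).1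

instance : PreservesFiniteColimits (Modules.restrictFunctor j) := (restrict_exact' j).2

end Res

variable {X W : Scheme.{0}} (j : W ⟶ X) [IsOpenImmersion j]

/-- Restriction of complexes to the open subscheme. -/
def Dres : DMod X ⥤ DMod W := (Modules.restrictFunctor j).mapDerivedCategory

/-- Extension by zero of complexes. -/
def Djs : DMod W ⥤ DMod X := (jShriek j).mapDerivedCategory

instance : (Dres j).CommShift ℤ :=
  inferInstanceAs ((Modules.restrictFunctor j).mapDerivedCategory.CommShift ℤ)

instance : (Dres j).IsTriangulated :=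
  inferInstanceAs ((Modules.restrictFunctor j).mapDerivedCategory.IsTriangulated)

instance : (Djs j).CommShift ℤ := inferInstanceAs ((jShriek j).mapDerivedCategory.CommShift ℤ)

instance : (Djs j).IsTriangulated := inferInstanceAs ((jShriek j).mapDerivedCategory.IsTriangulated)

/-- `j^* j_! ≅ id` on derived categories. -/
def DjsRes : Djs j ⋙ Dres j ≅ 𝟭 (DMod W) :=
  (derComp (jShriek j) (Modules.restrictFunctor j)).symm ≪≫ derIso (jShriekRestrict j) ≪≫
    derId W.Modules

/-- Extension by zero `j_! j^* A ⟶ A`. -/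
def eD : Dres j ⋙ Djs j ⟶ 𝟭 (DMod X) :=
  (derComp (Modules.restrictFunctor j) (jShriek j)).inv ≫ derNat (extE j) ≫ (derId X.Modules).hom

theorem isIso_eD (A : DMod X)
    (h : ∀ n : ℤ, SuppIn j ((DerivedCategory.homologyFunctor X.Modules n).obj A)) :
    IsIso ((eD j).app A) := by
  have h1 : IsIso ((derNat (extE j)).app A) :=
    isIso_derNat_app (extE j) A fun n => isIso_extHom j (h n)
  have h2 : (eD j).app A = (derComp (Modules.restrictFunctor j) (jShriek j)).inv.app A ≫
      (derNat (extE j)).app A ≫ (derId X.Modules).hom.app A := rfl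
  have h3 : IsIso ((derComp (Modules.restrictFunctor j) (jShriek j)).inv.app A ≫
      (derNat (extE j)).app A ≫ (derId X.Modules).hom.app A) := inferInstance
  rw [h2]
  exact h3

theorem Djs_faithful {A B : DMod W} {f g : A ⟶ B} (h : (Djs j).map f = (Djs j).map g) : f = g := by
  have h1 : (Djs j ⋙ Dres j).map f = (Djs j ⋙ Dres j).map g := congrArg (Dres j).map h
  have h2 := (DjsRes j).hom.naturality f
  have h3 := (DjsRes j).hom.naturality g
  rw [h1, h3] at h2
  have h4 : (𝟭 (DMod W)).map g = (𝟭 (DMod W)).map f := (cancel_epi _).mp h2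
  exact h4.symm

/-- (B1)(i). -/
theorem hom_zero_restrict {A B : DMod X}
    (hA : ∀ n : ℤ, SuppIn j ((DerivedCategory.homologyFunctor X.Modules n).obj A))
    (hB : ∀ n : ℤ, SuppIn j ((DerivedCategory.homologyFunctor X.Modules n).obj B))
    (h : ∀ f : A ⟶ B, f = 0) (g : (Dres j).obj A ⟶ (Dres j).obj B) : g = 0 := by
  have hiA := isIso_eD j A hA
  have hiB := isIso_eD j B hB
  refine Djs_faithful j ?_
  have h1 : inv ((eD j).app A) ≫ (Djs j).map g ≫ (eD j).app B = 0 := h _
  have h2 : (Djs j).map g ≫ (eD j).app B = 0 := by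
    have h3 := congrArg (fun t => (eD j).app A ≫ t) h1
    simpa using h3
  have h4 := congrArg (fun t => t ≫ inv ((eD j).app B)) h2
  rw [Functor.map_zero]
  simpa using h4

end M21
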