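import Pool.Agent.H.MP_21b43d_ag.Base
import Pool.Agent.H.MP_21b43d_ag.B.JDer

/-!
# M21: calculus of zero stalks (`ZeroAt`) and of the support (`supp`)
-/

open CategoryTheory CategoryTheory.Limits CategoryTheory.Pretriangulated AlgebraicGeometry
  TopologicalSpace Opposite
open AlgebraicGeometry.Scheme (Modules)

noncomputable section

namespace M21

variable {X W : Scheme.{0}} {M N : X.Modules}

/-! ### zero stalks -/

/-- zero stalks for a module embedded locally: if the map is injective on sections -/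
theorem ZeroAt.of_injective (f : M ⟶ N) (hf : ∀ U : X.Opens, Function.Injective (f.app U)) {x : X}
    (h : ZeroAt N x) : ZeroAt M x := by
  intro U hx s
  obtain ⟨V, hV, hxV, h1⟩ := h U hx (f.app U s)
  refine ⟨V, hV, hxV, hf V ?_⟩
  rw [app_res, h1, app_zero]

theorem ZeroAt.of_mono (f : M ⟶ N) [Mono f] {x : X} (h : ZeroAt N x) : ZeroAt M x :=
  ZeroAt.of_injective f (injective_of_mono f) h

theorem ZeroAt.of_epi (f : M ⟶ N) [Epi f] {x : X} (h : ZeroAt M x) : ZeroAt N x := by
  intro U hx s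
  obtain ⟨V, hV, hxV, t, ht⟩ := locSurj_of_epi f U s x hx
  obtain ⟨V', hV', hxV', h1⟩ := h V hxV t
  refine ⟨V', hV'.trans hV, hxV', ?_⟩
  rw [← res_res hV hV', ← ht, ← app_res, h1, app_zero]

theorem ZeroAt.of_iso (e : M ≅ N) {x : X} (h : ZeroAt M x) : ZeroAt N x := ZeroAt.of_epi e.hom h

theorem zeroAt_iso (e : M ≅ N) {x : X} : ZeroAt M x ↔ ZeroAt N x :=
  ⟨ZeroAt.of_iso e, ZeroAt.of_iso e.symm⟩

theorem ZeroAt.of_exact {S : ShortComplex X.Modules} (hS : S.Exact) {x : X}
    (h1 : ZeroAt S.X₁ x) (h3 : ZeroAt S.X₃ x) : ZeroAt S.X₂ x := by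
  intro U hx s
  obtain ⟨V, hV, hxV, e1⟩ := h3 U hx (S.g.app U s)
  have e2 : S.g.app V (res S.X₂ hV s) = 0 := by rw [app_res, e1]
  obtain ⟨V', hV', hxV', t, ht⟩ := (exact_iff_lift S).mp hS V (res S.X₂ hV s) e2 x hxV
  obtain ⟨V'', hV'', hxV'', h4⟩ := h1 V' hxV' t
  refine ⟨V'', hV''.trans (hV'.trans hV), hxV'', ?_⟩
  have h5 : res S.X₂ hV'' (res S.X₂ hV' (res S.X₂ hV s)) = 0 := by
    rw [← ht, ← app_res, h4, app_zero]
  rw [res_res, res_res] at h5
  exact h5

theorem ZeroAt.of_isZero (h : IsZero M) (x : X) : ZeroAt M x := by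
  intro U hx s
  refine ⟨U, le_rfl, hx, ?_⟩
  have h1 : (𝟙 M : M ⟶ M) = 0 := h.eq_of_src _ _
  have h2 : s = (𝟙 M : M ⟶ M).app U s := rfl
  rw [res_self, h2, h1]
  rfl

theorem isZero_of_zeroAt (h : ∀ x, ZeroAt M x) : IsZero M := by
  rw [IsZero.iff_id_eq_zero]
  refine hom_ext_app fun U s => ?_
  have h1 : s = 0 := by
    refine sec_ext M fun x hx => ?_
    obtain ⟨V, hV, hxV, h1⟩ := h x U hx s
    exact ⟨V, hV, hxV, by rw [h1, res_zero]⟩
  rw [h1, app_zero, app_zero]

theorem isZero_iff_zeroAt : IsZero M ↔ ∀ x, ZeroAt M x :=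
  ⟨fun h x => ZeroAt.of_isZero h x, isZero_of_zeroAt⟩

section restrict

variable (j : W ⟶ X) [IsOpenImmersion j]

theorem zeroAt_restrict (M : X.Modules) (w : W) :
    ZeroAt ((Modules.restrictFunctor j).obj M) w ↔ ZeroAt M (j w) := by
  constructor
  · intro h U hx s
    obtain ⟨V, hV, hwV, h1⟩ := h (j ⁻¹ᵁ U) hx (res M (j.image_preimage_le U) s)
    refine ⟨j ''ᵁ V, (j.image_mono hV).trans (j.image_preimage_le U), ⟨w, hwV, rfl⟩, ?_⟩
    have h2 : res M (j.image_mono hV) (res M (j.image_preimage_le U) s) = 0 := h1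
    rw [res_res] at h2
    exact h2
  · intro h U hw s
    obtain ⟨V, hV, hxV, h1⟩ := h (j ''ᵁ U) ⟨w, hw, rfl⟩ s
    have h2 : j ⁻¹ᵁ V ≤ U := by
      intro w' hw'
      obtain ⟨w'', hw'', he⟩ := hV hw'
      have : w'' = w' := j.isOpenEmbedding.injective he
      exact this ▸ hw''
    refine ⟨j ⁻¹ᵁ V, h2, hxV, ?_⟩
    have h3 : res M (j.image_preimage_le V) (res M hV s) = 0 :=
      (congrArg (res M (j.image_preimage_le V)) h1).trans (res_zero _)
    exact (res_res (M := M) hV (j.image_preimage_le V) s).symm.trans h3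

theorem zeroAt_jShriek_of_not_mem (N : W.Modules) {x : X} (hx : x ∉ j.opensRange) :
    ZeroAt ((jShriek j).obj N) x := fun U hxU s => suppIn_jShriek j N U s x hxU hx

theorem zeroAt_jShriek (N : W.Modules) (w : W) :
    ZeroAt ((jShriek j).obj N) (j w) ↔ ZeroAt N w := by
  rw [← zeroAt_restrict]
  exact zeroAt_iso ((jShriekRestrict j).app N)

theorem suppIn_iff (M : X.Modules) : SuppIn j M ↔ ∀ x : X, x ∉ j.opensRange → ZeroAt M x :=
  ⟨fun h x hx U hxU s => h U s x hxU hx, fun h U s x hxU hx => h x hx U hxU s⟩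

end restrict

/-! ### the support -/

theorem not_mem_supp {A : DMod X} {x : X} : x ∉ supp A ↔ ∀ n : ℤ, ZeroAt (hh n A) x := by
  simp only [supp, Set.mem_ofPred_eq, not_exists, not_not]

theorem supp_iso {A B : DMod X} (e : A ≅ B) : supp A = supp B := by
  ext x
  rw [← not_iff_not, not_mem_supp, not_mem_supp]
  exact forall_congr' fun n => zeroAt_iso ((DerivedCategory.homologyFunctor X.Modules n).mapIso e)

/-- `H^i(A[n]) = H^{i+n}(A)`. -/
def hhShift (A : DMod X) (n i i' : ℤ) (h : n + i = i') : hh i (A⟦n⟧) ≅ hh i' A :=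
  ((DerivedCategory.homologyFunctor X.Modules 0).shiftIso n i i' h).app A

theorem supp_shift (A : DMod X) (n : ℤ) : supp (A⟦n⟧) = supp A := by
  ext x
  rw [← not_iff_not, not_mem_supp, not_mem_supp]
  constructor
  · intro h i
    exact (zeroAt_iso (hhShift A n (i - n) i (by lia))).mp (h _)
  · intro h i
    exact (zeroAt_iso (hhShift A n i (n + i) rfl)).mpr (h _)

theorem supp_triangle₂ {T : Triangle (DMod X)} (hT : T ∈ distTriang (DMod X)) :
    supp T.obj₂ ⊆ supp T.obj₁ ∪ supp T.obj₃ := by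
  intro x hx
  by_contra hx'
  rw [Set.mem_union, not_or, not_mem_supp, not_mem_supp] at hx'
  refine not_mem_supp.mpr (fun n => ?_) hx
  exact ZeroAt.of_exact (DerivedCategory.HomologySequence.exact₂ T hT n) (hx'.1 n) (hx'.2 n)

theorem supp_triangle₁ {T : Triangle (DMod X)} (hT : T ∈ distTriang (DMod X)) :
    supp T.obj₁ ⊆ supp T.obj₂ ∪ supp T.obj₃ := by
  intro x hx
  by_contra hx'
  rw [Set.mem_union, not_or, not_mem_supp, not_mem_supp] at hx'
  refine not_mem_supp.mpr (fun n => ?_) hx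
  exact ZeroAt.of_exact
    (DerivedCategory.HomologySequence.exact₁ T hT (n - 1) n (by lia)) (hx'.2 (n - 1)) (hx'.1 n)

theorem supp_triangle₃ {T : Triangle (DMod X)} (hT : T ∈ distTriang (DMod X)) :
    supp T.obj₃ ⊆ supp T.obj₁ ∪ supp T.obj₂ := by
  intro x hx
  by_contra hx'
  rw [Set.mem_union, not_or, not_mem_supp, not_mem_supp] at hx'
  refine not_mem_supp.mpr (fun n => ?_) hx
  exact ZeroAt.of_exact
    (DerivedCategory.HomologySequence.exact₃ T hT n (n + 1) rfl) (hx'.2 n) (hx'.1 (n + 1))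

/-- An object without cohomology is zero. -/
theorem isZero_of_hh {A : DMod X} (h : ∀ n : ℤ, IsZero (hh n A)) : IsZero A := by
  have h1 : IsIso (0 : A ⟶ A) := by
    rw [DerivedCategory.isIso_iff]
    intro n
    rw [isIso_iff_mono_and_epi]
    exact ⟨⟨fun _ _ _ => (h n).eq_of_tgt _ _⟩, ⟨fun _ _ _ => (h n).eq_of_src _ _⟩⟩
  rw [IsZero.iff_id_eq_zero]
  have h2 : (0 : A ⟶ A) ≫ inv (0 : A ⟶ A) = 𝟙 A := IsIso.hom_inv_id _
  rw [zero_comp] at h2
  exact h2.symm

theorem isZero_iff_hh {A : DMod X} : IsZero A ↔ ∀ n : ℤ, IsZero (hh n A) :=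
  ⟨fun h _ => Functor.map_isZero _ h, isZero_of_hh⟩

theorem supp_eq_empty_iff {A : DMod X} : supp A = ∅ ↔ IsZero A := by
  rw [Set.eq_empty_iff_forall_notMem, isZero_iff_hh]
  constructor
  · intro h n
    exact isZero_of_zeroAt fun x => not_mem_supp.mp (h x) n
  · intro h x
    exact not_mem_supp.mpr fun n => ZeroAt.of_isZero (h n) x

theorem supp_isZero {A : DMod X} (h : IsZero A) : supp A = ∅ := supp_eq_empty_iff.mpr h

/-- The support of a retract. -/
theorem supp_retract {A B : DMod X} (i : A ⟶ B) (r : B ⟶ A) (h : i ≫ r = 𝟙 A) :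
    supp A ⊆ supp B := by
  intro x hx
  by_contra hx'
  rw [not_mem_supp] at hx'
  refine not_mem_supp.mpr (fun n => ?_) hx
  have h1 : (DerivedCategory.homologyFunctor X.Modules n).map i ≫
      (DerivedCategory.homologyFunctor X.Modules n).map r = 𝟙 _ := by
    rw [← Functor.map_comp, h, CategoryTheory.Functor.map_id]
  have h2 : Mono ((DerivedCategory.homologyFunctor X.Modules n).map i) :=
    mono_of_mono_fac h1
  exact ZeroAt.of_mono ((DerivedCategory.homologyFunctor X.Modules n).map i) (hx' n)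

theorem supp_single (M : X.Modules) (n : ℤ) :
    supp ((DerivedCategory.singleFunctor X.Modules n).obj M) = {x | ¬ ZeroAt M x} := by
  ext x
  rw [Set.mem_ofPred_eq, ← not_iff_not, not_mem_supp, not_not]
  have e : hh n ((DerivedCategory.singleFunctor X.Modules n).obj M) ≅ M :=
    (DerivedCategory.homologyFunctor X.Modules n).mapIso
      ((DerivedCategory.singleFunctorIsoCompQ X.Modules n).app M) ≪≫
      (DerivedCategory.homologyFunctorFactors X.Modules n).app _ ≪≫
      (HomologicalComplex.homologyFunctorSingleIso X.Modules (ComplexShape.up ℤ) n).app M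
  constructor
  · intro h
    exact (zeroAt_iso e).mp (h n)
  · intro h m
    rcases lt_trichotomy m n with hm | rfl | hm
    · exact ZeroAt.of_isZero (DerivedCategory.isZero_of_isGE _ n m hm) x
    · exact (zeroAt_iso e).mpr h
    · exact ZeroAt.of_isZero (DerivedCategory.isZero_of_isLE _ n m hm) x

section restrict

variable (j : W ⟶ X) [IsOpenImmersion j]

/-- `H^n(A|W) = H^n(A)|W`. -/
def hhRes (A : DMod X) (n : ℤ) :
    hh n ((Dres j).obj A) ≅ (Modules.restrictFunctor j).obj (hh n A) :=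
  (derHomology (Modules.restrictFunctor j) n).app A

/-- `H^n(j_! A) = j_! H^n(A)`. -/
def hhJs (A : DMod W) (n : ℤ) : hh n ((Djs j).obj A) ≅ (jShriek j).obj (hh n A) :=
  (derHomology (jShriek j) n).app A

theorem mem_supp_Dres (A : DMod X) (w : W) : w ∈ supp ((Dres j).obj A) ↔ j w ∈ supp A := by
  rw [← not_iff_not, not_mem_supp, not_mem_supp]
  exact forall_congr' fun n => (zeroAt_iso (hhRes j A n)).trans (zeroAt_restrict j _ w)

theorem supp_Dres (A : DMod X) : supp ((Dres j).obj A) = j ⁻¹' supp A := by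
  ext w
  exact mem_supp_Dres j A w

theorem mem_supp_Djs (A : DMod W) (w : W) : j w ∈ supp ((Djs j).obj A) ↔ w ∈ supp A := by
  rw [← not_iff_not, not_mem_supp, not_mem_supp]
  exact forall_congr' fun n => (zeroAt_iso (hhJs j A n)).trans (zeroAt_jShriek j _ w)

theorem supp_Djs_subset (A : DMod W) : supp ((Djs j).obj A) ⊆ (j.opensRange : Set X) := by
  intro x hx
  by_contra hx'
  exact not_mem_supp.mpr (fun n => (zeroAt_iso (hhJs j A n)).mpr
    (zeroAt_jShriek_of_not_mem j _ hx')) hx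

theorem supp_Djs (A : DMod W) : supp ((Djs j).obj A) = j '' supp A := by
  ext x
  constructor
  · intro hx
    obtain ⟨w, rfl⟩ := supp_Djs_subset j A hx
    exact ⟨w, (mem_supp_Djs j A w).mp hx, rfl⟩
  · rintro ⟨w, hw, rfl⟩
    exact (mem_supp_Djs j A w).mpr hw

theorem isZero_Dres_iff (A : DMod X) :
    IsZero ((Dres j).obj A) ↔ Disjoint (supp A) (j.opensRange : Set X) := by
  rw [← supp_eq_empty_iff, supp_Dres, Set.disjoint_left, Set.eq_empty_iff_forall_notMem]
  constructor
  · rintro h _ hx ⟨w, rfl⟩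
    exact h w hx
  · intro h w hw
    exact h hw ⟨w, rfl⟩

theorem isIso_eD_of_supp {A : DMod X} (h : supp A ⊆ (j.opensRange : Set X)) :
    IsIso ((eD j).app A) :=
  isIso_eD j A fun n => (suppIn_iff j _).mpr fun x hx => by
    by_contra hx'
    exact hx (h ⟨n, hx'⟩)

end restrict

end M21
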