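import Mathlib

/-!
# M21 (MP_21b43d): alternating sums and additivity of Euler forms on triangles
-/

open CategoryTheory CategoryTheory.Limits CategoryTheory.Pretriangulated

noncomputable section

universe v u w

namespace M21

/-- The alternating sum of a family of natural numbers (with finite support). -/
def altSum (a : ℤ → ℕ) : ℤ := ∑ᶠ i : ℤ, (i.negOnePow : ℤ) * (a i : ℤ)

theorem altSum_congr {a b : ℤ → ℕ} (h : ∀ i, a i = b i) : altSum a = altSum b := by
  rw [funext h]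

theorem altSum_shift (a : ℤ → ℕ) (n : ℤ) :
    altSum (fun i => a (i + n)) = (n.negOnePow : ℤ) * altSum a := by
  unfold altSum
  have h := finsum_comp_equiv (Equiv.addRight n) (f := fun i : ℤ =>
    ((i - n).negOnePow : ℤ) * (a i : ℤ))
  have h1 : (∑ᶠ i : ℤ, (i.negOnePow : ℤ) * (a (i + n) : ℤ)) =
      ∑ᶠ i : ℤ, ((i - n).negOnePow : ℤ) * (a i : ℤ) := by
    rw [← h]
    refine finsum_congr fun i => ?_
    simp
  rw [h1, mul_finsum]
  refine finsum_congr fun i => ?_
  rw [← mul_assoc, Int.negOnePow_sub, mul_comm i.negOnePow]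
  push_cast
  rfl

theorem hasFiniteSupport_alt {a : ℤ → ℕ} (ha : a.support.Finite) :
    (Function.support fun i : ℤ => (i.negOnePow : ℤ) * (a i : ℤ)).Finite := by
  refine ha.subset fun i hi => ?_
  rw [Function.mem_support] at hi ⊢
  intro h0
  apply hi
  rw [h0]
  simp

theorem altSum_add {a b : ℤ → ℕ} (ha : a.support.Finite) (hb : b.support.Finite) :
    altSum (fun i => a i + b i) = altSum a + altSum b := by
  unfold altSum
  rw [← finsum_add_distrib (hasFiniteSupport_alt ha) (hasFiniteSupport_alt hb)]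
  refine finsum_congr fun i => ?_
  push_cast
  ring

theorem support_finite_of_le {a b : ℤ → ℕ} (h : ∀ i, a i ≤ b i) (hb : b.support.Finite) :
    a.support.Finite := by
  refine hb.subset fun i hi => ?_
  rw [Function.mem_support] at hi ⊢
  have := h i
  omega

theorem support_finite_add {a b : ℤ → ℕ} (ha : a.support.Finite) (hb : b.support.Finite) :
    (fun i => a i + b i).support.Finite := by
  refine (ha.union hb).subset fun i hi => ?_
  rw [Function.mem_support] at hi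
  rw [Set.mem_union, Function.mem_support, Function.mem_support]
  omega

theorem support_finite_shift {a : ℤ → ℕ} (ha : a.support.Finite) (n : ℤ) :
    (fun i => a (i + n)).support.Finite := by
  have h : (fun i => a (i + n)).support = (fun i => i + n) ⁻¹' a.support := rfl
  rw [h]
  exact ha.preimage (add_left_injective n).injOn

/-- The dimensions in a long exact sequence `a_i → b_i → c_i → a_{i+1}` (`t_i` is the rank of the
connecting map `c_i → a_{i+1}`). -/
structure LES (a b c t : ℤ → ℕ) : Prop where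
  eq : ∀ i, b i + t i + t (i - 1) = a i + c i
  le₁ : ∀ i, t (i - 1) ≤ a i
  le₂ : ∀ i, t i ≤ c i

variable {a b c t : ℤ → ℕ}

theorem LES.le₁' (h : LES a b c t) (i : ℤ) : t i ≤ a (i + 1) := by
  simpa using h.le₁ (i + 1)

theorem LES.fin₂ (h : LES a b c t) (ha : a.support.Finite) (hc : c.support.Finite) :
    b.support.Finite :=
  support_finite_of_le (fun i => by have := h.eq i; omega) (support_finite_add ha hc)

theorem LES.fin₃ (h : LES a b c t) (ha : a.support.Finite) (hb : b.support.Finite) :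
    c.support.Finite := by
  refine support_finite_of_le (b := fun i => b i + a (i + 1) ) (fun i => ?_)
    (support_finite_add hb (support_finite_shift ha 1))
  have h1 := h.eq i
  have h2 := h.le₁' i
  have h3 := h.le₁ i
  omega

theorem LES.fin₁ (h : LES a b c t) (hb : b.support.Finite) (hc : c.support.Finite) :
    a.support.Finite := by
  refine support_finite_of_le (b := fun i => b i + c (i + (-1))) (fun i => ?_)
    (support_finite_add hb (support_finite_shift hc (-1)))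
  have h1 := h.eq i
  have h2 := h.le₂ i
  have h3 := h.le₂ (i - 1)
  have h4 : i + (-1) = i - 1 := rfl
  rw [h4]
  omega

theorem LES.altSum_eq (h : LES a b c t) (ha : a.support.Finite) (hc : c.support.Finite) :
    altSum b = altSum a + altSum c := by
  have hb := h.fin₂ ha hc
  have ht : t.support.Finite := support_finite_of_le h.le₂ hc
  have ht' : (fun i => t (i - 1)).support.Finite := support_finite_shift ht (-1)
  rw [← altSum_add ha hc]
  have h1 : altSum (fun i => a i + c i) = altSum (fun i => b i + (t i + t (i - 1))) :=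
    altSum_congr fun i => by have := h.eq i; omega
  rw [h1, altSum_add hb (support_finite_add ht ht'), altSum_add ht ht']
  have h2 := altSum_shift t (-1)
  have h3 : altSum (fun i => t (i - 1)) = - altSum t := by
    rw [show (fun i => t (i - 1)) = fun i => t (i + (-1)) from rfl, h2]
    simp
  rw [h3]
  ring

/-! ## Euler forms -/

section euler

variable (F : Type w) [Field F] {D : Type u} [Category.{v} D] [Preadditive D] [Linear F D]
  [HasZeroObject D] [HasShift D ℤ] [∀ n : ℤ, (shiftFunctor D n).Additive]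
  [∀ n : ℤ, (shiftFunctor D n).Linear F] [Pretriangulated D]

/-- The connecting map of the long exact sequence of `Hom(-, K)`. -/
def homδ (T : Triangle D) (K : D) (n₀ n₁ : ℤ) (h : n₀ + 1 = n₁) :
    (T.obj₁ ⟶ K⟦n₀⟧) →ₗ[F] (T.obj₃ ⟶ K⟦n₁⟧) :=
  (Linear.leftComp F (K⟦n₁⟧) T.mor₃) ∘ₗ
    (Linear.rightComp F (T.obj₁⟦(1 : ℤ)⟧) ((shiftFunctorAdd' D n₀ 1 n₁ h).inv.app K)) ∘ₗ
    ((shiftFunctor D (1 : ℤ)).mapLinearMap F)

variable {F}

theorem homδ_apply (T : Triangle D) (K : D) (n₀ n₁ : ℤ) (h : n₀ + 1 = n₁)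
    (x : T.obj₁ ⟶ K⟦n₀⟧) :
    homδ F T K n₀ n₁ h x = T.mor₃ ≫ x⟦(1 : ℤ)⟧' ≫ (shiftFunctorAdd' D n₀ 1 n₁ h).inv.app K :=
  rfl

theorem range_homδ (T : Triangle D) (hT : T ∈ distTriang D) (K : D) (n₀ n₁ : ℤ)
    (h : n₀ + 1 = n₁) :
    LinearMap.range (homδ F T K n₀ n₁ h) =
      LinearMap.ker (Linear.leftComp F (K⟦n₁⟧) T.mor₂) := by
  ext φ
  rw [LinearMap.mem_range, LinearMap.mem_ker]
  constructor
  · rintro ⟨x, rfl⟩
    rw [homδ_apply, Linear.leftComp_apply, ← Category.assoc,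
      comp_distTriang_mor_zero₂₃ _ hT, zero_comp]
  · intro hφ
    obtain ⟨g, hg⟩ := T.yoneda_exact₃ hT φ hφ
    obtain ⟨x, hx⟩ := (shiftFunctor D (1 : ℤ)).map_surjective
      (g ≫ (shiftFunctorAdd' D n₀ 1 n₁ h).hom.app K)
    refine ⟨x, ?_⟩
    rw [homδ_apply, hx, hg, Category.assoc, Iso.hom_inv_id_app, Category.comp_id]

theorem range_leftComp₂ (T : Triangle D) (hT : T ∈ distTriang D) (K : D) :
    LinearMap.range (Linear.leftComp F K T.mor₂) =
      LinearMap.ker (Linear.leftComp F K T.mor₁) := by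
  ext φ
  rw [LinearMap.mem_range, LinearMap.mem_ker]
  constructor
  · rintro ⟨x, rfl⟩
    rw [Linear.leftComp_apply, Linear.leftComp_apply, ← Category.assoc,
      comp_distTriang_mor_zero₁₂ _ hT, zero_comp]
  · intro hφ
    obtain ⟨g, hg⟩ := T.yoneda_exact₂ hT φ hφ
    exact ⟨g, hg.symm⟩

theorem range_leftComp₁ (T : Triangle D) (hT : T ∈ distTriang D) (K : D) (n₀ n₁ : ℤ)
    (h : n₀ + 1 = n₁) :
    LinearMap.range (Linear.leftComp F (K⟦n₀⟧) T.mor₁) =
      LinearMap.ker (homδ F T K n₀ n₁ h) := by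
  ext φ
  rw [LinearMap.mem_range, LinearMap.mem_ker]
  constructor
  · rintro ⟨x, rfl⟩
    rw [homδ_apply, Linear.leftComp_apply, Functor.map_comp, Category.assoc,
      ← Category.assoc, comp_distTriang_mor_zero₃₁ _ hT, zero_comp]
  · intro hφ
    rw [homδ_apply] at hφ
    have h1 : T.mor₃ ≫ φ⟦(1 : ℤ)⟧' = 0 := by
      rw [← Category.assoc] at hφ
      rw [← cancel_mono ((shiftFunctorAdd' D n₀ 1 n₁ h).inv.app K), hφ, zero_comp]
    obtain ⟨g, hg⟩ : ∃ g : T.obj₂⟦(1 : ℤ)⟧ ⟶ (K⟦n₀⟧)⟦(1 : ℤ)⟧,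
        φ⟦(1 : ℤ)⟧' = (-T.mor₁⟦(1 : ℤ)⟧') ≫ g :=
      T.rotate.yoneda_exact₃ (rot_of_distTriang _ hT) (φ⟦(1 : ℤ)⟧') h1
    obtain ⟨x, hx⟩ : ∃ x : T.obj₂ ⟶ K⟦n₀⟧, x⟦(1 : ℤ)⟧' = -g :=
      (shiftFunctor D (1 : ℤ)).map_surjective (-g)
    refine ⟨x, ?_⟩
    apply (shiftFunctor D (1 : ℤ)).map_injective
    have h4 : Linear.leftComp F (K⟦n₀⟧) T.mor₁ x = T.mor₁ ≫ x := rfl
    rw [h4, Functor.map_comp, hx, hg, Preadditive.comp_neg, Preadditive.neg_comp]

variable (F) in
/-- The hypothesis that all `Hom(A, K[i])` are finite dimensional and zero for almost all `i`. -/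
structure HomFin (A K : D) : Prop where
  fin : ∀ i : ℤ, FiniteDimensional F (A ⟶ K⟦i⟧)
  supp : (fun i : ℤ => Module.finrank F (A ⟶ K⟦i⟧)).support.Finite

variable (F) in
/-- The Euler form `∑ (-1)^i dim Hom(A, K[i])`. -/
def eulF (A K : D) : ℤ := altSum fun i : ℤ => Module.finrank F (A ⟶ K⟦i⟧)

theorem finite_mid {V₁ V₂ V₃ : Type*} [AddCommGroup V₁] [AddCommGroup V₂] [AddCommGroup V₃]
    [Module F V₁] [Module F V₂] [Module F V₃] (f : V₁ →ₗ[F] V₂) (g : V₂ →ₗ[F] V₃)
    (h : LinearMap.range f = LinearMap.ker g) [FiniteDimensional F V₁] [FiniteDimensional F V₃] :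
    FiniteDimensional F V₂ := by
  have h1 : FiniteDimensional F (LinearMap.ker g) := by rw [← h]; infer_instance
  have h2 : FiniteDimensional F (V₂ ⧸ LinearMap.ker g) :=
    Module.Finite.equiv (LinearMap.quotKerEquivRange g).symm
  exact Module.Finite.of_submodule_quotient (LinearMap.ker g)

theorem hom_fin₂ (T : Triangle D) (hT : T ∈ distTriang D) (K : D)
    (h₁ : ∀ i : ℤ, FiniteDimensional F (T.obj₁ ⟶ K⟦i⟧))
    (h₃ : ∀ i : ℤ, FiniteDimensional F (T.obj₃ ⟶ K⟦i⟧)) (i : ℤ) :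
    FiniteDimensional F (T.obj₂ ⟶ K⟦i⟧) := by
  have := h₁ i
  have := h₃ i
  exact finite_mid _ _ (range_leftComp₂ T hT (K⟦i⟧))

theorem hom_fin₃ (T : Triangle D) (hT : T ∈ distTriang D) (K : D)
    (h₁ : ∀ i : ℤ, FiniteDimensional F (T.obj₁ ⟶ K⟦i⟧))
    (h₂ : ∀ i : ℤ, FiniteDimensional F (T.obj₂ ⟶ K⟦i⟧)) (i : ℤ) :
    FiniteDimensional F (T.obj₃ ⟶ K⟦i⟧) := by
  have := h₁ (i - 1)
  have := h₂ i
  exact finite_mid _ _ (range_homδ T hT K (i - 1) i (by omega))

theorem hom_fin₁ (T : Triangle D) (hT : T ∈ distTriang D) (K : D)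
    (h₂ : ∀ i : ℤ, FiniteDimensional F (T.obj₂ ⟶ K⟦i⟧))
    (h₃ : ∀ i : ℤ, FiniteDimensional F (T.obj₃ ⟶ K⟦i⟧)) (i : ℤ) :
    FiniteDimensional F (T.obj₁ ⟶ K⟦i⟧) := by
  have := h₂ i
  have := h₃ (i + 1)
  exact finite_mid _ _ (range_leftComp₁ T hT K i (i + 1) rfl)

/-- The long exact sequence of `Hom(-, K)`. -/
theorem hom_les (T : Triangle D) (hT : T ∈ distTriang D) (K : D)
    (h₁ : ∀ i : ℤ, FiniteDimensional F (T.obj₁ ⟶ K⟦i⟧))
    (h₂ : ∀ i : ℤ, FiniteDimensional F (T.obj₂ ⟶ K⟦i⟧))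
    (h₃ : ∀ i : ℤ, FiniteDimensional F (T.obj₃ ⟶ K⟦i⟧)) :
    LES (fun i : ℤ => Module.finrank F (T.obj₃ ⟶ K⟦i⟧))
      (fun i : ℤ => Module.finrank F (T.obj₂ ⟶ K⟦i⟧))
      (fun i : ℤ => Module.finrank F (T.obj₁ ⟶ K⟦i⟧))
      (fun i : ℤ => Module.finrank F (LinearMap.range (homδ F T K i (i + 1) rfl))) := by
  have e : ∀ i : ℤ, Module.finrank F (LinearMap.range (homδ F T K (i - 1) (i - 1 + 1) rfl)) =
      Module.finrank F (LinearMap.ker (Linear.leftComp F (K⟦i⟧) T.mor₂)) := by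
    intro i
    obtain ⟨j, rfl⟩ : ∃ j : ℤ, i = j + 1 := ⟨i - 1, by ring⟩
    have h5 : j + 1 - 1 = j := by ring
    rw [← range_homδ T hT K (j + 1 - 1) (j + 1) (by ring)]
    congr!
  refine ⟨fun i => ?_, fun i => ?_, fun i => ?_⟩
  · have := h₁ i
    have := h₂ i
    have := h₃ i
    have e1 := LinearMap.finrank_range_add_finrank_ker (homδ F T K i (i + 1) rfl)
    have e2 := LinearMap.finrank_range_add_finrank_ker (Linear.leftComp F (K⟦i⟧) T.mor₁)
    have e3 := LinearMap.finrank_range_add_finrank_ker (Linear.leftComp F (K⟦i⟧) T.mor₂)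
    rw [← range_leftComp₁ T hT K i (i + 1) rfl] at e1
    rw [← range_leftComp₂ T hT (K⟦i⟧)] at e2
    rw [← e i] at e3
    omega
  · have := h₃ i
    rw [e i]
    exact Submodule.finrank_le _
  · have := h₁ i
    exact LinearMap.finrank_range_le _

theorem HomFin.mid {T : Triangle D} (hT : T ∈ distTriang D) {K : D} (h₁ : HomFin F T.obj₁ K)
    (h₃ : HomFin F T.obj₃ K) : HomFin F T.obj₂ K :=
  have h := hom_fin₂ T hT K h₁.fin h₃.fin
  ⟨h, (hom_les T hT K h₁.fin h h₃.fin).fin₂ h₃.supp h₁.supp⟩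

theorem HomFin.right {T : Triangle D} (hT : T ∈ distTriang D) {K : D} (h₁ : HomFin F T.obj₁ K)
    (h₂ : HomFin F T.obj₂ K) : HomFin F T.obj₃ K :=
  have h := hom_fin₃ T hT K h₁.fin h₂.fin
  ⟨h, (hom_les T hT K h₁.fin h₂.fin h).fin₁ h₂.supp h₁.supp⟩

theorem HomFin.left {T : Triangle D} (hT : T ∈ distTriang D) {K : D} (h₂ : HomFin F T.obj₂ K)
    (h₃ : HomFin F T.obj₃ K) : HomFin F T.obj₁ K :=
  have h := hom_fin₁ T hT K h₂.fin h₃.fin
  ⟨h, (hom_les T hT K h h₂.fin h₃.fin).fin₃ h₃.supp h₂.supp⟩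

/-- The Euler form is additive in the first variable. -/
theorem eulF_add {T : Triangle D} (hT : T ∈ distTriang D) {K : D} (h₁ : HomFin F T.obj₁ K)
    (h₂ : HomFin F T.obj₂ K) (h₃ : HomFin F T.obj₃ K) :
    eulF F T.obj₂ K = eulF F T.obj₁ K + eulF F T.obj₃ K := by
  rw [add_comm]
  exact (hom_les T hT K h₁.fin h₂.fin h₃.fin).altSum_eq h₃.supp h₁.supp

/-- Invariance under isomorphisms. -/
theorem finrank_iso {A A' : D} (e : A ≅ A') (K : D) (i : ℤ) :
    Module.finrank F (A ⟶ K⟦i⟧) = Module.finrank F (A' ⟶ K⟦i⟧) :=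
  LinearEquiv.finrank_eq (Linear.homCongr F e (Iso.refl _))

theorem HomFin.of_iso {A A' K : D} (e : A ≅ A') (h : HomFin F A K) : HomFin F A' K := by
  refine ⟨fun i => ?_, ?_⟩
  · have := h.fin i
    exact Module.Finite.equiv (Linear.homCongr F e (Iso.refl (K⟦i⟧)))
  · have := h.supp
    simpa only [finrank_iso e] using this

theorem eulF_iso {A A' : D} (e : A ≅ A') (K : D) : eulF F A K = eulF F A' K :=
  altSum_congr fun i => finrank_iso e K i

end euler

end M21
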