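import Mathlib

/-!
# M21 (MP_21b43d): devissage of bounded objects of a derived category
-/

open CategoryTheory CategoryTheory.Limits CategoryTheory.Pretriangulated DerivedCategory

noncomputable section

universe v u w

namespace M21

variable {C : Type u} [Category.{v} C] [Abelian C] [HasDerivedCategory.{w} C]

theorem isIso_homology_mor₁ (T : Triangle (DerivedCategory C)) (hT : T ∈ distTriang _) (n : ℤ)
    (h₁ : IsZero ((homologyFunctor C (n - 1)).obj T.obj₃))
    (h₂ : IsZero ((homologyFunctor C n).obj T.obj₃)) :
    IsIso ((homologyFunctor C n).map T.mor₁) := by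
  have hm : Mono ((homologyFunctor C n).map T.mor₁) :=
    (HomologySequence.mono_homologyMap_mor₁_iff T hT (n - 1) n (by omega)).2
      (h₁.eq_of_src _ _)
  have he : Epi ((homologyFunctor C n).map T.mor₁) :=
    (HomologySequence.epi_homologyMap_mor₁_iff T hT n).2 (h₂.eq_of_tgt _ _)
  exact isIso_of_mono_of_epi _

theorem isIso_homology_mor₂ (T : Triangle (DerivedCategory C)) (hT : T ∈ distTriang _) (n : ℤ)
    (h₁ : IsZero ((homologyFunctor C n).obj T.obj₁))
    (h₂ : IsZero ((homologyFunctor C (n + 1)).obj T.obj₁)) :
    IsIso ((homologyFunctor C n).map T.mor₂) := by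
  have hm : Mono ((homologyFunctor C n).map T.mor₂) :=
    (HomologySequence.mono_homologyMap_mor₂_iff T hT n).2 (h₁.eq_of_src _ _)
  have he : Epi ((homologyFunctor C n).map T.mor₂) :=
    (HomologySequence.epi_homologyMap_mor₂_iff T hT n (n + 1) rfl).2 (h₂.eq_of_tgt _ _)
  exact isIso_of_mono_of_epi _

theorem isZero_homology₃ (T : Triangle (DerivedCategory C)) (hT : T ∈ distTriang _) (n : ℤ)
    (h₁ : IsZero ((homologyFunctor C n).obj T.obj₂))
    (h₂ : IsZero ((homologyFunctor C (n + 1)).obj T.obj₁)) :
    IsZero ((homologyFunctor C n).obj T.obj₃) :=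
  (HomologySequence.exact₃ T hT n (n + 1) rfl).isZero_of_both_zeros
    (h₁.eq_of_src _ _) (h₂.eq_of_tgt _ _)

theorem isZero_homology₁ (T : Triangle (DerivedCategory C)) (hT : T ∈ distTriang _) (n : ℤ)
    (h₁ : IsZero ((homologyFunctor C (n - 1)).obj T.obj₃))
    (h₂ : IsZero ((homologyFunctor C n).obj T.obj₂)) :
    IsZero ((homologyFunctor C n).obj T.obj₁) :=
  (HomologySequence.exact₁ T hT (n - 1) n (by omega)).isZero_of_both_zeros
    (h₁.eq_of_src _ _) (h₂.eq_of_tgt _ _)

theorem isZero_homology₂ (T : Triangle (DerivedCategory C)) (hT : T ∈ distTriang _) (n : ℤ)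
    (h₁ : IsZero ((homologyFunctor C n).obj T.obj₁))
    (h₂ : IsZero ((homologyFunctor C n).obj T.obj₃)) :
    IsZero ((homologyFunctor C n).obj T.obj₂) :=
  (HomologySequence.exact₂ T hT n).isZero_of_both_zeros
    (h₁.eq_of_src _ _) (h₂.eq_of_tgt _ _)

/-- An object with homology in one degree. -/
theorem exists_iso_single_homology (X : DerivedCategory C) (n : ℤ) [X.IsGE n] [X.IsLE n] :
    Nonempty (X ≅ (singleFunctor C n).obj ((homologyFunctor C n).obj X)) := by
  obtain ⟨Y, ⟨e⟩⟩ := exists_iso_singleFunctor_obj_of_isGE_of_isLE X n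
  have e' : (homologyFunctor C n).obj X ≅ Y :=
    (homologyFunctor C n).mapIso e ≪≫ (singleFunctorCompHomologyFunctorIso C n).app Y
  exact ⟨e ≪≫ (singleFunctor C n).mapIso e'.symm⟩

/-- **Devissage**: a property of objects of the derived category which is invariant under
isomorphisms, closed under extensions and true for the `H^n(A)[-n]` is true for the bounded
object `A`. -/
theorem bounded_induction (P : DerivedCategory C → Prop)
    (hiso : ∀ {A B : DerivedCategory C}, (A ≅ B) → P A → P B)
    (hext : ∀ T ∈ distTriang (DerivedCategory C), P T.obj₁ → P T.obj₃ → P T.obj₂)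
    (A : DerivedCategory C) (a b : ℤ) [A.IsGE a] [A.IsLE b]
    (hH : ∀ n : ℤ, P ((singleFunctor C n).obj ((homologyFunctor C n).obj A))) : P A := by
  have hzero : ∀ Z : DerivedCategory C, IsZero Z → P Z := by
    intro Z hZ
    -- degree far away
    have h1 : IsZero ((homologyFunctor C (b + 1)).obj A) := A.isZero_of_isLE b (b + 1) (by omega)
    have h2 : IsZero ((singleFunctor C (b + 1)).obj ((homologyFunctor C (b + 1)).obj A)) :=
      (singleFunctor C (b + 1)).map_isZero h1
    exact hiso (h2.iso hZ) (hH (b + 1))
  have key : ∀ N : ℕ, ∀ (a : ℤ) (A : DerivedCategory C), A.IsGE a → A.IsLE (a + N - 1) →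
      (∀ n : ℤ, P ((singleFunctor C n).obj ((homologyFunctor C n).obj A))) → P A := by
    intro N
    induction N with
    | zero =>
      intro a A hA hA' _
      apply hzero
      exact TStructure.t.isZero A (a + (0 : ℕ) - 1) a (by push_cast; omega)
    | succ N ih =>
      intro a A hA hA' hH
      obtain ⟨X, Y, hX, hY, f, g, h, hT⟩ := TStructure.t.exists_triangle A a (a + 1) rfl
      have hXle : X.IsLE a := ⟨hX⟩
      have hYge : Y.IsGE (a + 1) := ⟨hY⟩
      set T := Triangle.mk f g h with hTdef
      have hXge : X.IsGE a := by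
        rw [isGE_iff]
        intro i hi
        exact isZero_homology₁ T hT i (Y.isZero_of_isGE (a + 1) (i - 1) (by omega))
          (A.isZero_of_isGE a i hi)
      have hYle : Y.IsLE (a + 1 + N - 1) := by
        rw [isLE_iff]
        intro i hi
        refine isZero_homology₃ T hT i (A.isZero_of_isLE (a + ((N + 1 : ℕ) : ℤ) - 1) i ?_)
          (X.isZero_of_isLE a (i + 1) (by omega))
        push_cast
        omega
      have hPX : P X := by
        obtain ⟨e⟩ := exists_iso_single_homology X a
        have := isIso_homology_mor₁ T hT a (Y.isZero_of_isGE (a + 1) (a - 1) (by omega))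
          (Y.isZero_of_isGE (a + 1) a (by omega))
        have e' : (homologyFunctor C a).obj T.obj₁ ≅ (homologyFunctor C a).obj T.obj₂ :=
          asIso ((homologyFunctor C a).map T.mor₁)
        exact hiso ((singleFunctor C a).mapIso e'.symm ≪≫ e.symm) (hH a)
      have hPY : P Y := by
        refine ih (a + 1) Y hYge hYle fun n => ?_
        rcases lt_or_ge n (a + 1) with hn | hn
        · exact hzero _ ((singleFunctor C n).map_isZero (Y.isZero_of_isGE (a + 1) n hn))
        · have := isIso_homology_mor₂ T hT n (X.isZero_of_isLE a n (by omega))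
            (X.isZero_of_isLE a (n + 1) (by omega))
          have e' : (homologyFunctor C n).obj T.obj₂ ≅ (homologyFunctor C n).obj T.obj₃ :=
            asIso ((homologyFunctor C n).map T.mor₂)
          exact hiso ((singleFunctor C n).mapIso e') (hH n)
      exact hext T hT hPX hPY
  rcases lt_or_ge b a with hab | hab
  · exact hzero A (TStructure.t.isZero A b a hab)
  · refine key (b - a + 1).toNat a A inferInstance ?_ hH
    have : a + ((b - a + 1).toNat : ℤ) - 1 = b := by
      rw [Int.toNat_of_nonneg (by omega)]
      ring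
    rw [this]
    infer_instance

end M21
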