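import Pool.Agent.H.MP_21b43d_ag.B.Chi1
import Pool.Agent.H.MP_21b43d_ag.B.Dev
import Pool.Agent.H.MP_21b43d_ag.CA2

/-!
# M21 (MP_21b43d): the Euler form `χ(A, k)` over a local ring whose maximal ideal is generated by
a regular sequence of length two is the rank
-/

open CategoryTheory CategoryTheory.Limits CategoryTheory.Pretriangulated DerivedCategory
open IsLocalRing

noncomputable section

universe u w

namespace M21

section rank

variable {R : Type u} [CommRing R]

theorem rank_range_add_ker [IsDomain R] {M N : Type u} [AddCommGroup M] [AddCommGroup N]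
    [Module R M] [Module R N] [Module.Finite R M] (f : M →ₗ[R] N) :
    Module.finrank R (LinearMap.range f) + Module.finrank R (LinearMap.ker f) =
      Module.finrank R M := by
  rw [← LinearEquiv.finrank_eq f.quotKerEquivRange]
  exact Submodule.finrank_quotient_add_finrank _

theorem fg_mid [IsNoetherianRing R] {M₁ M₂ M₃ : Type u} [AddCommGroup M₁] [AddCommGroup M₂]
    [AddCommGroup M₃] [Module R M₁] [Module R M₂] [Module R M₃] (f : M₁ →ₗ[R] M₂)
    (g : M₂ →ₗ[R] M₃) (h : LinearMap.range f = LinearMap.ker g) (h₁ : Module.Finite R M₁)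
    (h₃ : Module.Finite R M₃) : Module.Finite R M₂ := by
  have h1 : Module.Finite R (LinearMap.ker g) := by rw [← h]; infer_instance
  have h2 : Module.Finite R (M₂ ⧸ LinearMap.ker g) :=
    Module.Finite.equiv (LinearMap.quotKerEquivRange g).symm
  exact Module.Finite.of_submodule_quotient (LinearMap.ker g)

theorem finrank_sub_le [IsDomain R] [IsNoetherianRing R] {M : Type u} [AddCommGroup M]
    [Module R M] [Module.Finite R M] (N : Submodule R M) :
    Module.finrank R N ≤ Module.finrank R M := by
  rw [← Submodule.finrank_quotient_add_finrank N]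
  exact Nat.le_add_left _ _

theorem finrank_range_le' [IsDomain R] {M N : Type u} [AddCommGroup M] [AddCommGroup N]
    [Module R M] [Module R N] [Module.Finite R M] (f : M →ₗ[R] N) :
    Module.finrank R (LinearMap.range f) ≤ Module.finrank R M := by
  rw [← rank_range_add_ker f]
  exact Nat.le_add_right _ _

variable [HasDerivedCategory.{w} (ModuleCat.{u} R)]

/-- the homology modules of an object of the derived category of modules -/
abbrev hm (i : ℤ) (A : DerivedCategory (ModuleCat.{u} R)) : ModuleCat.{u} R :=
  (homologyFunctor (ModuleCat.{u} R) i).obj A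

variable (T : Triangle (DerivedCategory (ModuleCat.{u} R))) (hT : T ∈ distTriang _)

include hT in
theorem hm_range₂ (i : ℤ) :
    LinearMap.range ((homologyFunctor (ModuleCat.{u} R) i).map T.mor₁).hom =
      LinearMap.ker ((homologyFunctor (ModuleCat.{u} R) i).map T.mor₂).hom :=
  (HomologySequence.exact₂ T hT i).moduleCat_range_eq_ker

include hT in
theorem hm_range₃ (i j : ℤ) (h : i + 1 = j) :
    LinearMap.range ((homologyFunctor (ModuleCat.{u} R) i).map T.mor₂).hom =
      LinearMap.ker (HomologySequence.δ T i j h).hom :=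
  (HomologySequence.exact₃ T hT i j h).moduleCat_range_eq_ker

include hT in
theorem hm_range₁ (i j : ℤ) (h : i + 1 = j) :
    LinearMap.range (HomologySequence.δ T i j h).hom =
      LinearMap.ker ((homologyFunctor (ModuleCat.{u} R) j).map T.mor₁).hom :=
  (HomologySequence.exact₁ T hT i j h).moduleCat_range_eq_ker

/-- all homology modules are finitely generated -/
def HFG (A : DerivedCategory (ModuleCat.{u} R)) : Prop := ∀ i : ℤ, Module.Finite R (hm i A)

variable [IsNoetherianRing R] {T}

include hT in
theorem HFG.mid (h₁ : HFG T.obj₁) (h₃ : HFG T.obj₃) : HFG T.obj₂ := fun i =>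
  fg_mid _ _ (hm_range₂ T hT i) (h₁ i) (h₃ i)

include hT in
theorem HFG.right (h₁ : HFG T.obj₁) (h₂ : HFG T.obj₂) : HFG T.obj₃ := fun i =>
  fg_mid _ _ (hm_range₃ T hT i (i + 1) rfl) (h₂ i) (h₁ (i + 1))

include hT in
theorem HFG.left (h₂ : HFG T.obj₂) (h₃ : HFG T.obj₃) : HFG T.obj₁ := fun i =>
  fg_mid _ _ (hm_range₁ T hT (i - 1) i (by omega)) (h₃ (i - 1)) (h₂ i)

variable [IsDomain R]

include hT in
/-- The long exact sequence of ranks. -/
theorem rank_les (h₁ : HFG T.obj₁) (h₂ : HFG T.obj₂) (h₃ : HFG T.obj₃) :
    LES (fun i : ℤ => Module.finrank R (hm i T.obj₁))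
      (fun i : ℤ => Module.finrank R (hm i T.obj₂))
      (fun i : ℤ => Module.finrank R (hm i T.obj₃))
      (fun i : ℤ => Module.finrank R
        (LinearMap.range (HomologySequence.δ T i (i + 1) rfl).hom)) := by
  have e : ∀ i : ℤ, Module.finrank R
      (LinearMap.range (HomologySequence.δ T (i - 1) (i - 1 + 1) rfl).hom) =
      Module.finrank R
        (LinearMap.ker ((homologyFunctor (ModuleCat.{u} R) i).map T.mor₁).hom) := by
    intro i
    have key : ∀ (a b : ℤ) (h : a + 1 = b), Module.finrank R
        (LinearMap.range (HomologySequence.δ T a (a + 1) rfl).hom) =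
        Module.finrank R (LinearMap.range (HomologySequence.δ T a b h).hom) := by
      intro a b h
      subst h
      rfl
    rw [key (i - 1) i (by omega), hm_range₁ T hT (i - 1) i (by omega)]
  refine ⟨fun i => ?_, fun i => ?_, fun i => ?_⟩
  · have := h₁ i
    have := h₂ i
    have := h₃ i
    have e1 := rank_range_add_ker (HomologySequence.δ T i (i + 1) rfl).hom
    have e2 := rank_range_add_ker ((homologyFunctor (ModuleCat.{u} R) i).map T.mor₁).hom
    have e3 := rank_range_add_ker ((homologyFunctor (ModuleCat.{u} R) i).map T.mor₂).hom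
    rw [← hm_range₃ T hT i (i + 1) rfl] at e1
    rw [← hm_range₂ T hT i] at e3
    rw [← e i] at e2
    change Module.finrank R (hm i T.obj₂) + _ + _ = Module.finrank R (hm i T.obj₁) +
      Module.finrank R (hm i T.obj₃)
    unfold hm
    omega
  · have := h₁ i
    change Module.finrank R
      (LinearMap.range (HomologySequence.δ T (i - 1) (i - 1 + 1) rfl).hom) ≤ _
    rw [e i]
    exact finrank_sub_le _
  · have := h₃ i
    exact finrank_range_le' _

end rank

end M21
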