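import Pool.Agent.H.MP_21b43d_ag.B.Chi2

/-!
# M21 (MP_21b43d): the Euler form `χ(A, k)` over a local ring whose maximal ideal is generated by
a regular sequence of length two is the rank (main theorem)
-/

open CategoryTheory CategoryTheory.Limits CategoryTheory.Pretriangulated DerivedCategory
open IsLocalRing

noncomputable section

universe u w

namespace M21

variable (F : Type u) [Field F] {R : Type u} [CommRing R] [Algebra F R] [IsDomain R]
  [IsNoetherianRing R] [HasDerivedCategory.{w} (ModuleCat.{u} R)]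

/-- The rank of an object of the derived category of modules. -/
def hrank (A : DerivedCategory (ModuleCat.{u} R)) : ℤ :=
  altSum fun i : ℤ => Module.finrank R (hm i A)

/-- `A` has finitely generated homology, finite dimensional `Hom(A, K[i])` and
`χ(A, K) = rank A`. -/
structure Good (K A : DerivedCategory (ModuleCat.{u} R)) : Prop where
  hom : HomFin F A K
  fg : HFG A
  supp : (fun i : ℤ => Module.finrank R (hm i A)).support.Finite
  eq : eulF F A K = hrank A

variable {F} {K : DerivedCategory (ModuleCat.{u} R)} {T : Triangle (DerivedCategory (ModuleCat.{u} R))}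

theorem Good.mid (hT : T ∈ distTriang _) (h₁ : Good F K T.obj₁) (h₃ : Good F K T.obj₃) :
    Good F K T.obj₂ := by
  have hh := h₁.hom.mid hT h₃.hom
  have hf := HFG.mid hT h₁.fg h₃.fg
  have hl := rank_les hT h₁.fg hf h₃.fg
  refine ⟨hh, hf, hl.fin₂ h₁.supp h₃.supp, ?_⟩
  rw [eulF_add hT h₁.hom hh h₃.hom, h₁.eq, h₃.eq]
  exact (hl.altSum_eq h₁.supp h₃.supp).symm

theorem Good.right (hT : T ∈ distTriang _) (h₁ : Good F K T.obj₁) (h₂ : Good F K T.obj₂) :
    Good F K T.obj₃ := by
  have hh := h₁.hom.right hT h₂.hom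
  have hf := HFG.right hT h₁.fg h₂.fg
  have hl := rank_les hT h₁.fg h₂.fg hf
  have hs := hl.fin₃ h₁.supp h₂.supp
  refine ⟨hh, hf, hs, ?_⟩
  have e1 := eulF_add hT h₁.hom h₂.hom hh
  have e2 : hrank T.obj₂ = hrank T.obj₁ + hrank T.obj₃ := hl.altSum_eq h₁.supp hs
  rw [h₁.eq, h₂.eq, e2] at e1
  linarith

theorem Good.left (hT : T ∈ distTriang _) (h₂ : Good F K T.obj₂) (h₃ : Good F K T.obj₃) :
    Good F K T.obj₁ := by
  have hh := h₂.hom.left hT h₃.hom
  have hf := HFG.left hT h₂.fg h₃.fg
  have hl := rank_les hT hf h₂.fg h₃.fg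
  have hs := hl.fin₁ h₂.supp h₃.supp
  refine ⟨hh, hf, hs, ?_⟩
  have e1 := eulF_add hT hh h₂.hom h₃.hom
  have e2 : hrank T.obj₂ = hrank T.obj₁ + hrank T.obj₃ := hl.altSum_eq hs h₃.supp
  rw [h₃.eq, h₂.eq, e2] at e1
  linarith

theorem Good.of_iso {A B : DerivedCategory (ModuleCat.{u} R)} (e : A ≅ B) (h : Good F K A) :
    Good F K B := by
  have e' : ∀ i : ℤ, hm i A ≅ hm i B := fun i => (homologyFunctor _ i).mapIso e
  have e'' : ∀ i : ℤ, Module.finrank R (hm i A) = Module.finrank R (hm i B) := fun i =>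
    LinearEquiv.finrank_eq (e' i).toLinearEquiv
  refine ⟨h.hom.of_iso e, fun i => ?_, ?_, ?_⟩
  · have := h.fg i
    exact Module.Finite.equiv (e' i).toLinearEquiv
  · have := h.supp
    simpa only [e''] using this
  · rw [← eulF_iso e, h.eq]
    exact altSum_congr e''

theorem hm_zero {A : DerivedCategory (ModuleCat.{u} R)} {i : ℤ} (h : IsZero (hm i A)) :
    Module.finrank R (hm i A) = 0 := by
  have : Subsingleton (hm i A) := ModuleCat.subsingleton_of_isZero h
  exact Module.finrank_zero_of_subsingleton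

theorem Good.zero {A : DerivedCategory (ModuleCat.{u} R)} (hA : IsZero A) : Good F K A := by
  have h1 : ∀ i : ℤ, Subsingleton (A ⟶ K⟦i⟧) := fun i => ⟨fun _ _ => hA.eq_of_src _ _⟩
  have h2 : ∀ i : ℤ, IsZero (hm i A) := fun i => (homologyFunctor _ i).map_isZero hA
  have e1 : (fun i : ℤ => Module.finrank F (A ⟶ K⟦i⟧)) = fun _ => 0 := by
    funext i
    have := h1 i
    exact Module.finrank_zero_of_subsingleton
  have e2 : (fun i : ℤ => Module.finrank R (hm i A)) = fun _ => 0 := by
    funext i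
    exact hm_zero (h2 i)
  refine ⟨⟨fun i => ?_, ?_⟩, fun i => ?_, ?_, ?_⟩
  · have := h1 i
    infer_instance
  · rw [e1]
    simp
  · have : Subsingleton (hm i A) := ModuleCat.subsingleton_of_isZero (h2 i)
    infer_instance
  · rw [e2]
    simp
  · unfold eulF hrank
    rw [e1, e2]

theorem Good.shift_one {A : DerivedCategory (ModuleCat.{u} R)} (h : Good F K A) :
    Good F K (A⟦(1 : ℤ)⟧) :=
  Good.right (contractible_distinguished₂ A) h (Good.zero (isZero_zero _))

theorem Good.of_shift_one {A : DerivedCategory (ModuleCat.{u} R)} (h : Good F K (A⟦(1 : ℤ)⟧)) :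
    Good F K A :=
  Good.left (contractible_distinguished₂ A) (Good.zero (isZero_zero _)) h

theorem Good.shift_nat {A : DerivedCategory (ModuleCat.{u} R)} (h : Good F K A) (n : ℕ) :
    Good F K (A⟦(n : ℤ)⟧) := by
  induction n with
  | zero => exact h.of_iso ((shiftFunctorZero _ ℤ).symm.app A)
  | succ n ih =>
    exact ih.shift_one.of_iso ((shiftFunctorAdd' _ (n : ℤ) 1 ((n + 1 : ℕ) : ℤ)
      (by push_cast; ring)).symm.app A)

theorem Good.shift_neg {A : DerivedCategory (ModuleCat.{u} R)} (h : Good F K A) (n : ℕ) :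
    Good F K (A⟦(-(n : ℤ))⟧) := by
  induction n with
  | zero => exact h.of_iso ((shiftFunctorZero' _ (-((0 : ℕ) : ℤ)) (by simp)).symm.app A)
  | succ n ih =>
    apply Good.of_shift_one
    exact ih.of_iso ((shiftFunctorAdd' _ (-((n + 1 : ℕ) : ℤ)) 1 (-(n : ℤ))
      (by push_cast; ring)).app A)

theorem Good.shift {A : DerivedCategory (ModuleCat.{u} R)} (h : Good F K A) (n : ℤ) :
    Good F K (A⟦n⟧) := by
  obtain ⟨m, rfl | rfl⟩ := Int.eq_nat_or_neg n
  · exact h.shift_nat m
  · exact h.shift_neg m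

end M21
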