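import Pool.Agent.H.MP_21b43d_ag.B.Chi3

/-!
# M21 (MP_21b43d): the Euler form `χ(A, k)` over a local ring whose maximal ideal is generated by
a regular sequence of length two is the rank (free modules, all modules, all complexes)
-/

open CategoryTheory CategoryTheory.Limits CategoryTheory.Pretriangulated DerivedCategory
open IsLocalRing ModuleCat

noncomputable section

universe u w

namespace M21

theorem altSum_single {a : ℤ → ℕ} (h : ∀ i, i ≠ 0 → a i = 0) : altSum a = a 0 := by
  unfold altSum
  rw [finsum_eq_single _ (0 : ℤ) (fun i hi => by rw [h i hi]; simp)]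
  simp

theorem support_single {a : ℤ → ℕ} (h : ∀ i, i ≠ 0 → a i = 0) : a.support.Finite :=
  (Set.finite_singleton (0 : ℤ)).subset fun i hi => by
    by_contra hne
    exact hi (h i hne)

section vanish

variable {C : Type u} [Category.{w} C] [Abelian C] [HasDerivedCategory C]

theorem hom_single_zero (P Y : C) [Projective P] {i : ℤ} (hi : i ≠ 0)
    (f : (singleFunctor C 0).obj P ⟶ ((singleFunctor C 0).obj Y)⟦i⟧) : f = 0 := by
  rcases lt_or_gt_of_ne hi with h | h
  · have : (((singleFunctor C 0).obj Y)⟦i⟧).IsGE (-i) :=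
      TStructure.t.isGE_shift _ 0 i (-i) (by omega)
    exact TStructure.t.zero f 0 (-i) (by omega)
  · rw [← cancel_mono (((singleFunctors C).shiftIso i (-i) 0 (by lia)).hom.app _), zero_comp]
    exact from_singleFunctor_obj_eq_zero_of_projective
      (L := (CochainComplex.singleFunctor C (-i)).obj Y) (n := -i) _ (by lia)

end vanish

variable (F : Type u) [Field F] {R : Type u} [CommRing R] [Algebra F R]
  [HasDerivedCategory.{w} (ModuleCat.{u} R)]

/-- `Hom(P[0], Y[0][0]) = Hom(P, Y)`. -/
def homSingleEquiv (P Y : ModuleCat.{u} R) :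
    ((singleFunctor (ModuleCat.{u} R) 0).obj P ⟶
      ((singleFunctor (ModuleCat.{u} R) 0).obj Y)⟦(0 : ℤ)⟧) ≃ₗ[F] (P ⟶ Y) :=
  (Linear.homCongr F (Iso.refl _) ((shiftFunctorZero (DerivedCategory (ModuleCat.{u} R)) ℤ).app
    ((singleFunctor (ModuleCat.{u} R) 0).obj Y))).trans
    (LinearEquiv.ofBijective ((singleFunctor (ModuleCat.{u} R) 0).mapLinearMap F)
      ⟨(singleFunctor (ModuleCat.{u} R) 0).map_injective,
        (singleFunctor (ModuleCat.{u} R) 0).map_surjective⟩).symm

/-- `Hom(R^n, Y) = Y^n`. -/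
def homFreeEquiv (Y : ModuleCat.{u} R) (n : ℕ) :
    (ModuleCat.of R (Fin n → R) ⟶ Y) ≃ₗ[F] (Fin n → Y) :=
  (ModuleCat.homLinearEquiv (S := F)).trans ((Pi.basisFun R (Fin n)).constr F).symm

variable {F} [IsDomain R] [IsNoetherianRing R]

theorem good_free (κ : ModuleCat.{u} R) (hκ : Module.finrank F κ = 1) (n : ℕ) :
    Good F ((singleFunctor (ModuleCat.{u} R) 0).obj κ)
      ((singleFunctor (ModuleCat.{u} R) 0).obj (ModuleCat.of R (Fin n → R))) := by
  have hfin : FiniteDimensional F κ := Module.finite_of_finrank_pos (by omega)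
  have hP : Projective (ModuleCat.of R (Fin n → R)) :=
    (IsProjective.iff_projective _).1 (inferInstanceAs (Module.Projective R (Fin n → R)))
  set P : ModuleCat.{u} R := ModuleCat.of R (Fin n → R) with hPdef
  set A := (singleFunctor (ModuleCat.{u} R) 0).obj P with hA
  set K := (singleFunctor (ModuleCat.{u} R) 0).obj κ with hK
  have e0 : (A ⟶ K⟦(0 : ℤ)⟧) ≃ₗ[F] (Fin n → κ) :=
    (homSingleEquiv F P κ).trans (homFreeEquiv F κ n)
  have h1 : ∀ i : ℤ, i ≠ 0 → Subsingleton (A ⟶ K⟦i⟧) := fun i hi =>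
    subsingleton_of_forall_eq 0 fun f => hom_single_zero P κ hi f
  have h2 : ∀ i : ℤ, i ≠ 0 → Module.finrank F (A ⟶ K⟦i⟧) = 0 := fun i hi => by
    have := h1 i hi
    exact Module.finrank_zero_of_subsingleton
  have h3 : Module.finrank F (A ⟶ K⟦(0 : ℤ)⟧) = n := by
    rw [e0.finrank_eq, Module.finrank_pi_fintype]
    simp [hκ]
  have h4 : ∀ i : ℤ, i ≠ 0 → IsZero (hm i A) := fun i hi => by
    rcases lt_or_gt_of_ne hi with h | h
    · exact A.isZero_of_isGE 0 i h
    · exact A.isZero_of_isLE 0 i h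
  have h5 : ∀ i : ℤ, i ≠ 0 → Module.finrank R (hm i A) = 0 := fun i hi => hm_zero (h4 i hi)
  have e1 : hm 0 A ≅ P := (singleFunctorCompHomologyFunctorIso (ModuleCat.{u} R) 0).app P
  have h6 : Module.finrank R (hm 0 A) = n := by
    rw [e1.toLinearEquiv.finrank_eq]
    exact Module.finrank_fin_fun R
  refine ⟨⟨fun i => ?_, support_single h2⟩, fun i => ?_, support_single h5, ?_⟩
  · by_cases hi : i = 0
    · subst hi
      exact Module.Finite.equiv e0.symm
    · have := h1 i hi
      infer_instance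
  · by_cases hi : i = 0
    · subst hi
      exact Module.Finite.equiv e1.toLinearEquiv.symm
    · have : Subsingleton (hm i A) := ModuleCat.subsingleton_of_isZero (h4 i hi)
      infer_instance
  · unfold eulF hrank
    rw [altSum_single h2, altSum_single h5, h3, h6]

end M21
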