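import Pool.Agent.H.MP_21b43d_ag.B.Chi4

/-!
# M21 (MP_21b43d): the Euler form `χ(A, k)` over a local ring whose maximal ideal is generated by
a regular sequence of length two is the rank (all modules, all complexes)
-/

open CategoryTheory CategoryTheory.Limits CategoryTheory.Pretriangulated DerivedCategory
open IsLocalRing ModuleCat

noncomputable section

universe u w

namespace M21

variable {F : Type u} [Field F] {R : Type u} [CommRing R] [Algebra F R] [IsDomain R]
  [IsNoetherianRing R] [HasDerivedCategory.{w} (ModuleCat.{u} R)]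
  {K : DerivedCategory (ModuleCat.{u} R)}

theorem Good.single_quot {M₁ M₂ M₃ : ModuleCat.{u} R} (f : M₁ →ₗ[R] M₂) (g : M₂ →ₗ[R] M₃)
    (hf : Function.Injective f) (hfg : LinearMap.range f = LinearMap.ker g)
    (hg : Function.Surjective g) (h₁ : Good F K ((singleFunctor (ModuleCat.{u} R) 0).obj M₁))
    (h₂ : Good F K ((singleFunctor (ModuleCat.{u} R) 0).obj M₂)) :
    Good F K ((singleFunctor (ModuleCat.{u} R) 0).obj M₃) := by
  have h0 : ModuleCat.ofHom f ≫ ModuleCat.ofHom g = 0 := by
    rw [← ModuleCat.ofHom_comp]
    have : g ∘ₗ f = 0 := by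
      rw [← LinearMap.range_le_ker_iff, hfg]
    rw [this]
    rfl
  let S : ShortComplex (ModuleCat.{u} R) := ShortComplex.mk (ModuleCat.ofHom f)
    (ModuleCat.ofHom g) h0
  have hS : S.ShortExact :=
    { exact := (S.moduleCat_exact_iff_range_eq_ker).2 hfg
      mono_f := (ModuleCat.mono_iff_injective _).2 hf
      epi_g := (ModuleCat.epi_iff_surjective _).2 hg }
  exact Good.right hS.singleTriangle_distinguished h₁ h₂

variable [IsLocalRing R] {a b : R}

theorem IsPar2.good_single (h : IsPar2 R a b) {κ : ModuleCat.{u} R}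
    (hκ : Module.finrank F κ = 1) (M : ModuleCat.{u} R) [Module.Finite R M] :
    Good F ((singleFunctor (ModuleCat.{u} R) 0).obj κ)
      ((singleFunctor (ModuleCat.{u} R) 0).obj M) := by
  obtain ⟨m, n, r, p, q, s, hp, hq, hs, hsi⟩ := h.exists_resolution M
  have h1 : Good F ((singleFunctor (ModuleCat.{u} R) 0).obj κ)
      ((singleFunctor (ModuleCat.{u} R) 0).obj (ModuleCat.of R (LinearMap.range q))) := by
    refine Good.single_quot (M₁ := ModuleCat.of R (Fin r → R)) (M₂ := ModuleCat.of R (Fin n → R))
      s q.rangeRestrict hsi ?_ q.surjective_rangeRestrict (good_free κ hκ r) (good_free κ hκ n)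
    rw [LinearMap.ker_rangeRestrict]
    exact hs
  refine Good.single_quot (M₁ := ModuleCat.of R (LinearMap.range q))
    (M₂ := ModuleCat.of R (Fin m → R)) (LinearMap.range q).subtype p
    (LinearMap.range q).injective_subtype ?_ hp h1 (good_free κ hκ m)
  rw [Submodule.range_subtype]
  exact hq

/-- **`χ(A, k) = rank A`** for bounded complexes with finitely generated homology over a local ring
whose maximal ideal is generated by a regular sequence of length two. -/
theorem IsPar2.good (h : IsPar2 R a b) {κ : ModuleCat.{u} R}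
    (hκ : Module.finrank F κ = 1) (A : DerivedCategory (ModuleCat.{u} R)) (m n : ℤ)
    [A.IsGE m] [A.IsLE n] (hA : HFG A) :
    Good F ((singleFunctor (ModuleCat.{u} R) 0).obj κ) A := by
  refine bounded_induction (fun A => Good F ((singleFunctor (ModuleCat.{u} R) 0).obj κ) A)
    (fun e h => h.of_iso e) (fun T hT h₁ h₃ => Good.mid hT h₁ h₃) A m n fun i => ?_
  have := hA i
  exact ((h.good_single hκ (hm i A)).shift (-i)).of_iso
    (((singleFunctors (ModuleCat.{u} R)).shiftIso (-i) i 0 (by omega)).app (hm i A))

end M21
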