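import Pool.Agent.H.MP_21b43d_ag.B.QC3

/-!
# M21: coherent modules are closed under kernels, cokernels, extensions; five-term sequences
-/

open CategoryTheory CategoryTheory.Limits AlgebraicGeometry TopologicalSpace Opposite
open AlgebraicGeometry.Scheme (Modules)

noncomputable section

namespace M21

/-! ### abstract part -/

section Abs

variable {C : Type*} [Category* C] [Abelian C]

/-- A property of objects of an abelian category which is closed under kernels, quotients by
subobjects with the property, and extensions. -/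
structure WeakSerre (P : ObjectProperty C) : Prop where
  left : ∀ (S : ShortComplex C), S.Exact → Mono S.f → P S.X₂ → P S.X₃ → P S.X₁
  right : ∀ (S : ShortComplex C), S.ShortExact → P S.X₁ → P S.X₂ → P S.X₃
  middle : ∀ (S : ShortComplex C), S.ShortExact → P S.X₁ → P S.X₃ → P S.X₂

variable {P : ObjectProperty C} (hP : WeakSerre P)

include hP

theorem WeakSerre.kernel {A B : C} (f : A ⟶ B) (hA : P A) (hB : P B) : P (kernel f) :=
  hP.left (ShortComplex.mk (kernel.ι f) f (kernel.condition f))
    (ShortComplex.exact_of_f_is_kernel _ (kernelIsKernel f)) inferInstance hA hB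

theorem WeakSerre.image {A B : C} (f : A ⟶ B) (hA : P A) (hB : P B) : P (Abelian.image f) := by
  have h1 : kernel.ι f ≫ Abelian.factorThruImage f = 0 := by
    rw [← cancel_mono (Abelian.image.ι f), Category.assoc, Abelian.image.fac, kernel.condition,
      zero_comp]
  have hS : (ShortComplex.mk (kernel.ι f) (Abelian.factorThruImage f) h1).ShortExact := by
    refine { exact := ?_, mono_f := inferInstance, epi_g := inferInstance }
    have h := ShortComplex.exact_iff_of_epi_of_isIso_of_mono
      (S₁ := ShortComplex.mk (kernel.ι f) (Abelian.factorThruImage f) h1)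
      (S₂ := ShortComplex.mk (kernel.ι f) f (kernel.condition f))
      { τ₁ := 𝟙 _, τ₂ := 𝟙 _, τ₃ := Abelian.image.ι f, comm₁₂ := by simp, comm₂₃ := by simp }
    exact h.mpr (ShortComplex.exact_of_f_is_kernel _ (kernelIsKernel f))
  exact hP.right _ hS (hP.kernel f hA hB) hA

theorem WeakSerre.cokernel {A B : C} (f : A ⟶ B) (hA : P A) (hB : P B) : P (cokernel f) := by
  have h1 : Abelian.image.ι f ≫ cokernel.π f = 0 := kernel.condition _
  have hS : (ShortComplex.mk (Abelian.image.ι f) (cokernel.π f) h1).ShortExact := by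
    refine { exact := ?_, mono_f := inferInstance, epi_g := inferInstance }
    exact ShortComplex.exact_of_f_is_kernel _ (kernelIsKernel _)
  exact hP.right _ hS (hP.image f hA hB) hB

/-- Five-term exact sequences. -/
theorem WeakSerre.five {A₁ A₂ A₃ A₄ A₅ : C} (a : A₁ ⟶ A₂) (b : A₂ ⟶ A₃) (c : A₃ ⟶ A₄)
    (d : A₄ ⟶ A₅) (hab : a ≫ b = 0) (hbc : b ≫ c = 0) (hcd : c ≫ d = 0)
    (e₂ : (ShortComplex.mk a b hab).Exact) (e₃ : (ShortComplex.mk b c hbc).Exact)
    (e₄ : (ShortComplex.mk c d hcd).Exact) (h₁ : P A₁) (h₂ : P A₂) (h₄ : P A₄) (h₅ : P A₅) :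
    P A₃ := by
  have hQ := hP.cokernel a h₁ h₂
  have hK := hP.kernel d h₄ h₅
  have m : Mono (cokernel.desc a b hab) :=
    (ShortComplex.exact_iff_mono_cokernel_desc (ShortComplex.mk a b hab)).mp e₂
  have e : Epi (kernel.lift d c hcd) :=
    (ShortComplex.exact_iff_epi_kernel_lift (ShortComplex.mk c d hcd)).mp e₄
  have z : cokernel.desc a b hab ≫ kernel.lift d c hcd = 0 := by
    rw [← cancel_epi (cokernel.π a), ← cancel_mono (kernel.ι d)]
    simp [hbc]
  have z' : b ≫ kernel.lift d c hcd = 0 := by
    rw [← cancel_mono (kernel.ι d)]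
    simp [hbc]
  have x1 : (ShortComplex.mk b (kernel.lift d c hcd) z').Exact := by
    have h := ShortComplex.exact_iff_of_epi_of_isIso_of_mono
      (S₁ := ShortComplex.mk b (kernel.lift d c hcd) z') (S₂ := ShortComplex.mk b c hbc)
      { τ₁ := 𝟙 _, τ₂ := 𝟙 _, τ₃ := kernel.ι d, comm₁₂ := by simp, comm₂₃ := by simp }
    exact h.mpr e₃
  have x2 : (ShortComplex.mk (cokernel.desc a b hab) (kernel.lift d c hcd) z).Exact := by
    have h := ShortComplex.exact_iff_of_epi_of_isIso_of_mono
      (S₁ := ShortComplex.mk b (kernel.lift d c hcd) z')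
      (S₂ := ShortComplex.mk (cokernel.desc a b hab) (kernel.lift d c hcd) z)
      { τ₁ := cokernel.π a, τ₂ := 𝟙 _, τ₃ := 𝟙 _, comm₁₂ := by simp, comm₂₃ := by simp }
    exact h.mp x1
  exact hP.middle (ShortComplex.mk (cokernel.desc a b hab) (kernel.lift d c hcd) z)
    { exact := x2, mono_f := m, epi_g := e } hQ hK

end Abs

/-! ### coherent modules -/

variable {X : Scheme.{0}}

/-- The map on sections as a linear map. -/
def appL {M N : X.Modules} (φ : M ⟶ N) (U : X.Opens) : Γ(M, U) →ₗ[Γ(X, U)] Γ(N, U) where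
  toFun s := φ.app U s
  map_add' s t := app_add φ s t
  map_smul' r s := Modules.Hom.app_smul φ r s

theorem isCoh_iff {M : X.Modules} : IsCoh M ↔ QC M ∧ ∀ U : X.Opens, IsAffineOpen U →
    Module.Finite Γ(X, U) Γ(M, U) :=
  ⟨fun h => ⟨QC.of_isQuasicoherent M h.qcoh, h.finite⟩, fun h => ⟨h.1.isQuasicoherent, h.2⟩⟩

theorem IsCoh.qc {M : X.Modules} (h : IsCoh M) : QC M := (isCoh_iff.mp h).1

variable (X) in
/-- Coherent modules on a noetherian scheme are closed under kernels, cokernels, extensions. -/
theorem weakSerre_isCoh [IsLocallyNoetherian X] : WeakSerre (C := X.Modules) IsCoh where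
  left S hS hmono h2 h3 := by
    refine isCoh_iff.mpr ⟨QC.of_left S hS h2.qc h3.qc, fun U hU => ?_⟩
    have : IsNoetherianRing Γ(X, U) := IsLocallyNoetherian.component_noetherian ⟨U, hU⟩
    have := h2.finite U hU
    exact Module.Finite.of_injective (appL S.f U) (injective_of_mono S.f U)
  right S hS h1 h2 := by
    refine isCoh_iff.mpr ⟨QC.of_right S hS h1.qc h2.qc, fun U hU => ?_⟩
    have := h2.finite U hU
    exact Module.Finite.of_surjective (appL S.g U) (surj_of_qc S hS h1.qc hU)
  middle S hS h1 h3 := by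
    refine isCoh_iff.mpr ⟨QC.of_middle S hS h1.qc h3.qc, fun U hU => ?_⟩
    have : IsNoetherianRing Γ(X, U) := IsLocallyNoetherian.component_noetherian ⟨U, hU⟩
    have := h1.finite U hU
    have := h3.finite U hU
    have := hS.mono_f
    have h : IsNoetherian Γ(X, U) Γ(S.X₂, U) := by
      apply isNoetherian_of_range_eq_ker (appL S.f U) (appL S.g U)
      ext s
      constructor
      · rintro ⟨t, rfl⟩
        exact zero_app_apply S t
      · intro hs
        obtain ⟨t, ht⟩ := exists_of_app_eq_zero S hS.exact s hs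
        exact ⟨t, ht⟩
    infer_instance

end M21
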