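import Pool.Agent.H.MP_21b43d_ag.B.Coh1

/-!
# M21: the subcategory `dbCoh` is triangulated
-/

open CategoryTheory CategoryTheory.Limits AlgebraicGeometry TopologicalSpace Opposite
open CategoryTheory.Pretriangulated
open AlgebraicGeometry.Scheme (Modules)
open scoped ZeroObject

noncomputable section

namespace M21

variable {X : Scheme.{0}}

theorem subsingleton_of_isZero {Z : X.Modules} (hZ : IsZero Z) (U : X.Opens) :
    Subsingleton Γ(Z, U) := by
  refine ⟨fun s t => ?_⟩
  have h : ∀ s : Γ(Z, U), s = 0 := by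
    intro s
    have h1 : (𝟙 Z : Z ⟶ Z) = 0 := hZ.eq_of_src _ _
    have h2 : (𝟙 Z : Z ⟶ Z).app U s = (0 : Z ⟶ Z).app U s := by rw [h1]
    exact h2
  rw [h s, h t]

theorem isCoh_of_isZero {Z : X.Modules} (hZ : IsZero Z) : IsCoh Z := by
  refine isCoh_iff.mpr ⟨⟨fun U _ f s => ?_, fun U _ f s _ => ?_⟩, fun U _ => ?_⟩
  · have := subsingleton_of_isZero hZ (X.basicOpen f)
    exact ⟨0, 0, Subsingleton.elim _ _⟩
  · have := subsingleton_of_isZero hZ U
    exact ⟨0, Subsingleton.elim _ _⟩
  · have := subsingleton_of_isZero hZ U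
    infer_instance

theorem IsCoh.of_iso [IsLocallyNoetherian X] {M N : X.Modules} (e : M ≅ N) (h : IsCoh N) :
    IsCoh M := by
  refine (weakSerre_isCoh X).left (ShortComplex.mk e.hom (0 : N ⟶ 0) comp_zero) ?_ inferInstance h
    (isCoh_of_isZero (isZero_zero _))
  rw [ShortComplex.exact_iff_epi _ rfl]
  infer_instance

theorem dbCoh_iff (K : DMod X) : dbCoh X K ↔
    (∃ a b : ℤ, ∀ i : ℤ, i < a ∨ b < i → IsZero (hh i K)) ∧ ∀ i : ℤ, IsCoh (hh i K) := by
  refine and_congr ?_ Iff.rfl
  constructor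
  · rintro ⟨a, b, ha, hb⟩
    refine ⟨a, b, fun i hi => ?_⟩
    rcases hi with hi | hi
    · exact (DerivedCategory.isGE_iff K a).mp ha i hi
    · exact (DerivedCategory.isLE_iff K b).mp hb i hi
  · rintro ⟨a, b, h⟩
    exact ⟨a, b, (DerivedCategory.isGE_iff K a).mpr fun i hi => h i (Or.inl hi),
      (DerivedCategory.isLE_iff K b).mpr fun i hi => h i (Or.inr hi)⟩

/-- The cohomology of a shift. -/
def cohShift (K : DMod X) (n i : ℤ) : hh i (K⟦n⟧) ≅ hh (n + i) K :=
  ((DerivedCategory.homologyFunctor X.Modules 0).shiftIso n i (n + i) rfl).app K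


instance [IsLocallyNoetherian X] : (dbCoh X).IsClosedUnderIsomorphisms where
  of_iso {K L} e hK := by
    rw [dbCoh_iff] at hK ⊢
    obtain ⟨⟨a, b, hab⟩, hc⟩ := hK
    have f : ∀ i : ℤ, hh i L ≅ hh i K := fun i =>
      (DerivedCategory.homologyFunctor X.Modules i).mapIso e.symm
    exact ⟨⟨a, b, fun i hi => (hab i hi).of_iso (f i)⟩, fun i => (hc i).of_iso (f i)⟩

instance [IsLocallyNoetherian X] : (dbCoh X).ContainsZero where
  exists_zero := by
    refine ⟨0, isZero_zero _, ?_⟩
    rw [dbCoh_iff]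
    have h : ∀ i : ℤ, IsZero (hh i (0 : DMod X)) := fun i =>
      (DerivedCategory.homologyFunctor X.Modules i).map_isZero (isZero_zero _)
    exact ⟨⟨0, 0, fun i _ => h i⟩, fun i => isCoh_of_isZero (h i)⟩

instance [IsLocallyNoetherian X] : (dbCoh X).IsStableUnderShift ℤ where
  isStableUnderShiftBy n :=
    { le_shift := by
        intro K hK
        rw [dbCoh_iff] at hK
        obtain ⟨⟨a, b, hab⟩, hc⟩ := hK
        change dbCoh X (K⟦n⟧)
        rw [dbCoh_iff]
        refine ⟨⟨a - n, b - n, fun i hi => (hab (n + i) ?_).of_iso (cohShift K n i)⟩, fun i =>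
          (hc (n + i)).of_iso (cohShift K n i)⟩
        omega }

instance [IsLocallyNoetherian X] : (dbCoh X).IsTriangulatedClosed₂ where
  ext₂' T hT h₁ h₃ := by
    apply ObjectProperty.le_isoClosure
    rw [dbCoh_iff] at h₁ h₃ ⊢
    obtain ⟨⟨a, b, hab⟩, hc⟩ := h₁
    obtain ⟨⟨a', b', hab'⟩, hc'⟩ := h₃
    refine ⟨⟨min a a', max b b', fun i hi => ?_⟩, fun i => ?_⟩
    · exact (DerivedCategory.HomologySequence.exact₂ T hT i).isZero_X₂
        ((hab i (by omega)).eq_of_src _ _) ((hab' i (by omega)).eq_of_tgt _ _)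
    · exact (weakSerre_isCoh X).five
        (DerivedCategory.HomologySequence.δ T (i - 1) i (by omega))
        ((DerivedCategory.homologyFunctor X.Modules i).map T.mor₁)
        ((DerivedCategory.homologyFunctor X.Modules i).map T.mor₂)
        (DerivedCategory.HomologySequence.δ T i (i + 1) rfl)
        (DerivedCategory.HomologySequence.δ_comp T hT (i - 1) i (by omega))
        (by rw [← Functor.map_comp, comp_distTriang_mor_zero₁₂ _ hT, Functor.map_zero])
        (DerivedCategory.HomologySequence.comp_δ T hT i (i + 1) rfl)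
        (DerivedCategory.HomologySequence.exact₁ T hT (i - 1) i (by omega))
        (DerivedCategory.HomologySequence.exact₂ T hT i)
        (DerivedCategory.HomologySequence.exact₃ T hT i (i + 1) rfl)
        (hc' (i - 1)) (hc i) (hc' i) (hc (i + 1))

/-- `D^b_coh(X)` is a triangulated subcategory. -/
instance [IsLocallyNoetherian X] : (dbCoh X).IsTriangulated where

end M21
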