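import Mathlib

/-!
# M21: the end lemma, abstract part

In the derived category of an abelian category let `A ⟶ S ⟶ B ⟶ A[1]` be a distinguished
triangle, where `S` is a nonzero object of the abelian category in degree `0`.  If the top cohomology
object of `A` maps onto `S`, if `S` embeds into the bottom cohomology object of `B`, then
`Hom(A, B[i]) ≠ 0` for some `i ≤ 0` (`end_abs`).
-/

open CategoryTheory CategoryTheory.Limits CategoryTheory.Pretriangulated DerivedCategory

universe w v u

namespace M21

variable {C : Type u} [Category.{v} C] [Abelian C] [HasDerivedCategory.{w} C]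

open DerivedCategory.TStructure in
/-- The map from `K ≤ n` to its top truncation induces an isomorphism on `H^n`. -/
theorem isIso_homology_truncGEπ (K : DerivedCategory C) (n : ℤ) :
    IsIso ((homologyFunctor C n).map ((t.truncGEπ n).app K)) := by
  have hT := t.triangleLTGE_distinguished n K
  have h1 : IsZero ((homologyFunctor C n).obj ((t.truncLT n).obj K)) :=
    isZero_of_isLE _ (n - 1) n (by lia)
  have h2 : IsZero ((homologyFunctor C (n + 1)).obj ((t.truncLT n).obj K)) :=
    isZero_of_isLE _ (n - 1) (n + 1) (by lia)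
  have h3 : Mono ((homologyFunctor C n).map ((t.truncGEπ n).app K)) :=
    (HomologySequence.mono_homologyMap_mor₂_iff _ hT n).2 (h1.eq_of_src _ _)
  have h4 : Epi ((homologyFunctor C n).map ((t.truncGEπ n).app K)) :=
    (HomologySequence.epi_homologyMap_mor₂_iff _ hT n (n + 1)).2 (h2.eq_of_tgt _ _)
  exact isIso_of_mono_of_epi _

open DerivedCategory.TStructure in
/-- The map from the bottom truncation to `K` induces an isomorphism on `H^n`. -/
theorem isIso_homology_truncLTι (K : DerivedCategory C) (n : ℤ) :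
    IsIso ((homologyFunctor C n).map ((t.truncLTι (n + 1)).app K)) := by
  have hT := t.triangleLTGE_distinguished (n + 1) K
  have h1 : IsZero ((homologyFunctor C n).obj ((t.truncGE (n + 1)).obj K)) :=
    isZero_of_isGE _ (n + 1) n (by lia)
  have h2 : IsZero ((homologyFunctor C (n - 1)).obj ((t.truncGE (n + 1)).obj K)) :=
    isZero_of_isGE _ (n + 1) (n - 1) (by lia)
  have h3 : Epi ((homologyFunctor C n).map ((t.truncLTι (n + 1)).app K)) :=
    (HomologySequence.epi_homologyMap_mor₁_iff _ hT n).2 (h1.eq_of_tgt _ _)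
  have h4 : Mono ((homologyFunctor C n).map ((t.truncLTι (n + 1)).app K)) :=
    (HomologySequence.mono_homologyMap_mor₁_iff _ hT (n - 1) n).2 (h2.eq_of_src _ _)
  exact isIso_of_mono_of_epi _

/-- The functor `H^n` of the map of single complexes given by `u` is `u` up to isomorphisms. -/
theorem epi_homology_single {Y S : C} (n : ℤ) (u : Y ⟶ S) [Epi u] :
    Epi ((homologyFunctor C n).map ((singleFunctor C n).map u)) := by
  have h := (singleFunctorCompHomologyFunctorIso C n).hom.naturality u
  have h1 : (homologyFunctor C n).map ((singleFunctor C n).map u) =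
      (singleFunctorCompHomologyFunctorIso C n).hom.app Y ≫ u ≫
        (singleFunctorCompHomologyFunctorIso C n).inv.app S := by
    rw [← Category.assoc, ← Iso.app_inv, Iso.eq_comp_inv]
    exact h
  rw [h1]
  infer_instance

theorem mono_homology_single {Y S : C} (n : ℤ) (u : Y ⟶ S) [Mono u] :
    Mono ((homologyFunctor C n).map ((singleFunctor C n).map u)) := by
  have h := (singleFunctorCompHomologyFunctorIso C n).hom.naturality u
  have h1 : (homologyFunctor C n).map ((singleFunctor C n).map u) =
      (singleFunctorCompHomologyFunctorIso C n).hom.app Y ≫ u ≫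
        (singleFunctorCompHomologyFunctorIso C n).inv.app S := by
    rw [← Category.assoc, ← Iso.app_inv, Iso.eq_comp_inv]
    exact h
  rw [h1]
  infer_instance

open DerivedCategory.TStructure in
/-- For `K ≤ n` and an epimorphism `H^n(K) ⟶ S` there is `f : K ⟶ S[-n]` with `H^n(f)`
an epimorphism. -/
theorem exists_to_single (K : DerivedCategory C) (n : ℤ) [K.IsLE n] {S : C}
    (g : (homologyFunctor C n).obj K ⟶ S) [Epi g] :
    ∃ f : K ⟶ (singleFunctor C n).obj S, Epi ((homologyFunctor C n).map f) := by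
  have hT := t.triangleLTGE_distinguished n K
  have hle : DerivedCategory.IsLE ((t.truncGE n).obj K) n := by
    rw [isLE_iff]
    intro i hi
    have h1 : IsZero ((homologyFunctor C i).obj K) := isZero_of_isLE K n i hi
    have h2 : IsZero ((homologyFunctor C (i + 1)).obj ((t.truncLT n).obj K)) :=
      isZero_of_isLE _ (n - 1) (i + 1) (by lia)
    exact (HomologySequence.exact₃ _ hT i (i + 1)).isZero_of_both_zeros (h1.eq_of_src _ _)
      (h2.eq_of_tgt _ _)
  obtain ⟨Y, ⟨e⟩⟩ := exists_iso_singleFunctor_obj_of_isGE_of_isLE ((t.truncGE n).obj K) n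
  have hπ := isIso_homology_truncGEπ K n
  obtain ⟨u, hu⟩ : ∃ u : Y ⟶ S, Epi u :=
    ⟨(singleFunctorCompHomologyFunctorIso C n).inv.app Y ≫ (homologyFunctor C n).map e.inv ≫
      inv ((homologyFunctor C n).map ((t.truncGEπ n).app K)) ≫ g, inferInstance⟩
  refine ⟨(t.truncGEπ n).app K ≫ e.hom ≫ (singleFunctor C n).map u, ?_⟩
  rw [Functor.map_comp, Functor.map_comp]
  have := epi_homology_single n u
  infer_instance

open DerivedCategory.TStructure in
/-- For `K ≥ n` and a monomorphism `S ⟶ H^n(K)` there is `f : S[-n] ⟶ K` with `H^n(f)`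
a monomorphism. -/
theorem exists_from_single (K : DerivedCategory C) (n : ℤ) [K.IsGE n] {S : C}
    (g : S ⟶ (homologyFunctor C n).obj K) [Mono g] :
    ∃ f : (singleFunctor C n).obj S ⟶ K, Mono ((homologyFunctor C n).map f) := by
  have hT := t.triangleLTGE_distinguished (n + 1) K
  have hge : DerivedCategory.IsGE ((t.truncLT (n + 1)).obj K) n := by
    rw [isGE_iff]
    intro i hi
    have h1 : IsZero ((homologyFunctor C i).obj K) := isZero_of_isGE K n i hi
    have h2 : IsZero ((homologyFunctor C (i - 1)).obj ((t.truncGE (n + 1)).obj K)) :=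
      isZero_of_isGE _ (n + 1) (i - 1) (by lia)
    exact (HomologySequence.exact₁ _ hT (i - 1) i).isZero_of_both_zeros (h2.eq_of_src _ _)
      (h1.eq_of_tgt _ _)
  have hle : DerivedCategory.IsLE ((t.truncLT (n + 1)).obj K) n := inferInstance
  obtain ⟨Y, ⟨e⟩⟩ := exists_iso_singleFunctor_obj_of_isGE_of_isLE ((t.truncLT (n + 1)).obj K) n
  have hι := isIso_homology_truncLTι K n
  obtain ⟨u, hu⟩ : ∃ u : S ⟶ Y, Mono u :=
    ⟨g ≫ inv ((homologyFunctor C n).map ((t.truncLTι (n + 1)).app K)) ≫
      (homologyFunctor C n).map e.hom ≫ (singleFunctorCompHomologyFunctorIso C n).hom.app Y,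
      inferInstance⟩
  refine ⟨(singleFunctor C n).map u ≫ e.inv ≫ (t.truncLTι (n + 1)).app K, ?_⟩
  rw [Functor.map_comp, Functor.map_comp]
  have := mono_homology_single n u
  infer_instance

/-- **End lemma, abstract form.** -/
theorem end_abs {S : C} (hS : ¬ IsZero S) (T : Triangle (DerivedCategory C))
    (hT : T ∈ distTriang _) (e : T.obj₂ ≅ (singleFunctor C 0).obj S) (p q : ℤ)
    [T.obj₁.IsLE p] (ga : (homologyFunctor C p).obj T.obj₁ ⟶ S) [Epi ga]
    [T.obj₃.IsGE q] (gb : S ⟶ (homologyFunctor C q).obj T.obj₃) [Mono gb]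
    (hHom : ∀ i : ℤ, i ≤ 0 → ∀ f : T.obj₁ ⟶ T.obj₃⟦i⟧, f = 0) : False := by
  have hA : ¬ IsZero ((homologyFunctor C p).obj T.obj₁) := fun h =>
    hS (IsZero.of_epi ga h)
  have hB : ¬ IsZero ((homologyFunctor C q).obj T.obj₃) := fun h =>
    hS (IsZero.of_mono gb h)
  have h0 : ∀ i : ℤ, i ≠ 0 → IsZero ((homologyFunctor C i).obj T.obj₂) := by
    intro i hi
    refine IsZero.of_iso ?_ ((homologyFunctor C i).mapIso e)
    rcases lt_or_gt_of_ne hi with h | h
    · exact isZero_of_isGE _ 0 i h
    · exact isZero_of_isLE _ 0 i h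
  have hpq : p < q := by
    by_contra hcon
    rw [not_lt] at hcon
    have hge : DerivedCategory.IsGE (T.obj₃⟦q - p⟧) p :=
      TStructure.t.isGE_shift T.obj₃ q (q - p) p (by lia)
    let σ : (homologyFunctor C p).obj (T.obj₃⟦q - p⟧) ≅ (homologyFunctor C q).obj T.obj₃ :=
      ((homologyFunctor C 0).shiftIso (q - p) p q (by lia)).app T.obj₃
    obtain ⟨f₁, hf₁⟩ := exists_to_single T.obj₁ p ga
    obtain ⟨f₂, hf₂⟩ := exists_from_single (T.obj₃⟦q - p⟧) p (gb ≫ σ.inv)
    have h1 : f₁ ≫ f₂ = 0 := hHom (q - p) (by lia) _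
    have h2 : (homologyFunctor C p).map f₁ ≫ (homologyFunctor C p).map f₂ = 0 := by
      rw [← Functor.map_comp, h1, Functor.map_zero]
    have h3 : (homologyFunctor C p).map f₂ = 0 := by
      rw [← cancel_epi ((homologyFunctor C p).map f₁), h2, comp_zero]
    have h4 : IsZero ((homologyFunctor C p).obj ((singleFunctor C p).obj S)) :=
      IsZero.of_mono_eq_zero _ h3
    exact hS (h4.of_iso ((singleFunctorCompHomologyFunctorIso C p).app S).symm)
  have hp : p = 0 := by
    by_contra hp
    refine hA ((HomologySequence.exact₁ T hT (p - 1) p).isZero_of_both_zeros ?_ ?_)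
    · exact (isZero_of_isGE T.obj₃ q (p - 1) (by lia)).eq_of_src _ _
    · exact (h0 p hp).eq_of_tgt _ _
  refine hB ((HomologySequence.exact₃ T hT q (q + 1)).isZero_of_both_zeros ?_ ?_)
  · exact (h0 q (by lia)).eq_of_src _ _
  · exact (isZero_of_isLE T.obj₁ p (q + 1) (by lia)).eq_of_tgt _ _

end M21
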