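import Pool.Agent.H.MP_21b43d_ag.Base

/-!
# M21: sheaves of modules supported at a closed point

* `SuppPt M x`: `M` is zero at all points different from `x`.
* `SuppPt.res_bijective`: for `x` closed the restriction maps between opens containing `x` are
  bijective.
* `exists_hom_of_suppPt`: a linear map between the sections over an affine open neighbourhood of `x`
  comes from a morphism of sheaves.
-/

open CategoryTheory CategoryTheory.Limits AlgebraicGeometry TopologicalSpace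

noncomputable section

namespace M21

variable {X : Scheme.{0}} {M N : X.Modules} {x : X}

/-- `M` is zero outside of the point `x`. -/
def SuppPt (M : X.Modules) (x : X) : Prop := ∀ y, y ≠ x → ZeroAt M y

theorem SuppPt.eq_zero (h : SuppPt M x) {U : X.Opens} (hx : x ∉ U) (s : Γ(M, U)) : s = 0 := by
  refine sec_ext M fun y hy => ?_
  obtain ⟨V, hV, hyV, h1⟩ := h y (fun hyx => hx (hyx ▸ hy)) U hy s
  exact ⟨V, hV, hyV, by rw [h1, res_zero]⟩

theorem SuppPt.res_injective (h : SuppPt M x) {U V : X.Opens} (hV : V ≤ U) (hx : x ∈ V) :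
    Function.Injective (res M hV) := by
  intro s t hst
  refine sec_ext M fun y hy => ?_
  by_cases hyx : y = x
  · subst hyx
    exact ⟨V, hV, hx, hst⟩
  · obtain ⟨W, hW, hyW, h1⟩ := h y hyx U hy (s - t)
    refine ⟨W, hW, hyW, ?_⟩
    rw [res_sub, sub_eq_zero] at h1
    exact h1

theorem SuppPt.res_surjective (h : SuppPt M x) (hcl : IsClosed ({x} : Set X)) {U V : X.Opens}
    (hV : V ≤ U) (hx : x ∈ V) : Function.Surjective (res M hV) := by
  intro s
  let O : X.Opens := ⟨{x}ᶜ, hcl.isOpen_compl⟩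
  have hO : ∀ W : X.Opens, W ≤ O → x ∉ W := fun W hW hxW => (hW hxW) rfl
  obtain ⟨t, ht⟩ := exists_glue M (U := U) (ι := Bool)
    (fun b => Bool.casesOn b (U ⊓ O) V)
    (fun b => by
      cases b with
      | false => exact inf_le_left
      | true => exact hV)
    (by
      intro y hy
      rw [Opens.mem_iSup]
      by_cases hyx : y = x
      · exact ⟨true, by subst hyx; exact hx⟩
      · exact ⟨false, ⟨hy, hyx⟩⟩)
    (fun b => by
      cases b with
      | false => exact 0
      | true => exact s)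
    (by
      intro b b'
      cases b with
      | false =>
        have h1 : x ∉ ((U ⊓ O) ⊓ (Bool.casesOn b' (U ⊓ O) V : X.Opens) : X.Opens) :=
          hO _ (inf_le_left.trans inf_le_right)
        exact (h.eq_zero h1 _).trans (h.eq_zero h1 _).symm
      | true =>
        cases b' with
        | false =>
          have h1 : x ∉ (V ⊓ (U ⊓ O) : X.Opens) := hO _ (inf_le_right.trans inf_le_right)
          exact (h.eq_zero h1 _).trans (h.eq_zero h1 _).symm
        | true => rfl)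
  exact ⟨t, ht true⟩

theorem SuppPt.res_bijective (h : SuppPt M x) (hcl : IsClosed ({x} : Set X)) {U V : X.Opens}
    (hV : V ≤ U) (hx : x ∈ V) : Function.Bijective (res M hV) :=
  ⟨h.res_injective hV hx, h.res_surjective hcl hV hx⟩

/-- The relation defining the extension of a map between the sections over `V`. -/
def ExtRel {V : X.Opens} (x : X) (φ : Γ(M, V) → Γ(N, V)) (U : X.Opens) (s : Γ(M, U))
    (t : Γ(N, U)) : Prop :=
  x ∈ U → ∃ (W : X.Opens) (hWU : W ≤ U) (hWV : W ≤ V) (m : Γ(M, V)), x ∈ W ∧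
    res M hWV m = res M hWU s ∧ res N hWV (φ m) = res N hWU t

theorem ExtRel.unique (hM : SuppPt M x) (hN : SuppPt N x) {V : X.Opens}
    {φ : Γ(M, V) → Γ(N, V)} {U : X.Opens} {s : Γ(M, U)} {t t' : Γ(N, U)}
    (h : ExtRel x φ U s t) (h' : ExtRel x φ U s t') : t = t' := by
  by_cases hx : x ∈ U
  · obtain ⟨W, hWU, hWV, m, hxW, h1, h2⟩ := h hx
    obtain ⟨W', hWU', hWV', m', hxW', h1', h2'⟩ := h' hx
    have hxx : x ∈ W ⊓ W' := ⟨hxW, hxW'⟩
    have hm : m = m' := by
      apply hM.res_injective (inf_le_left.trans hWV : W ⊓ W' ≤ V) hxx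
      rw [← res_res hWV inf_le_left, h1, res_res, ← res_res hWV' inf_le_right, h1', res_res]
    subst hm
    apply hN.res_injective (inf_le_left.trans hWU : W ⊓ W' ≤ U) hxx
    rw [← res_res hWU inf_le_left, ← h2, res_res, ← res_res hWU' inf_le_right, ← h2', res_res]
  · rw [hN.eq_zero hx t, hN.eq_zero hx t']

theorem ExtRel.exists (hcl : IsClosed ({x} : Set X)) (hM : SuppPt M x) (hN : SuppPt N x)
    {V : X.Opens} (hxV : x ∈ V) (φ : Γ(M, V) → Γ(N, V)) {U : X.Opens} (s : Γ(M, U)) :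
    ∃ t : Γ(N, U), ExtRel x φ U s t := by
  by_cases hx : x ∈ U
  · have hxx : x ∈ U ⊓ V := ⟨hx, hxV⟩
    obtain ⟨m, hm⟩ := hM.res_surjective hcl (inf_le_right : U ⊓ V ≤ V) hxx (res M inf_le_left s)
    obtain ⟨t, ht⟩ := hN.res_surjective hcl (inf_le_left : U ⊓ V ≤ U) hxx
      (res N inf_le_right (φ m))
    exact ⟨t, fun _ => ⟨U ⊓ V, inf_le_left, inf_le_right, m, hxx, hm, ht.symm⟩⟩
  · exact ⟨0, fun h => absurd h hx⟩

theorem ExtRel.add {V : X.Opens} {φ : Γ(M, V) → Γ(N, V)}
    (hφ : ∀ m m', φ (m + m') = φ m + φ m') {U : X.Opens}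
    {s s' : Γ(M, U)} {t t' : Γ(N, U)} (h : ExtRel x φ U s t) (h' : ExtRel x φ U s' t') :
    ExtRel x φ U (s + s') (t + t') := by
  intro hx
  obtain ⟨W, hWU, hWV, m, hxW, h1, h2⟩ := h hx
  obtain ⟨W', hWU', hWV', m', hxW', h1', h2'⟩ := h' hx
  refine ⟨W ⊓ W', inf_le_left.trans hWU, inf_le_left.trans hWV, m + m', ⟨hxW, hxW'⟩, ?_, ?_⟩
  · rw [res_add, res_add, ← res_res hWV inf_le_left m, h1, res_res,
      ← res_res hWV' inf_le_right m', h1', res_res]
  · rw [hφ, res_add, res_add, ← res_res hWV inf_le_left (φ m), h2, res_res,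
      ← res_res hWV' inf_le_right (φ m'), h2', res_res]

theorem ExtRel.restr {V : X.Opens} {φ : Γ(M, V) → Γ(N, V)} {U U' : X.Opens} (hU : U' ≤ U)
    {s : Γ(M, U)} {t : Γ(N, U)} (h : ExtRel x φ U s t) :
    ExtRel x φ U' (res M hU s) (res N hU t) := by
  intro hx
  obtain ⟨W, hWU, hWV, m, hxW, h1, h2⟩ := h (hU hx)
  refine ⟨W ⊓ U', inf_le_right, inf_le_left.trans hWV, m, ⟨hxW, hx⟩, ?_, ?_⟩
  · rw [← res_res hWV inf_le_left m, h1, res_res, res_res]
  · rw [← res_res hWV inf_le_left (φ m), h2, res_res, res_res]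

/-- On a smaller affine neighbourhood `D(g)` of `x` in `V` every function is a quotient. -/
theorem exists_basic {V : X.Opens} (hV : IsAffineOpen V) {W : X.Opens} (hxV : x ∈ V)
    (hxW : x ∈ W) (r : Γ(X, W)) :
    ∃ (g a : Γ(X, V)) (n : ℕ) (hW : X.basicOpen g ≤ W), x ∈ X.basicOpen g ∧
      resF (X.basicOpen_le g) g ^ n * resF hW r = resF (X.basicOpen_le g) a := by
  obtain ⟨g, hg, hxg⟩ := hV.exists_basicOpen_le ⟨x, hxW⟩ hxV
  have hloc := hV.isLocalization_basicOpen g
  obtain ⟨⟨a, ⟨_, n, rfl⟩⟩, ha⟩ := IsLocalization.surj (Submonoid.powers g) (resF hg r)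
  refine ⟨g, a, n, hg, hxg, ?_⟩
  simp only at ha
  rw [map_pow] at ha
  rw [mul_comm]
  exact ha

theorem isUnit_resF (V : X.Opens) (g : Γ(X, V)) : IsUnit (resF (X.basicOpen_le g) g) :=
  X.toRingedSpace.isUnit_res_basicOpen g

theorem ExtRel.smul (hcl : IsClosed ({x} : Set X)) {V : X.Opens} (hV : IsAffineOpen V)
    (hxV : x ∈ V) {φ : Γ(M, V) → Γ(N, V)} (hφ : ∀ (a : Γ(X, V)) (m), φ (a • m) = a • φ m)
    (hM : SuppPt M x) {U : X.Opens}
    {s : Γ(M, U)} {t : Γ(N, U)} (r : Γ(X, U)) (h : ExtRel x φ U s t) :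
    ExtRel x φ U (r • s) (r • t) := by
  intro hx
  obtain ⟨W, hWU, hWV, m, hxW, h1, h2⟩ := h hx
  obtain ⟨g, a, n, hgW, hxg, hga⟩ := exists_basic hV hxV hxW (resF hWU r)
  rw [resF_resF] at hga
  have hgU : X.basicOpen g ≤ U := hgW.trans hWU
  have hgV : X.basicOpen g ≤ V := X.basicOpen_le g
  obtain ⟨m', hm'⟩ := hM.res_surjective hcl hgV hxg (res M hgU (r • s))
  have hmg : res M hgV m = res M hgU s := by
    rw [← res_res hWV hgW, h1, res_res]
  have hmg2 : res N hgV (φ m) = res N hgU t := by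
    rw [← res_res hWV hgW, h2, res_res]
  have h3 : g ^ n • m' = a • m := by
    apply hM.res_injective hgV hxg
    rw [res_smul, res_smul, hm', res_smul, hmg, map_pow]
    change resF hgV g ^ n • resF hgU r • _ = resF hgV a • _
    rw [smul_smul]
    congr 1
  refine ⟨X.basicOpen g, hgU, hgV, m', hxg, hm', ?_⟩
  have h4 : g ^ n • φ m' = a • φ m := by rw [← hφ, h3, hφ]
  have h5 : resF hgV g ^ n • res N hgV (φ m') = resF hgV g ^ n • res N hgU (r • t) := by
    have h6 := congrArg (res N hgV) h4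
    rw [res_smul, res_smul, map_pow, hmg2] at h6
    rw [res_smul, smul_smul]
    change resF hgV g ^ n • _ = (resF hgV g ^ n * resF hgU r) • _
    change resF hgV g ^ n • _ = resF hgV a • _ at h6
    rw [h6, hga]
  have hu : IsUnit (resF hgV g ^ n) := (isUnit_resF V g).pow n
  exact hu.smul_left_cancel.mp h5

/-- A linear map between the sections over an affine open neighbourhood `V` of the closed point `x`
of two sheaves supported at `x` comes from a morphism of sheaves. -/
theorem exists_hom_of_suppPt (hcl : IsClosed ({x} : Set X)) (hM : SuppPt M x) (hN : SuppPt N x)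
    {V : X.Opens} (hV : IsAffineOpen V) (hxV : x ∈ V) (φ : Γ(M, V) → Γ(N, V))
    (hadd : ∀ m m', φ (m + m') = φ m + φ m')
    (hsmul : ∀ (a : Γ(X, V)) (m), φ (a • m) = a • φ m) :
    ∃ Φ : M ⟶ N, ∀ m, Φ.app V m = φ m := by
  have hex := fun (U : X.Opens) (s : Γ(M, U)) => ExtRel.exists hcl hM hN hxV φ s
  choose f hf using hex
  refine ⟨mkHom f ?_ ?_ ?_, ?_⟩
  · intro U s t
    exact ExtRel.unique hM hN (hf U (s + t)) (ExtRel.add hadd (hf U s) (hf U t))
  · intro U r s
    exact ExtRel.unique hM hN (hf U (r • s)) (ExtRel.smul hcl hV hxV hsmul hM r (hf U s))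
  · intro U U' h s
    exact ExtRel.unique hM hN (hf U' (res M h s)) (ExtRel.restr h (hf U s))
  · intro m
    rw [mkHom_app]
    refine ExtRel.unique hM hN (hf V m) fun _ => ?_
    exact ⟨V, le_rfl, le_rfl, m, hxV, rfl, rfl⟩

/-- Surjectivity on the sections over one neighbourhood of `x` suffices. -/
theorem epi_of_surjective_suppPt (hcl : IsClosed ({x} : Set X)) (hN : SuppPt N x)
    {V : X.Opens} (hxV : x ∈ V) (Φ : M ⟶ N) (h : Function.Surjective (Φ.app V)) : Epi Φ := by
  refine epi_of_locSurj Φ fun U s y hy => ?_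
  by_cases hyx : y = x
  · subst hyx
    have hxx : y ∈ U ⊓ V := ⟨hy, hxV⟩
    obtain ⟨s', hs'⟩ := hN.res_surjective hcl (inf_le_right : U ⊓ V ≤ V) hxx
      (res N inf_le_left s)
    obtain ⟨m, hm⟩ := h s'
    exact ⟨U ⊓ V, inf_le_left, hxx, res M inf_le_right m, by rw [app_res, hm, hs']⟩
  · have h1 : x ∉ (U ⊓ ⟨{x}ᶜ, hcl.isOpen_compl⟩ : X.Opens) := fun hx => hx.2 rfl
    exact ⟨U ⊓ ⟨{x}ᶜ, hcl.isOpen_compl⟩, inf_le_left, ⟨hy, hyx⟩, 0,
      (app_zero Φ).trans (hN.eq_zero h1 _).symm⟩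

/-- Injectivity on the sections over one neighbourhood of `x` suffices. -/
theorem mono_of_injective_suppPt (hcl : IsClosed ({x} : Set X)) (hM : SuppPt M x)
    (hN : SuppPt N x) {V : X.Opens} (hxV : x ∈ V) (Φ : M ⟶ N)
    (h : Function.Injective (Φ.app V)) : Mono Φ := by
  refine mono_of_injective Φ fun U s s' hss => ?_
  by_cases hx : x ∈ U
  · have hxx : x ∈ U ⊓ V := ⟨hx, hxV⟩
    obtain ⟨m, hm⟩ := hM.res_surjective hcl (inf_le_right : U ⊓ V ≤ V) hxx
      (res M inf_le_left s)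
    obtain ⟨m', hm'⟩ := hM.res_surjective hcl (inf_le_right : U ⊓ V ≤ V) hxx
      (res M inf_le_left s')
    have h1 : m = m' := by
      apply h
      apply hN.res_injective (inf_le_right : U ⊓ V ≤ V) hxx
      rw [← app_res, ← app_res, hm, hm', app_res, app_res, hss]
    apply hM.res_injective (inf_le_left : U ⊓ V ≤ U) hxx
    rw [← hm, ← hm', h1]
  · rw [hM.eq_zero hx s, hM.eq_zero hx s']

/-- If the sections over one neighbourhood of `x` are zero then the sheaf is zero. -/
theorem isZero_of_suppPt (hcl : IsClosed ({x} : Set X)) (hM : SuppPt M x) {V : X.Opens}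
    (hxV : x ∈ V) (h : ∀ m : Γ(M, V), m = 0) : IsZero M := by
  rw [IsZero.iff_id_eq_zero]
  refine hom_ext_app fun U s => ?_
  change s = 0
  by_cases hx : x ∈ U
  · have hxx : x ∈ U ⊓ V := ⟨hx, hxV⟩
    obtain ⟨m, hm⟩ := hM.res_surjective hcl (inf_le_right : U ⊓ V ≤ V) hxx
      (res M inf_le_left s)
    apply hM.res_injective (inf_le_left : U ⊓ V ≤ U) hxx
    rw [← hm, h m, res_zero, res_zero]
  · exact hM.eq_zero hx s

end M21
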