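import Pool.Agent.H.MP_21b43d_ag.B.JSplit

/-!
# M21: the adjunction between extension by zero and restriction

* `jAdj j : jShriek j ⊣ Modules.restrictFunctor j`;
* `derAdj adj : F.mapDerivedCategory ⊣ G.mapDerivedCategory` for an adjunction `adj : F ⊣ G` between
  exact functors;
* `DAdj j : Djs j ⊣ Dres j`.
-/

open CategoryTheory CategoryTheory.Limits CategoryTheory.Pretriangulated AlgebraicGeometry
  TopologicalSpace Opposite
open AlgebraicGeometry.Scheme (Modules)

noncomputable section

namespace M21

section gen

universe w₁ w₂ v₁ v₂ u₁ u₂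

variable {C : Type u₁} [Category.{v₁} C] [Abelian C] [HasDerivedCategory.{w₁} C]
  {D : Type u₂} [Category.{v₂} D] [Abelian D] [HasDerivedCategory.{w₂} D]
  {F : C ⥤ D} [F.Additive] {G : D ⥤ C} [G.Additive]

omit [HasDerivedCategory C] [HasDerivedCategory D] in
/-- The adjunction on complexes. -/
def hcAdj (adj : F ⊣ G) : F.mapHomologicalComplex (ComplexShape.up ℤ) ⊣
    G.mapHomologicalComplex (ComplexShape.up ℤ) :=
  Adjunction.mkOfUnitCounit
    { unit :=
        { app := fun K =>
            { f := fun i => adj.unit.app (K.X i)
              comm' := fun i k _ => (adj.unit.naturality (K.d i k)).symm }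
          naturality := fun K L f => by
            ext i
            exact adj.unit.naturality (f.f i) }
      counit :=
        { app := fun K =>
            { f := fun i => adj.counit.app (K.X i)
              comm' := fun i k _ => (adj.counit.naturality (K.d i k)).symm }
          naturality := fun K L f => by
            ext i
            exact adj.counit.naturality (f.f i) }
      left_triangle := by
        ext K i
        have h := adj.left_triangle_components (K.X i)
        exact (congrArg (fun t => F.map (adj.unit.app (K.X i)) ≫ t) (Category.id_comp _)).trans h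
      right_triangle := by
        ext K i
        have h := adj.right_triangle_components (K.X i)
        exact (congrArg (fun t => adj.unit.app (G.obj (K.X i)) ≫ t) (Category.id_comp _)).trans h }

variable [PreservesFiniteLimits F] [PreservesFiniteColimits F]
  [PreservesFiniteLimits G] [PreservesFiniteColimits G]

/-- The adjunction on derived categories. -/
def derAdj (adj : F ⊣ G) : F.mapDerivedCategory ⊣ G.mapDerivedCategory :=
  letI : CatCommSq (F.mapHomologicalComplex (ComplexShape.up ℤ)) DerivedCategory.Q
    DerivedCategory.Q F.mapDerivedCategory := ⟨F.mapDerivedCategoryFactors.symm⟩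
  letI : CatCommSq (G.mapHomologicalComplex (ComplexShape.up ℤ)) DerivedCategory.Q
    DerivedCategory.Q G.mapDerivedCategory := ⟨G.mapDerivedCategoryFactors.symm⟩
  (hcAdj adj).localization DerivedCategory.Q
    (HomologicalComplex.quasiIso C (ComplexShape.up ℤ)) DerivedCategory.Q
    (HomologicalComplex.quasiIso D (ComplexShape.up ℤ)) F.mapDerivedCategory G.mapDerivedCategory

theorem derAdj_unit_app (adj : F ⊣ G) (K : CochainComplex C ℤ) :
    (derAdj adj).unit.app (DerivedCategory.Q.obj K) =
      DerivedCategory.Q.map ((hcAdj adj).unit.app K) ≫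
        G.mapDerivedCategoryFactors.inv.app
          ((F.mapHomologicalComplex (ComplexShape.up ℤ)).obj K) ≫
          G.mapDerivedCategory.map (F.mapDerivedCategoryFactors.inv.app K) :=
  letI : CatCommSq (F.mapHomologicalComplex (ComplexShape.up ℤ)) DerivedCategory.Q
    DerivedCategory.Q F.mapDerivedCategory := ⟨F.mapDerivedCategoryFactors.symm⟩
  letI : CatCommSq (G.mapHomologicalComplex (ComplexShape.up ℤ)) DerivedCategory.Q
    DerivedCategory.Q G.mapDerivedCategory := ⟨G.mapDerivedCategoryFactors.symm⟩
  (hcAdj adj).localization_unit_app DerivedCategory.Q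
    (HomologicalComplex.quasiIso C (ComplexShape.up ℤ)) DerivedCategory.Q
    (HomologicalComplex.quasiIso D (ComplexShape.up ℤ)) F.mapDerivedCategory
    G.mapDerivedCategory K

theorem derAdj_counit_app (adj : F ⊣ G) (K : CochainComplex D ℤ) :
    (derAdj adj).counit.app (DerivedCategory.Q.obj K) =
      F.mapDerivedCategory.map (G.mapDerivedCategoryFactors.hom.app K) ≫
        F.mapDerivedCategoryFactors.hom.app
          ((G.mapHomologicalComplex (ComplexShape.up ℤ)).obj K) ≫
          DerivedCategory.Q.map ((hcAdj adj).counit.app K) :=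
  letI : CatCommSq (F.mapHomologicalComplex (ComplexShape.up ℤ)) DerivedCategory.Q
    DerivedCategory.Q F.mapDerivedCategory := ⟨F.mapDerivedCategoryFactors.symm⟩
  letI : CatCommSq (G.mapHomologicalComplex (ComplexShape.up ℤ)) DerivedCategory.Q
    DerivedCategory.Q G.mapDerivedCategory := ⟨G.mapDerivedCategoryFactors.symm⟩
  (hcAdj adj).localization_counit_app DerivedCategory.Q
    (HomologicalComplex.quasiIso C (ComplexShape.up ℤ)) DerivedCategory.Q
    (HomologicalComplex.quasiIso D (ComplexShape.up ℤ)) F.mapDerivedCategory
    G.mapDerivedCategory K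

/-- If the unit is an isomorphism, so is the derived unit. -/
theorem isIso_derAdj_unit (adj : F ⊣ G) [IsIso adj.unit] : IsIso (derAdj adj).unit := by
  rw [NatTrans.isIso_iff_isIso_app]
  intro A
  let K := DerivedCategory.Q.objPreimage A
  let e : DerivedCategory.Q.obj K ≅ A := DerivedCategory.Q.objObjPreimageIso A
  refine isIso_app_of_iso (derAdj adj).unit e ?_
  rw [derAdj_unit_app]
  have h1 : IsIso ((hcAdj adj).unit.app K) := by
    have : ∀ i, IsIso (((hcAdj adj).unit.app K).f i) := fun i =>
      (inferInstance : IsIso (adj.unit.app (K.X i)))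
    exact HomologicalComplex.Hom.isIso_of_components _
  infer_instance

end gen

section js

universe u

variable {X W : Scheme.{u}} (j : W ⟶ X) [IsOpenImmersion j]

theorem jShriekRestrict_app (N : W.Modules) (U : W.Opens)
    (s : Γ((Modules.restrictFunctor j).obj ((jShriek j).obj N), U)) :
    ((jShriekRestrict j).hom.app N).app U s =
      res N (j.preimage_image_eq U).ge (jVal (U := j ''ᵁ U) s) := by
  rfl

theorem extHom_jShriek (N : W.Modules) :
    extHom j ((jShriek j).obj N) = (jShriek j).map ((jShriekRestrict j).hom.app N) := by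
  refine hom_ext_app fun U s => ?_
  rw [extHom_app]
  refine extSec_eq _ ⟨?_, ?_⟩
  · refine jVal_injective ?_
    rw [jVal_res, jVal_map]
    let v : Γ((jShriek j).obj N, j ''ᵁ (j ⁻¹ᵁ U)) := jValM (M := (jShriek j).obj N) s
    have h1 : ((jShriekRestrict j).hom.app N).app (j ⁻¹ᵁ U) (jVal s) =
      res N (j.preimage_image_eq (j ⁻¹ᵁ U)).ge (jVal v) := jShriekRestrict_app j N (j ⁻¹ᵁ U) v
    have h2 : res N (j.preimage_mono (j.image_preimage_le U))
        (res N (j.preimage_image_eq (j ⁻¹ᵁ U)).ge (jVal v)) = jVal v :=
      (res_res _ _ _).trans (res_self _ _)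
    rw [h1]
    exact h2
  · intro x hx hxj
    exact suppIn_jShriek j N U _ x hx hxj

theorem restrict_extHom (M : X.Modules) :
    (Modules.restrictFunctor j).map (extHom j M) =
      (jShriekRestrict j).hom.app ((Modules.restrictFunctor j).obj M) := by
  refine hom_ext_app fun U s => ?_
  rw [jShriekRestrict_app]
  let s' : Γ((jShriek j).obj (M.restrict j), j ''ᵁ U) := s
  have h1 : res M (j.image_preimage_le (j ''ᵁ U)) (extSec M (U := j ''ᵁ U) s') =
      jValM (M := M) (U := j ''ᵁ U) s' := (isExt_extSec M (U := j ''ᵁ U) s').res_eq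
  have h2 : res M (j.image_mono (j.preimage_image_eq U).ge)
      (res M (j.image_preimage_le (j ''ᵁ U)) (extSec M (U := j ''ᵁ U) s')) =
      extSec M (U := j ''ᵁ U) s' := (res_res _ _ _).trans (res_self _ _)
  rw [h1] at h2
  exact h2.symm

/-- `j_! ⊣ j^*`. -/
def jAdj : jShriek j ⊣ Modules.restrictFunctor j :=
  Adjunction.mkOfUnitCounit
    { unit := (jShriekRestrict j).inv
      counit := extE j
      left_triangle := by
        refine NatTrans.ext (funext fun N => ?_)
        change (jShriek j).map ((jShriekRestrict j).inv.app N) ≫ 𝟙 _ ≫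
          extHom j ((jShriek j).obj N) = 𝟙 _
        rw [Category.id_comp, extHom_jShriek, ← Functor.map_comp, Iso.inv_hom_id_app]
        exact CategoryTheory.Functor.map_id _ _
      right_triangle := by
        refine NatTrans.ext (funext fun M => ?_)
        change (jShriekRestrict j).inv.app ((Modules.restrictFunctor j).obj M) ≫ 𝟙 _ ≫
          (Modules.restrictFunctor j).map (extHom j M) = 𝟙 _
        rw [Category.id_comp, restrict_extHom]
        exact Iso.inv_hom_id_app _ _ }

end js

variable {X W : Scheme.{0}} (j : W ⟶ X) [IsOpenImmersion j]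

/-- `j_! ⊣ j^*` on derived categories. -/
def DAdj : Djs j ⊣ Dres j := derAdj (jAdj j)

instance : IsIso (DAdj j).unit := by
  have : IsIso (jAdj j).unit := (inferInstance : IsIso (jShriekRestrict j).inv)
  exact isIso_derAdj_unit (jAdj j)

/-- `j_!` is fully faithful. -/
def DjsFullyFaithful : (Djs j).FullyFaithful := (DAdj j).fullyFaithfulLOfIsIsoUnit

instance : (Djs j).Full := (DjsFullyFaithful j).full
instance : (Djs j).Faithful := (DjsFullyFaithful j).faithful

end M21
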