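import Pool.Agent.H.MP_21b43d_ag.B.ModTools

/-!
# M21: extension by zero along an open immersion

`jShriek j : W.Modules ⥤ X.Modules` is the subsheaf of `j_* N` of the sections which vanish near
every point outside of the image of `j`.  It is additive and exact, `j^* j_! = id`
(`jShriekRestrict`), and there is a natural transformation `extE j : j_! j^* ⟶ id` (extension by
zero), which is an isomorphism on the modules all of whose sections vanish near the complement of the
image of `j` (`isIso_extE`).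
-/

open CategoryTheory CategoryTheory.Limits AlgebraicGeometry TopologicalSpace Opposite
open AlgebraicGeometry.Scheme (Modules)

noncomputable section

universe u

namespace M21

variable {X W : Scheme.{u}} (j : W ⟶ X) [IsOpenImmersion j]

/-- The sections of `j_* N` which vanish near every point outside of the image of `j`. -/
def van (N : W.Modules) : LocSub ((Modules.pushforward j).obj N) where
  mem {U} s := ∀ x ∈ U, x ∉ j.opensRange → ∃ (V : X.Opens) (hV : V ≤ U), x ∈ V ∧
    res ((Modules.pushforward j).obj N) hV s = 0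
  zero' U := fun x hx _ => ⟨U, le_rfl, hx, res_zero _⟩
  add' {U s t} hs ht := by
    intro x hx hxj
    obtain ⟨V, hV, hxV, h1⟩ := hs x hx hxj
    obtain ⟨V', hV', hxV', h2⟩ := ht x hx hxj
    refine ⟨V ⊓ V', inf_le_left.trans hV, ⟨hxV, hxV'⟩, ?_⟩
    rw [res_add, ← res_res hV inf_le_left, ← res_res hV' inf_le_right, h1, h2, res_zero, res_zero,
      add_zero]
  smul' {U} r s hs := by
    intro x hx hxj
    obtain ⟨V, hV, hxV, h1⟩ := hs x hx hxj
    exact ⟨V, hV, hxV, by rw [res_smul, h1, smul_zero]⟩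
  res' {U V} h s hs := by
    intro x hx hxj
    obtain ⟨V', hV', hxV', h1⟩ := hs x (h hx) hxj
    refine ⟨V' ⊓ V, inf_le_right, ⟨hxV', hx⟩, ?_⟩
    rw [res_res, ← res_res hV' inf_le_left, h1, res_zero]
  loc' {U} s hs := by
    intro x hx hxj
    obtain ⟨V, hV, hxV, h1⟩ := hs x hx
    obtain ⟨V', hV', hxV', h2⟩ := h1 x hxV hxj
    exact ⟨V', hV'.trans hV, hxV', by rw [← h2, res_res]⟩

/-- The section `s` of `N` vanishes near every point of `U` outside of the image of `j`. -/
def Van (N : W.Modules) (U : X.Opens) (s : Γ(N, j ⁻¹ᵁ U)) : Prop :=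
  ∀ x ∈ U, x ∉ j.opensRange → ∃ (V : X.Opens) (hV : V ≤ U), x ∈ V ∧
    res N (j.preimage_mono hV) s = 0

theorem Van.of_le_range {N : W.Modules} {U : X.Opens} (hU : U ≤ j.opensRange)
    (s : Γ(N, j ⁻¹ᵁ U)) : Van j N U s :=
  fun _ hx hxj => absurd (hU hx) hxj

theorem van_map {N N' : W.Modules} (φ : N ⟶ N') {U : X.Opens}
    {s : Γ((Modules.pushforward j).obj N, U)} (hs : (van j N).mem s) :
    (van j N').mem (((Modules.pushforward j).map φ).app U s) := by
  intro x hx hxj
  obtain ⟨V, hV, hxV, h1⟩ := hs x hx hxj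
  exact ⟨V, hV, hxV, by rw [← app_res, h1, app_zero]⟩

/-- The action of `j_!` on morphisms. -/
def jShriekMap {N N' : W.Modules} (φ : N ⟶ N') : (van j N).sheaf ⟶ (van j N').sheaf :=
  (van j N').lift ((van j N).incl ≫ (Modules.pushforward j).map φ)
    (fun _ s => van_map j φ ((van j N).mem_incl s))

theorem jShriekMap_incl {N N' : W.Modules} (φ : N ⟶ N') :
    jShriekMap j φ ≫ (van j N').incl = (van j N).incl ≫ (Modules.pushforward j).map φ :=
  LocSub.lift_incl _ _ _

theorem jShriekMap_app {N N' : W.Modules} (φ : N ⟶ N') {U : X.Opens} (s : Γ((van j N).sheaf, U)) :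
    (van j N').incl.app U ((jShriekMap j φ).app U s) =
      ((Modules.pushforward j).map φ).app U ((van j N).incl.app U s) := rfl

/-- Extension by zero `j_!`. -/
def jShriek : W.Modules ⥤ X.Modules where
  obj N := (van j N).sheaf
  map φ := jShriekMap j φ
  map_id N := hom_ext_app fun U _ => (van j N).incl_injective U rfl
  map_comp {_ _ N''} _ _ := hom_ext_app fun U _ => (van j N'').incl_injective U rfl

/-- The inclusion `j_! N ⟶ j_* N`. -/
def jIncl : jShriek j ⟶ Modules.pushforward j where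
  app N := (van j N).incl
  naturality _ _ _ := LocSub.lift_incl _ _ _

variable {j}

/-- The section of `N` over `j ⁻¹ᵁ U` given by a section of `j_! N` over `U`. -/
def jVal {N : W.Modules} {U : X.Opens} (s : Γ((jShriek j).obj N, U)) : Γ(N, j ⁻¹ᵁ U) :=
  (van j N).incl.app U s

/-- The section of `j_! N` over `U` given by a section of `N` over `j ⁻¹ᵁ U`. -/
def jSec {N : W.Modules} {U : X.Opens} (s : Γ(N, j ⁻¹ᵁ U)) (hs : Van j N U s) :
    Γ((jShriek j).obj N, U) := (van j N).sec (U := U) s hs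

theorem jVal_injective {N : W.Modules} {U : X.Opens} {s t : Γ((jShriek j).obj N, U)}
    (h : jVal s = jVal t) : s = t := (van j N).incl_injective U h

theorem jVal_sec {N : W.Modules} {U : X.Opens} (s : Γ(N, j ⁻¹ᵁ U)) (hs : Van j N U s) :
    jVal (jSec s hs) = s := rfl

theorem van_jVal {N : W.Modules} {U : X.Opens} (s : Γ((jShriek j).obj N, U)) :
    Van j N U (jVal s) := (van j N).mem_incl s

theorem jVal_res {N : W.Modules} {U V : X.Opens} (h : V ≤ U) (s : Γ((jShriek j).obj N, U)) :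
    jVal (res _ h s) = res N (j.preimage_mono h) (jVal s) := rfl

theorem jVal_zero {N : W.Modules} {U : X.Opens} : jVal (0 : Γ((jShriek j).obj N, U)) = 0 := rfl

theorem jVal_add {N : W.Modules} {U : X.Opens} (s t : Γ((jShriek j).obj N, U)) :
    jVal (s + t) = jVal s + jVal t := rfl

theorem jVal_smul {N : W.Modules} {U : X.Opens} (r : Γ(X, U)) (s : Γ((jShriek j).obj N, U)) :
    jVal (r • s) = (j.app U r) • jVal s := rfl

theorem jVal_map {N N' : W.Modules} (φ : N ⟶ N') {U : X.Opens} (s : Γ((jShriek j).obj N, U)) :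
    jVal (((jShriek j).map φ).app U s) = φ.app (j ⁻¹ᵁ U) (jVal s) := rfl

variable (j)

instance : (jShriek j).Additive where
  map_add := hom_ext_app fun _ _ => jVal_injective rfl

theorem jShriek_lift {N₁ N₂ N₃ : W.Modules} (f : N₁ ⟶ N₂) (g : N₂ ⟶ N₃)
    (h : ∀ (U : W.Opens) (s : Γ(N₂, U)), g.app U s = 0 → ∀ x ∈ U,
      ∃ (V : W.Opens) (hV : V ≤ U), x ∈ V ∧ ∃ t : Γ(N₁, V), f.app V t = res N₂ hV s)
    (U : X.Opens) (s : Γ((jShriek j).obj N₂, U)) (hs : ((jShriek j).map g).app U s = 0)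
    (x : X) (hx : x ∈ U) :
    ∃ (V : X.Opens) (hV : V ≤ U), x ∈ V ∧ ∃ t : Γ((jShriek j).obj N₁, V),
      ((jShriek j).map f).app V t = res _ hV s := by
  have hs' : g.app (j ⁻¹ᵁ U) (jVal s) = 0 := by
    rw [← jVal_map, hs, jVal_zero]
  by_cases hxj : x ∈ j.opensRange
  · obtain ⟨w, rfl⟩ := hxj
    obtain ⟨V, hV, hwV, t, ht⟩ := h (j ⁻¹ᵁ U) (jVal s) hs' w hx
    have h1 : j ''ᵁ V ≤ U := (j.image_mono hV).trans (j.image_preimage_le U)
    have h2 : j ⁻¹ᵁ (j ''ᵁ V) = V := j.preimage_image_eq V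
    have h3 : j ''ᵁ V ≤ j.opensRange := by
      intro y hy
      obtain ⟨v, _, rfl⟩ := hy
      exact ⟨v, rfl⟩
    refine ⟨j ''ᵁ V, h1, ⟨w, hwV, rfl⟩,
      jSec (U := j ''ᵁ V) (res N₁ h2.le t) (Van.of_le_range j h3 _), jVal_injective ?_⟩
    rw [jVal_map, jVal_sec, app_res, ht, res_res, jVal_res]
  · obtain ⟨V, hV, hxV, h1⟩ := van_jVal s x hx hxj
    refine ⟨V, hV, hxV, 0, jVal_injective ?_⟩
    rw [app_zero, jVal_zero, jVal_res, h1]

theorem jShriek_exact (S : ShortComplex W.Modules) (hS : S.Exact) :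
    (S.map (jShriek j)).Exact := by
  rw [exact_iff_lift] at hS ⊢
  exact jShriek_lift j S.f S.g hS

theorem jShriek_exact' :
    PreservesFiniteLimits (jShriek j) ∧ PreservesFiniteColimits (jShriek j) := by
  have h : ∀ S : ShortComplex W.Modules, S.Exact → (S.map (jShriek j)).Exact := jShriek_exact j
  exact ((jShriek j).exact_tfae.out 1 3).mp h

instance : PreservesFiniteLimits (jShriek j) := (jShriek_exact' j).1

instance : PreservesFiniteColimits (jShriek j) := (jShriek_exact' j).2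

/-! ### `j^* j_! = id` -/

theorem image_le_opensRange (U : W.Opens) : j ''ᵁ U ≤ j.opensRange := by
  intro y hy
  obtain ⟨v, _, rfl⟩ := hy
  exact ⟨v, rfl⟩

instance isIso_restrict_jIncl (N : W.Modules) :
    IsIso ((Modules.restrictFunctor j).map ((jIncl j).app N)) := by
  refine isIso_of_bijective _ fun U => ⟨?_, ?_⟩
  · exact (van j N).incl_injective (j ''ᵁ U)
  · intro s
    exact ⟨jSec (U := j ''ᵁ U) s (Van.of_le_range j (image_le_opensRange j U) _), rfl⟩

instance isIso_whisker_jIncl : IsIso (Functor.whiskerRight (jIncl j) (Modules.restrictFunctor j)) := by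
  rw [NatTrans.isIso_iff_isIso_app]
  intro N
  exact isIso_restrict_jIncl j N

/-- `j^* j_! ≅ id`. -/
def jShriekRestrict : jShriek j ⋙ Modules.restrictFunctor j ≅ 𝟭 W.Modules :=
  asIso (Functor.whiskerRight (jIncl j) (Modules.restrictFunctor j)) ≪≫
    asIso (Modules.restrictAdjunction j).counit

/-! ### extension by zero of sections of a module on `X` -/

theorem mem_image_preimage {U : X.Opens} {x : X} (hx : x ∈ U) (hxj : x ∈ j.opensRange) :
    x ∈ j ''ᵁ (j ⁻¹ᵁ U) := by
  obtain ⟨w, rfl⟩ := hxj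
  exact ⟨w, hx, rfl⟩

/-- `t` is the extension by zero of the section `s` of `M` over the intersection of `U` with the
image of `j`. -/
structure IsExt (M : X.Modules) {U : X.Opens} (s : Γ(M, j ''ᵁ (j ⁻¹ᵁ U))) (t : Γ(M, U)) : Prop where
  res_eq : res M (j.image_preimage_le U) t = s
  van : ∀ x ∈ U, x ∉ j.opensRange → ∃ (V : X.Opens) (hV : V ≤ U), x ∈ V ∧ res M hV t = 0

variable {j}

theorem IsExt.unique {M : X.Modules} {U : X.Opens} {s : Γ(M, j ''ᵁ (j ⁻¹ᵁ U))} {t t' : Γ(M, U)}
    (h : IsExt j M s t) (h' : IsExt j M s t') : t = t' := by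
  refine sec_ext M fun x hx => ?_
  by_cases hxj : x ∈ j.opensRange
  · exact ⟨_, j.image_preimage_le U, mem_image_preimage j hx hxj, by rw [h.res_eq, h'.res_eq]⟩
  · obtain ⟨V, hV, hxV, h1⟩ := h.van x hx hxj
    obtain ⟨V', hV', hxV', h2⟩ := h'.van x hx hxj
    refine ⟨V ⊓ V', inf_le_left.trans hV, ⟨hxV, hxV'⟩, ?_⟩
    rw [← res_res hV inf_le_left, h1, res_zero, ← res_res hV' inf_le_right, h2, res_zero]

theorem exists_isExt (M : X.Modules) {U : X.Opens} (s : Γ(M, j ''ᵁ (j ⁻¹ᵁ U)))
    (hs : ∀ x ∈ U, x ∉ j.opensRange → ∃ (V : X.Opens) (hV : V ≤ U), x ∈ V ∧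
      res M (j.image_mono (j.preimage_mono hV)) s = 0) : ∃ t, IsExt j M s t := by
  classical
  choose V hV hxV hres using hs
  obtain ⟨t, ht⟩ := exists_glue M (U := U)
    (ι := Option {x : X // x ∈ U ∧ x ∉ j.opensRange})
    (fun o => Option.casesOn o (j ''ᵁ (j ⁻¹ᵁ U)) (fun x => V x.1 x.2.1 x.2.2))
    (fun o => by
      cases o with
      | none => exact j.image_preimage_le U
      | some x => exact hV x.1 x.2.1 x.2.2)
    (by
      intro x hx
      rw [Opens.mem_iSup]
      by_cases hxj : x ∈ j.opensRange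
      · exact ⟨none, mem_image_preimage j hx hxj⟩
      · exact ⟨some ⟨x, hx, hxj⟩, hxV x hx hxj⟩)
    (fun o => by
      cases o with
      | none => exact s
      | some x => exact 0)
    (by
      have key : ∀ x : {x : X // x ∈ U ∧ x ∉ j.opensRange},
          res M (inf_le_left : j ''ᵁ (j ⁻¹ᵁ U) ⊓ V x.1 x.2.1 x.2.2 ≤ _) s = 0 := by
        intro x
        have h1 : j ''ᵁ (j ⁻¹ᵁ U) ⊓ V x.1 x.2.1 x.2.2 ≤ j ''ᵁ (j ⁻¹ᵁ (V x.1 x.2.1 x.2.2)) := by
          rintro y ⟨⟨w, _, rfl⟩, hy⟩
          exact ⟨w, hy, rfl⟩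
        rw [← res_res (j.image_mono (j.preimage_mono (hV x.1 x.2.1 x.2.2))) h1, hres, res_zero]
      intro o o'
      cases o with
      | none =>
        cases o' with
        | none => rfl
        | some x' => exact (key x').trans (res_zero _).symm
      | some x =>
        cases o' with
        | none =>
          have h2 : V x.1 x.2.1 x.2.2 ⊓ j ''ᵁ (j ⁻¹ᵁ U) ≤ j ''ᵁ (j ⁻¹ᵁ U) ⊓ V x.1 x.2.1 x.2.2 :=
            le_inf inf_le_right inf_le_left
          have h3 : res M (inf_le_right : V x.1 x.2.1 x.2.2 ⊓ j ''ᵁ (j ⁻¹ᵁ U) ≤ _) s = 0 := by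
            rw [← res_res (inf_le_left : j ''ᵁ (j ⁻¹ᵁ U) ⊓ V x.1 x.2.1 x.2.2 ≤ _) h2, key, res_zero]
          exact (res_zero _).trans h3.symm
        | some x' => exact (res_zero _).trans (res_zero _).symm)
  refine ⟨t, ⟨ht none, fun x hx hxj => ⟨V x hx hxj, hV x hx hxj, hxV x hx hxj, ?_⟩⟩⟩
  exact ht (some ⟨x, hx, hxj⟩)

theorem IsExt.add {M : X.Modules} {U : X.Opens} {s s' : Γ(M, j ''ᵁ (j ⁻¹ᵁ U))} {t t' : Γ(M, U)}
    (h : IsExt j M s t) (h' : IsExt j M s' t') : IsExt j M (s + s') (t + t') where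
  res_eq := by rw [res_add, h.res_eq, h'.res_eq]
  van x hx hxj := by
    obtain ⟨V, hV, hxV, h1⟩ := h.van x hx hxj
    obtain ⟨V', hV', hxV', h2⟩ := h'.van x hx hxj
    refine ⟨V ⊓ V', inf_le_left.trans hV, ⟨hxV, hxV'⟩, ?_⟩
    rw [res_add, ← res_res hV inf_le_left, h1, res_zero, ← res_res hV' inf_le_right, h2, res_zero,
      add_zero]

theorem IsExt.map {M M' : X.Modules} (φ : M ⟶ M') {U : X.Opens} {s : Γ(M, j ''ᵁ (j ⁻¹ᵁ U))}
    {t : Γ(M, U)} (h : IsExt j M s t) : IsExt j M' (φ.app _ s) (φ.app U t) where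
  res_eq := by rw [← app_res, h.res_eq]
  van x hx hxj := by
    obtain ⟨V, hV, hxV, h1⟩ := h.van x hx hxj
    exact ⟨V, hV, hxV, by rw [← app_res, h1, app_zero]⟩

theorem IsExt.res {M : X.Modules} {U U' : X.Opens} (hU : U' ≤ U) {s : Γ(M, j ''ᵁ (j ⁻¹ᵁ U))}
    {t : Γ(M, U)} (h : IsExt j M s t) :
    IsExt j M (M21.res M (j.image_mono (j.preimage_mono hU)) s) (M21.res M hU t) where
  res_eq := by rw [res_res, ← h.res_eq, res_res]
  van x hx hxj := by
    obtain ⟨V, hV, hxV, h1⟩ := h.van x (hU hx) hxj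
    refine ⟨V ⊓ U', inf_le_right, ⟨hxV, hx⟩, ?_⟩
    rw [res_res, ← res_res hV inf_le_left, h1, res_zero]

theorem IsExt.smul {M : X.Modules} {U : X.Opens} {s : Γ(M, j ''ᵁ (j ⁻¹ᵁ U))}
    {t : Γ(M, U)} (h : IsExt j M s t) (r : Γ(X, U)) :
    IsExt j M (X.presheaf.map (homOfLE (j.image_preimage_le U)).op r • s) (r • t) where
  res_eq := by rw [res_smul, h.res_eq]
  van x hx hxj := by
    obtain ⟨V, hV, hxV, h1⟩ := h.van x hx hxj
    exact ⟨V, hV, hxV, by rw [res_smul, h1, smul_zero]⟩

/-- The value of a section of `j_! j^* M` as a section of `M`. -/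
def jValM {M : X.Modules} {U : X.Opens} (s : Γ((jShriek j).obj (M.restrict j), U)) :
    Γ(M, j ''ᵁ (j ⁻¹ᵁ U)) := jVal s

theorem jValM_injective {M : X.Modules} {U : X.Opens}
    {s t : Γ((jShriek j).obj (M.restrict j), U)} (h : jValM s = jValM t) : s = t :=
  jVal_injective h

theorem jValM_add {M : X.Modules} {U : X.Opens} (s t : Γ((jShriek j).obj (M.restrict j), U)) :
    jValM (s + t) = jValM s + jValM t := rfl

theorem jValM_res {M : X.Modules} {U V : X.Opens} (h : V ≤ U)
    (s : Γ((jShriek j).obj (M.restrict j), U)) :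
    jValM (M21.res _ h s) = M21.res M (j.image_mono (j.preimage_mono h)) (jValM s) := rfl

theorem jValM_map {M M' : X.Modules} (φ : M ⟶ M') {U : X.Opens}
    (s : Γ((jShriek j).obj (M.restrict j), U)) :
    jValM (M := M') (((jShriek j).map ((Modules.restrictFunctor j).map φ)).app U s) =
      φ.app (j ''ᵁ (j ⁻¹ᵁ U)) (jValM s) := rfl

theorem jValM_smul {M : X.Modules} {U : X.Opens} (r : Γ(X, U))
    (s : Γ((jShriek j).obj (M.restrict j), U)) :
    jValM (r • s) = X.presheaf.map (homOfLE (j.image_preimage_le U)).op r • jValM s := by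
  have h1 : (j.appIso (j ⁻¹ᵁ U)).inv (j.app U r) =
      X.presheaf.map (homOfLE (j.image_preimage_le U)).op r :=
    congr($(j.app_appIso_inv U).hom r)
  rw [← h1]
  rfl

theorem van_jValM {M : X.Modules} {U : X.Opens} (s : Γ((jShriek j).obj (M.restrict j), U)) :
    ∀ x ∈ U, x ∉ j.opensRange → ∃ (V : X.Opens) (hV : V ≤ U), x ∈ V ∧
      M21.res M (j.image_mono (j.preimage_mono hV)) (jValM s) = 0 := van_jVal s

/-- A section of `j_! j^* M`. -/
def jSecM {M : X.Modules} {U : X.Opens} (s : Γ(M, j ''ᵁ (j ⁻¹ᵁ U)))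
    (hs : ∀ x ∈ U, x ∉ j.opensRange → ∃ (V : X.Opens) (hV : V ≤ U), x ∈ V ∧
      M21.res M (j.image_mono (j.preimage_mono hV)) s = 0) :
    Γ((jShriek j).obj (M.restrict j), U) := jSec (U := U) (N := M.restrict j) s hs

theorem jValM_sec {M : X.Modules} {U : X.Opens} (s : Γ(M, j ''ᵁ (j ⁻¹ᵁ U)))
    (hs : ∀ x ∈ U, x ∉ j.opensRange → ∃ (V : X.Opens) (hV : V ≤ U), x ∈ V ∧
      M21.res M (j.image_mono (j.preimage_mono hV)) s = 0) : jValM (jSecM s hs) = s := rfl

/-- The extension by zero of a section of `j_! j^* M`. -/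
def extSec (M : X.Modules) {U : X.Opens} (s : Γ((jShriek j).obj (M.restrict j), U)) : Γ(M, U) :=
  (exists_isExt (j := j) M (U := U) (jValM s) (van_jValM s)).choose

theorem isExt_extSec (M : X.Modules) {U : X.Opens}
    (s : Γ((jShriek j).obj (M.restrict j), U)) : IsExt j M (U := U) (jValM s) (extSec M s) :=
  (exists_isExt (j := j) M (U := U) (jValM s) (van_jValM s)).choose_spec

theorem extSec_eq (M : X.Modules) {U : X.Opens} {s : Γ((jShriek j).obj (M.restrict j), U)}
    {t : Γ(M, U)} (h : IsExt j M (U := U) (jValM s) t) : extSec M s = t :=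
  (isExt_extSec M s).unique h

variable (j)

/-- Extension by zero `j_! j^* M ⟶ M`. -/
def extHom (M : X.Modules) : (jShriek j).obj (M.restrict j) ⟶ M :=
  mkHom (fun _ s => extSec M s)
    (fun U s t => extSec_eq M (by
      rw [jValM_add]; exact (isExt_extSec M s).add (isExt_extSec M t)))
    (fun U r s => extSec_eq M (by
      rw [jValM_smul]; exact (isExt_extSec M s).smul r))
    (fun {U V} h s => extSec_eq M (by
      rw [jValM_res]; exact (isExt_extSec M s).res h))

theorem extHom_app (M : X.Modules) {U : X.Opens} (s : Γ((jShriek j).obj (M.restrict j), U)) :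
    (extHom j M).app U s = extSec M s := rfl

theorem extHom_naturality {M M' : X.Modules} (φ : M ⟶ M') :
    (jShriek j).map ((Modules.restrictFunctor j).map φ) ≫ extHom j M' = extHom j M ≫ φ := by
  refine hom_ext_app fun U s => ?_
  rw [comp_app_apply, comp_app_apply, extHom_app, extHom_app]
  refine extSec_eq M' ?_
  rw [jValM_map]
  exact (isExt_extSec M s).map φ

/-- Extension by zero as a natural transformation. -/
def extE : Modules.restrictFunctor j ⋙ jShriek j ⟶ 𝟭 X.Modules where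
  app M := extHom j M
  naturality _ _ φ := extHom_naturality j φ

theorem extE_app (M : X.Modules) : (extE j).app M = extHom j M := rfl

/-- The condition that all sections of `M` vanish near the complement of the image of `j`. -/
def SuppIn (M : X.Modules) : Prop := ∀ (U : X.Opens) (s : Γ(M, U)), ∀ x ∈ U, x ∉ j.opensRange →
  ∃ (V : X.Opens) (hV : V ≤ U), x ∈ V ∧ M21.res M hV s = 0

theorem isIso_extHom {M : X.Modules} (hM : SuppIn j M) : IsIso (extHom j M) := by
  refine isIso_of_bijective _ fun U => ⟨?_, ?_⟩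
  · intro s s' h
    rw [extHom_app, extHom_app] at h
    refine jValM_injective ?_
    rw [← (isExt_extSec M s).res_eq, ← (isExt_extSec M s').res_eq, h]
  · intro t
    have h1 : ∀ x ∈ U, x ∉ j.opensRange → ∃ (V : X.Opens) (hV : V ≤ U), x ∈ V ∧
        M21.res M (j.image_mono (j.preimage_mono hV)) (M21.res M (j.image_preimage_le U) t) = 0 := by
      intro x hx hxj
      obtain ⟨V, hV, hxV, h2⟩ := hM U t x hx hxj
      refine ⟨V, hV, hxV, ?_⟩
      rw [res_res, ← res_res hV (j.image_preimage_le V), h2, res_zero]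
    refine ⟨jSecM (M21.res M (j.image_preimage_le U) t) h1, ?_⟩
    rw [extHom_app]
    refine extSec_eq M ?_
    rw [jValM_sec]
    exact ⟨rfl, fun x hx hxj => hM U t x hx hxj⟩

/-- The sections of `j_! N` vanish near the complement of the image of `j`. -/
theorem suppIn_jShriek (N : W.Modules) : SuppIn j ((jShriek j).obj N) := by
  intro U s x hx hxj
  obtain ⟨V, hV, hxV, h1⟩ := van_jVal s x hx hxj
  exact ⟨V, hV, hxV, jVal_injective (by rw [jVal_res, h1, jVal_zero])⟩

end M21
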