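import Mathlib

/-!
# M21: tools for sheaves of modules on a scheme, in terms of sections

* `res` : restriction of sections; `sec_ext`, `exists_glue` : the sheaf property;
* `mkHom` : a morphism of `𝒪_X`-modules from maps on sections;
* `subSheaf` : the subsheaf of the sections satisfying a local condition;
* `mono_iff_injective`, `epi_iff_locSurj`, `exact_iff_lift` : mono, epi, exact in terms of sections.
-/

open CategoryTheory CategoryTheory.Limits AlgebraicGeometry TopologicalSpace Opposite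
open AlgebraicGeometry.Scheme (Modules)

noncomputable section

universe u

namespace M21

variable {X : Scheme.{u}} {M N K : X.Modules}

/-- Restriction of sections. -/
def res (M : X.Modules) {U V : X.Opens} (h : V ≤ U) (s : Γ(M, U)) : Γ(M, V) :=
  M.presheaf.map (homOfLE h).op s

theorem res_res {U V V' : X.Opens} (h : V ≤ U) (h' : V' ≤ V) (s : Γ(M, U)) :
    res M h' (res M h s) = res M (h'.trans h) s := by
  unfold res
  rw [← ConcreteCategory.comp_apply, ← Functor.map_comp]; rfl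

theorem res_self {U : X.Opens} (h : U ≤ U) (s : Γ(M, U)) : res M h s = s := by
  unfold res
  have : (homOfLE h).op = 𝟙 (op U) := rfl
  rw [this, M.presheaf.map_id]; rfl

theorem res_add {U V : X.Opens} (h : V ≤ U) (s t : Γ(M, U)) :
    res M h (s + t) = res M h s + res M h t := map_add _ _ _

theorem res_sub {U V : X.Opens} (h : V ≤ U) (s t : Γ(M, U)) :
    res M h (s - t) = res M h s - res M h t := map_sub _ _ _

theorem res_zero {U V : X.Opens} (h : V ≤ U) : res M h (0 : Γ(M, U)) = 0 := map_zero _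

theorem res_smul {U V : X.Opens} (h : V ≤ U) (r : Γ(X, U)) (s : Γ(M, U)) :
    res M h (r • s) = X.presheaf.map (homOfLE h).op r • res M h s :=
  Modules.map_smul M (homOfLE h) r s

theorem app_res (φ : M ⟶ N) {U V : X.Opens} (h : V ≤ U) (s : Γ(M, U)) :
    φ.app V (res M h s) = res N h (φ.app U s) :=
  PresheafOfModules.naturality_apply φ.val (homOfLE h).op s

theorem app_add (φ : M ⟶ N) {U : X.Opens} (s t : Γ(M, U)) :
    φ.app U (s + t) = φ.app U s + φ.app U t := map_add _ _ _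

theorem app_sub (φ : M ⟶ N) {U : X.Opens} (s t : Γ(M, U)) :
    φ.app U (s - t) = φ.app U s - φ.app U t := map_sub _ _ _

theorem app_zero (φ : M ⟶ N) {U : X.Opens} : φ.app U (0 : Γ(M, U)) = 0 := map_zero _

theorem comp_app_apply (φ : M ⟶ N) (ψ : N ⟶ K) {U : X.Opens} (s : Γ(M, U)) :
    (φ ≫ ψ).app U s = ψ.app U (φ.app U s) := rfl

theorem hom_ext_app {φ ψ : M ⟶ N} (h : ∀ (U : X.Opens) (s : Γ(M, U)), φ.app U s = ψ.app U s) :
    φ = ψ := by
  apply Modules.hom_ext
  intro U
  ext s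
  exact h U s

/-- A morphism of `𝒪_X`-modules from compatible maps on sections. -/
def mkHom (f : ∀ U : X.Opens, Γ(M, U) → Γ(N, U)) (hadd : ∀ U s t, f U (s + t) = f U s + f U t)
    (hsmul : ∀ (U : X.Opens) (r : Γ(X, U)) (s : Γ(M, U)), f U (r • s) = r • f U s)
    (hres : ∀ {U V : X.Opens} (h : V ≤ U) (s : Γ(M, U)), f V (res M h s) = res N h (f U s)) :
    M ⟶ N :=
  ⟨PresheafOfModules.homMk
    { app := fun U => AddCommGrpCat.ofHom (AddMonoidHom.mk' (f U.unop) (hadd U.unop))
      naturality := by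
        intro U V i
        ext s
        exact hres (leOfHom i.unop) s }
    (fun U r m => hsmul U.unop r m)⟩

theorem mkHom_app {f : ∀ U : X.Opens, Γ(M, U) → Γ(N, U)} {hadd hsmul hres} (U : X.Opens)
    (s : Γ(M, U)) : (mkHom (M := M) (N := N) f hadd hsmul hres).app U s = f U s := rfl

/-! ### the sheaf property -/

theorem sec_ext (M : X.Modules) {U : X.Opens} {s t : Γ(M, U)}
    (h : ∀ x ∈ U, ∃ (V : X.Opens) (hV : V ≤ U), x ∈ V ∧ res M hV s = res M hV t) : s = t := by
  choose V hV hx hst using h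
  refine TopCat.Sheaf.eq_of_locally_eq' (C := Ab) ⟨M.presheaf, M.isSheaf⟩
    (fun x : U => V x.1 x.2) U (fun x => homOfLE (hV x.1 x.2)) ?_ s t (fun x => hst x.1 x.2)
  intro x hxU
  exact Opens.mem_iSup.mpr ⟨⟨x, hxU⟩, hx x hxU⟩

theorem exists_glue (M : X.Modules) {U : X.Opens} {ι : Type*} (V : ι → X.Opens)
    (hV : ∀ i, V i ≤ U) (hU : U ≤ iSup V) (s : ∀ i, Γ(M, V i))
    (hs : ∀ i i', res M (inf_le_left : V i ⊓ V i' ≤ V i) (s i) =
      res M (inf_le_right : V i ⊓ V i' ≤ V i') (s i')) :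
    ∃ t : Γ(M, U), ∀ i, res M (hV i) t = s i := by
  obtain ⟨t, ht, _⟩ := TopCat.Sheaf.existsUnique_gluing' (C := Ab) ⟨M.presheaf, M.isSheaf⟩
    V U (fun i => homOfLE (hV i)) hU s (fun i i' => hs i i')
  exact ⟨t, ht⟩

/-- Gluing of sections given locally, pointwise version. -/
theorem exists_glue_pt (M : X.Modules) {U : X.Opens} (V : ∀ x ∈ U, X.Opens)
    (hV : ∀ x (hx : x ∈ U), V x hx ≤ U) (hxV : ∀ x (hx : x ∈ U), x ∈ V x hx)
    (s : ∀ x (hx : x ∈ U), Γ(M, V x hx))
    (hs : ∀ x hx y hy, res M (inf_le_left : V x hx ⊓ V y hy ≤ V x hx) (s x hx) =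
      res M (inf_le_right : V x hx ⊓ V y hy ≤ V y hy) (s y hy)) :
    ∃ t : Γ(M, U), ∀ x hx, res M (hV x hx) t = s x hx := by
  obtain ⟨t, ht⟩ := exists_glue M (fun x : U => V x.1 x.2) (fun x => hV x.1 x.2)
    (fun x hx => Opens.mem_iSup.mpr ⟨⟨x, hx⟩, hxV x hx⟩) (fun x => s x.1 x.2)
    (fun x y => hs x.1 x.2 y.1 y.2)
  exact ⟨t, fun x hx => ht ⟨x, hx⟩⟩

/-! ### local subsheaves -/

/-- A local condition on the sections of `M`, stable under sums, multiples and restriction. -/
structure LocSub (M : X.Modules) where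
  mem : ∀ {U : X.Opens}, Γ(M, U) → Prop
  zero' : ∀ U : X.Opens, mem (0 : Γ(M, U))
  add' : ∀ {U : X.Opens} {s t : Γ(M, U)}, mem s → mem t → mem (s + t)
  smul' : ∀ {U : X.Opens} (r : Γ(X, U)) {s : Γ(M, U)}, mem s → mem (r • s)
  res' : ∀ {U V : X.Opens} (h : V ≤ U) {s : Γ(M, U)}, mem s → mem (res M h s)
  loc' : ∀ {U : X.Opens} (s : Γ(M, U)),
    (∀ x ∈ U, ∃ (V : X.Opens) (hV : V ≤ U), x ∈ V ∧ mem (res M hV s)) → mem s

namespace LocSub

variable (S : LocSub M)

/-- The family of submodules. -/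
def toSub : M.val.Submodule where
  obj U :=
    { carrier := {s | S.mem (U := U.unop) s}
      add_mem' := fun hs ht => S.add' hs ht
      zero_mem' := S.zero' U.unop
      smul_mem' := fun r _ hs => S.smul' (U := _) r hs }
  map f := fun _ hs => S.res' (leOfHom f.unop) hs

theorem isSheaf_toSub :
    Presheaf.IsSheaf (Opens.grothendieckTopology X) S.toSub.toPresheafOfModules.presheaf := by
  have hN : TopCat.Presheaf.IsSheaf M.presheaf := M.isSheaf
  change TopCat.Presheaf.IsSheaf S.toSub.toPresheafOfModules.presheaf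
  rw [TopCat.Presheaf.isSheaf_iff_isSheafUniqueGluing]
  intro ι U sf hsf
  let tf : ∀ i, ToType (M.presheaf.obj (op (U i))) := fun i => (sf i).1
  have htf : TopCat.Presheaf.IsCompatible M.presheaf U tf :=
    fun i i' => congrArg Subtype.val (hsf i i')
  obtain ⟨t, ht, htu⟩ := hN.isSheafUniqueGluing U tf htf
  have hmem : S.mem (U := iSup U) t := by
    refine S.loc' t fun x hx => ?_
    obtain ⟨i, hi⟩ := TopologicalSpace.Opens.mem_iSup.mp hx
    refine ⟨U i, le_iSup U i, hi, ?_⟩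
    have h1 : S.mem (U := U i) (tf i) := (sf i).2
    have h2 : res M (le_iSup U i) t = tf i := ht i
    rw [h2]; exact h1
  refine ⟨⟨t, hmem⟩, fun i => Subtype.ext (ht i), fun s hs => Subtype.ext ?_⟩
  exact htu s.1 fun i => congrArg Subtype.val (hs i)

/-- The subsheaf of the sections satisfying the condition. -/
def sheaf : X.Modules := ⟨S.toSub.toPresheafOfModules, S.isSheaf_toSub⟩

/-- The inclusion. -/
def incl : S.sheaf ⟶ M := ⟨S.toSub.ι⟩

theorem incl_injective (U : X.Opens) : Function.Injective (S.incl.app U) :=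
  fun _ _ h => Subtype.ext h

theorem mem_incl {U : X.Opens} (s : Γ(S.sheaf, U)) : S.mem (S.incl.app U s) := s.2

/-- A section of the subsheaf. -/
def sec {U : X.Opens} (s : Γ(M, U)) (hs : S.mem s) : Γ(S.sheaf, U) := ⟨s, hs⟩

theorem incl_sec {U : X.Opens} (s : Γ(M, U)) (hs : S.mem s) : S.incl.app U (S.sec s hs) = s := rfl

/-- Lift of a morphism whose values satisfy the condition. -/
def lift (φ : K ⟶ M) (h : ∀ (U : X.Opens) (s : Γ(K, U)), S.mem (φ.app U s)) : K ⟶ S.sheaf :=
  mkHom (fun U s => S.sec (φ.app U s) (h U s))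
    (fun U s t => S.incl_injective U (by
      rw [incl_sec, app_add, app_add, incl_sec, incl_sec]))
    (fun U r s => S.incl_injective U (by
      rw [incl_sec, Modules.Hom.app_smul, Modules.Hom.app_smul, incl_sec]))
    (fun {U V} hV s => S.incl_injective V (by
      rw [incl_sec, app_res, app_res, incl_sec]))

theorem lift_incl (φ : K ⟶ M) (h : ∀ (U : X.Opens) (s : Γ(K, U)), S.mem (φ.app U s)) :
    S.lift φ h ≫ S.incl = φ := hom_ext_app fun _ _ => rfl

end LocSub

/-! ### mono, epi, exactness -/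

theorem injective_of_mono (φ : M ⟶ N) [Mono φ] (U : X.Opens) :
    Function.Injective (φ.app U) := by
  have h1 : Mono ((Modules.toPresheaf X).map φ) := inferInstance
  have h2 : Mono (((Modules.toPresheaf X).map φ).app (op U)) := inferInstance
  exact (AddCommGrpCat.mono_iff_injective _).mp h2

theorem mono_of_injective (φ : M ⟶ N) (h : ∀ U : X.Opens, Function.Injective (φ.app U)) :
    Mono φ := by
  refine ⟨fun α β hαβ => hom_ext_app fun U s => h U ?_⟩
  rw [← comp_app_apply, ← comp_app_apply, hαβ]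

theorem mono_iff_injective (φ : M ⟶ N) :
    Mono φ ↔ ∀ U : X.Opens, Function.Injective (φ.app U) :=
  ⟨fun _ U => injective_of_mono φ U, mono_of_injective φ⟩

/-- Every section of the target is locally in the image. -/
def LocSurj (φ : M ⟶ N) : Prop := ∀ (U : X.Opens) (s : Γ(N, U)), ∀ x ∈ U,
  ∃ (V : X.Opens) (hV : V ≤ U), x ∈ V ∧ ∃ t : Γ(M, V), φ.app V t = res N hV s

theorem isIso_of_bijective (φ : M ⟶ N) (h : ∀ U : X.Opens, Function.Bijective (φ.app U)) :
    IsIso φ := by
  rw [Modules.Hom.isIso_iff_isIso_app]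
  intro U
  exact (ConcreteCategory.isIso_iff_bijective _).mpr (h U)

/-- The subsheaf of the sections which are locally in the image of `φ`. -/
def imSub (φ : M ⟶ N) : LocSub N where
  mem {U} s := ∀ x ∈ U, ∃ (V : X.Opens) (hV : V ≤ U), x ∈ V ∧ ∃ t : Γ(M, V), φ.app V t = res N hV s
  zero' U := fun x hx => ⟨U, le_rfl, hx, 0, by rw [app_zero, res_zero]⟩
  add' {U s t} hs ht := by
    intro x hx
    obtain ⟨V, hV, hxV, a, ha⟩ := hs x hx
    obtain ⟨V', hV', hxV', a', ha'⟩ := ht x hx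
    refine ⟨V ⊓ V', inf_le_left.trans hV, ⟨hxV, hxV'⟩,
      res M inf_le_left a + res M inf_le_right a', ?_⟩
    rw [app_add, app_res, app_res, ha, ha', res_res, res_res, res_add]
  smul' {U} r s hs := by
    intro x hx
    obtain ⟨V, hV, hxV, a, ha⟩ := hs x hx
    refine ⟨V, hV, hxV, X.presheaf.map (homOfLE hV).op r • a, ?_⟩
    rw [Modules.Hom.app_smul, ha, res_smul]
  res' {U V} h s hs := by
    intro x hx
    obtain ⟨V', hV', hxV', a, ha⟩ := hs x (h hx)
    refine ⟨V' ⊓ V, inf_le_right, ⟨hxV', hx⟩, res M inf_le_left a, ?_⟩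
    rw [app_res, ha, res_res, res_res]
  loc' {U} s hs := by
    intro x hx
    obtain ⟨V, hV, hxV, h1⟩ := hs x hx
    obtain ⟨V', hV', hxV', a, ha⟩ := h1 x hxV
    exact ⟨V', hV'.trans hV, hxV', a, by rw [ha, res_res]⟩

theorem epi_of_locSurj (φ : M ⟶ N) (h : LocSurj φ) : Epi φ := by
  refine ⟨fun {Q} α β hαβ => hom_ext_app fun U s => sec_ext Q fun x hx => ?_⟩
  obtain ⟨V, hV, hxV, t, ht⟩ := h U s x hx
  refine ⟨V, hV, hxV, ?_⟩
  rw [← app_res, ← app_res, ← ht, ← comp_app_apply, ← comp_app_apply, hαβ]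

theorem locSurj_of_epi (φ : M ⟶ N) [Epi φ] : LocSurj φ := by
  have hmem : ∀ (U : X.Opens) (s : Γ(M, U)), (imSub φ).mem (φ.app U s) := by
    intro U s x hx
    exact ⟨U, le_rfl, hx, s, by rw [res_self]⟩
  have h1 : (imSub φ).lift φ hmem ≫ (imSub φ).incl = φ := (imSub φ).lift_incl φ hmem
  have h2 : Epi (imSub φ).incl := by
    have : Epi ((imSub φ).lift φ hmem ≫ (imSub φ).incl) := by rw [h1]; infer_instance
    exact epi_of_epi ((imSub φ).lift φ hmem) _
  have h3 : Mono (imSub φ).incl := mono_of_injective _ (imSub φ).incl_injective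
  have h4 : IsIso (imSub φ).incl := isIso_of_mono_of_epi _
  intro U s x hx
  have h5 : IsIso ((imSub φ).incl.app U) := inferInstance
  obtain ⟨s', hs'⟩ := ((ConcreteCategory.isIso_iff_bijective _).mp h5).2 s
  have h6 := (imSub φ).mem_incl s'
  rw [hs'] at h6
  exact h6 x hx

theorem epi_iff_locSurj (φ : M ⟶ N) : Epi φ ↔ LocSurj φ :=
  ⟨fun _ => locSurj_of_epi φ, epi_of_locSurj φ⟩

/-- The subsheaf of the sections killed by `φ`. -/
def kerSub (φ : M ⟶ N) : LocSub M where
  mem {U} s := φ.app U s = 0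
  zero' U := app_zero φ
  add' {U s t} hs ht := by rw [app_add, hs, ht, add_zero]
  smul' {U} r s hs := by rw [Modules.Hom.app_smul, hs, smul_zero]
  res' {U V} h s hs := by rw [app_res, hs, res_zero]
  loc' {U} s hs := by
    refine sec_ext N fun x hx => ?_
    obtain ⟨V, hV, hxV, h1⟩ := hs x hx
    exact ⟨V, hV, hxV, by rw [← app_res, h1, res_zero]⟩

/-- Sections killed by `φ` come from the kernel. -/
theorem exists_kernel_ι (φ : M ⟶ N) {U : X.Opens} (s : Γ(M, U)) (hs : φ.app U s = 0) :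
    ∃ t : Γ(kernel φ, U), (kernel.ι φ).app U t = s := by
  have h0 : (kerSub φ).incl ≫ φ = 0 := hom_ext_app fun U s => (kerSub φ).mem_incl s
  refine ⟨(kernel.lift φ (kerSub φ).incl h0).app U ((kerSub φ).sec s hs), ?_⟩
  rw [← comp_app_apply, kernel.lift_ι]
  rfl

theorem kernel_ι_app (φ : M ⟶ N) {U : X.Opens} (t : Γ(kernel φ, U)) :
    φ.app U ((kernel.ι φ).app U t) = 0 := by
  rw [← comp_app_apply, kernel.condition]; rfl

/-- Exactness in terms of sections. -/
theorem exact_iff_lift (S : ShortComplex X.Modules) :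
    S.Exact ↔ ∀ (U : X.Opens) (s : Γ(S.X₂, U)), S.g.app U s = 0 → ∀ x ∈ U,
      ∃ (V : X.Opens) (hV : V ≤ U), x ∈ V ∧ ∃ t : Γ(S.X₁, V), S.f.app V t = res S.X₂ hV s := by
  rw [S.exact_iff_epi_kernel_lift, epi_iff_locSurj]
  have key : ∀ (V : X.Opens) (t : Γ(S.X₁, V)),
      (kernel.ι S.g).app V ((kernel.lift S.g S.f S.zero).app V t) = S.f.app V t := by
    intro V t
    rw [← comp_app_apply, kernel.lift_ι]
  constructor
  · intro h U s hs x hx
    obtain ⟨s', hs'⟩ := exists_kernel_ι S.g s hs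
    obtain ⟨V, hV, hxV, t, ht⟩ := h U s' x hx
    refine ⟨V, hV, hxV, t, ?_⟩
    rw [← key, ht, app_res, hs']
  · intro h U s' x hx
    obtain ⟨V, hV, hxV, t, ht⟩ := h U ((kernel.ι S.g).app U s') (kernel_ι_app S.g s') x hx
    refine ⟨V, hV, hxV, t, injective_of_mono (kernel.ι S.g) V ?_⟩
    rw [key, ht, app_res]

end M21
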