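import Pool.Agent.H.MP_21b43d_ag.Base

/-!
# M21: quasi-coherence in the explicit form; closure properties; sections over affine opens
-/

open CategoryTheory CategoryTheory.Limits AlgebraicGeometry TopologicalSpace Opposite
open AlgebraicGeometry.Scheme (Modules)

noncomputable section

namespace M21

variable {X : Scheme.{0}} {M N K : X.Modules}

theorem res_pow_smul {U V : X.Opens} (h : V ≤ U) (f : Γ(X, U)) (n : ℕ) (s : Γ(M, U)) :
    res M h (f ^ n • s) = resF h f ^ n • res M h s := by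
  rw [res_smul, map_pow]

/-- In a left exact sequence, sections killed by the second map come from the first module. -/
theorem exists_of_app_eq_zero (S : ShortComplex X.Modules) (hS : S.Exact) [Mono S.f]
    {U : X.Opens} (s : Γ(S.X₂, U)) (hs : S.g.app U s = 0) : ∃ t : Γ(S.X₁, U), S.f.app U t = s := by
  obtain ⟨t, ht⟩ := exists_kernel_ι S.g s hs
  have h1 : hS.lift (kernel.ι S.g) (kernel.condition S.g) ≫ S.f = kernel.ι S.g := hS.lift_f _ _
  refine ⟨(hS.lift (kernel.ι S.g) (kernel.condition S.g)).app U t, ?_⟩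
  rw [← comp_app_apply, h1, ht]

theorem zero_app_apply (S : ShortComplex X.Modules) {U : X.Opens} (t : Γ(S.X₁, U)) :
    S.g.app U (S.f.app U t) = 0 := by
  rw [← comp_app_apply, S.zero]; rfl

/-- Kernels of quasi-coherent modules are quasi-coherent. -/
theorem QC.of_left (S : ShortComplex X.Modules) (hS : S.Exact) [Mono S.f] (h2 : QC S.X₂)
    (h3 : QC S.X₃) : QC S.X₁ where
  tors V hV f s hs := by
    obtain ⟨n, hn⟩ := h2.tors V hV f (S.f.app V s) (by rw [← app_res, hs, app_zero])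
    refine ⟨n, injective_of_mono S.f V ?_⟩
    rw [Modules.Hom.app_smul, hn, app_zero]
  ext V hV f t := by
    obtain ⟨n, s, hs⟩ := h2.ext V hV f (S.f.app _ t)
    obtain ⟨m, hm⟩ := h3.tors V hV f (S.g.app V s) (by
      rw [← app_res, hs, Modules.Hom.app_smul, zero_app_apply, smul_zero])
    obtain ⟨r, hr⟩ := exists_of_app_eq_zero S hS (f ^ m • s) (by
      rw [Modules.Hom.app_smul, hm])
    refine ⟨m + n, r, injective_of_mono S.f _ ?_⟩
    rw [app_res, hr, res_pow_smul, hs, Modules.Hom.app_smul, pow_add, mul_smul]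

theorem QC.tors' (h : QC M) {V W : X.Opens} (hV : IsAffineOpen V) (f : Γ(X, V)) (hWV : W ≤ V)
    (hW : W = X.basicOpen f) (s : Γ(M, V)) (hs : res M hWV s = 0) : ∃ n : ℕ, f ^ n • s = 0 := by
  subst hW; exact h.tors V hV f s hs

theorem QC.ext' (h : QC M) {V W : X.Opens} (hV : IsAffineOpen V) (f : Γ(X, V)) (hWV : W ≤ V)
    (hW : W = X.basicOpen f) (t : Γ(M, W)) :
    ∃ (n : ℕ) (s : Γ(M, V)), res M hWV s = resF hWV f ^ n • t := by
  subst hW; exact h.ext V hV f t

/-- The step of the proof of `surj_of_qc`: a section that lifts over `D(f)` lifts after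
multiplication by a power of `f`. -/
theorem lift_pow_smul (S : ShortComplex X.Modules) (hS : S.ShortExact) (h1 : QC S.X₁)
    {V : X.Opens} (hV : IsAffineOpen V) (n : Γ(S.X₃, V)) (t : Finset Γ(X, V))
    (ht : Ideal.span (t : Set Γ(X, V)) = ⊤)
    (hlift : ∀ g ∈ t, ∃ m : Γ(S.X₂, X.basicOpen g), S.g.app _ m = res S.X₃ (X.basicOpen_le g) n)
    (f : Γ(X, V)) (m : Γ(S.X₂, X.basicOpen f)) (hm : S.g.app _ m = res S.X₃ (X.basicOpen_le f) n) :
    ∃ (a : ℕ) (m' : Γ(S.X₂, V)), S.g.app V m' = f ^ a • n := by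
  classical
  have := hS.mono_f
  have hle : ∀ g : t, X.basicOpen g.1 ≤ V := fun g => X.basicOpen_le g.1
  have hW : ∀ g : t, X.basicOpen g.1 ⊓ X.basicOpen f = X.basicOpen (resF (hle g) f) := fun g =>
    (X.basicOpen_res f (homOfLE (hle g)).op).symm
  -- first step: lifts over `D(g)` which agree with `m` up to a power of `f`
  have step1 : ∀ g : t, ∃ (a : ℕ) (m' : Γ(S.X₂, X.basicOpen g.1)),
      S.g.app _ m' = resF (hle g) f ^ a • res S.X₃ (hle g) n ∧
      res S.X₂ (inf_le_left : X.basicOpen g.1 ⊓ X.basicOpen f ≤ _) m' =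
        resF (inf_le_left.trans (hle g) : X.basicOpen g.1 ⊓ X.basicOpen f ≤ V) f ^ a •
          res S.X₂ (inf_le_right : X.basicOpen g.1 ⊓ X.basicOpen f ≤ _) m := by
    intro g
    obtain ⟨mg, hmg⟩ := hlift g.1 g.2
    obtain ⟨k, hk⟩ := exists_of_app_eq_zero S hS.exact
      (res S.X₂ (inf_le_right : X.basicOpen g.1 ⊓ X.basicOpen f ≤ _) m -
        res S.X₂ (inf_le_left : X.basicOpen g.1 ⊓ X.basicOpen f ≤ _) mg) (by
        rw [app_sub, app_res, app_res, hm, hmg, res_res, res_res, sub_self])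
    obtain ⟨a, k', hk'⟩ := h1.ext' (hV.basicOpen g.1) (resF (hle g) f) inf_le_left (hW g) k
    refine ⟨a, resF (hle g) f ^ a • mg + S.f.app _ k', ?_, ?_⟩
    · rw [app_add, zero_app_apply, add_zero, Modules.Hom.app_smul, hmg]
    · rw [res_add, res_pow_smul, ← app_res, hk', Modules.Hom.app_smul, hk, resF_resF, smul_sub]
      abel
  choose a m' hm' hm'' using step1
  -- uniform exponent
  let A : ℕ := Finset.univ.sup a
  have hA : ∀ g : t, a g ≤ A := fun g => Finset.le_sup (Finset.mem_univ g)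
  obtain ⟨p, hp, hp'⟩ : ∃ p : ∀ g : t, Γ(S.X₂, X.basicOpen g.1),
      (∀ g : t, S.g.app _ (p g) = resF (hle g) f ^ A • res S.X₃ (hle g) n) ∧
      (∀ g : t, res S.X₂ (inf_le_left : X.basicOpen g.1 ⊓ X.basicOpen f ≤ _) (p g) =
        resF (inf_le_left.trans (hle g) : X.basicOpen g.1 ⊓ X.basicOpen f ≤ V) f ^ A •
          res S.X₂ (inf_le_right : X.basicOpen g.1 ⊓ X.basicOpen f ≤ _) m) := by
    refine ⟨fun g => resF (hle g) f ^ (A - a g) • m' g, fun g => ?_, fun g => ?_⟩
    · rw [Modules.Hom.app_smul, hm', smul_smul, ← pow_add, Nat.sub_add_cancel (hA g)]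
    · rw [res_pow_smul, resF_resF, hm'', smul_smul, ← pow_add, Nat.sub_add_cancel (hA g)]
  -- second step: the lifts agree on overlaps up to a power of `f`
  have step2 : ∀ g h : t, ∃ b : ℕ,
      resF (inf_le_left.trans (hle g) : X.basicOpen g.1 ⊓ X.basicOpen h.1 ≤ V) f ^ b •
        (res S.X₂ (inf_le_left : X.basicOpen g.1 ⊓ X.basicOpen h.1 ≤ _) (p g) -
        res S.X₂ (inf_le_right : X.basicOpen g.1 ⊓ X.basicOpen h.1 ≤ _) (p h)) = 0 := by
    intro g h
    have haff : IsAffineOpen (X.basicOpen g.1 ⊓ X.basicOpen h.1) := by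
      have h2 := (hV.basicOpen g.1).basicOpen (resF (hle g) h.1)
      rw [X.basicOpen_res h.1 (homOfLE (hle g)).op] at h2
      exact h2
    obtain ⟨k, hk⟩ := exists_of_app_eq_zero S hS.exact
      (res S.X₂ (inf_le_left : X.basicOpen g.1 ⊓ X.basicOpen h.1 ≤ _) (p g) -
        res S.X₂ (inf_le_right : X.basicOpen g.1 ⊓ X.basicOpen h.1 ≤ _) (p h)) (by
        rw [app_sub, app_res, app_res, hp, hp, res_pow_smul, res_pow_smul, res_res, res_res,
          resF_resF, resF_resF, sub_self])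
    obtain ⟨b, hb⟩ := h1.tors' haff
      (resF (inf_le_left.trans (hle g) : X.basicOpen g.1 ⊓ X.basicOpen h.1 ≤ V) f)
      (inf_le_left : X.basicOpen g.1 ⊓ X.basicOpen h.1 ⊓ X.basicOpen f ≤ _)
      (X.basicOpen_res f (homOfLE
        (inf_le_left.trans (hle g) : X.basicOpen g.1 ⊓ X.basicOpen h.1 ≤ V)).op).symm k (by
        apply injective_of_mono S.f
        rw [app_res, hk, app_zero, res_sub, res_res, res_res]
        have e1 := congrArg (res S.X₂ (inf_le_inf_right _ inf_le_left :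
          X.basicOpen g.1 ⊓ X.basicOpen h.1 ⊓ X.basicOpen f ≤ X.basicOpen g.1 ⊓ X.basicOpen f))
          (hp' g)
        have e2 := congrArg (res S.X₂ (inf_le_inf_right _ inf_le_right :
          X.basicOpen g.1 ⊓ X.basicOpen h.1 ⊓ X.basicOpen f ≤ X.basicOpen h.1 ⊓ X.basicOpen f))
          (hp' h)
        rw [res_res, res_pow_smul, resF_resF, res_res] at e1 e2
        rw [e1, e2, sub_self])
    refine ⟨b, ?_⟩
    rw [← hk, ← Modules.Hom.app_smul, hb, app_zero]
  choose b hb using step2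
  let B : ℕ := Finset.univ.sup fun gh : t × t => b gh.1 gh.2
  have hB : ∀ g h : t, b g h ≤ B := fun g h =>
    Finset.le_sup (f := fun gh : t × t => b gh.1 gh.2) (Finset.mem_univ (g, h))
  -- gluing
  have hcov : V ≤ ⨆ g : t, X.basicOpen g.1 := by
    have h2 := (hV.iSup_basicOpen_eq_self_iff (s := (t : Set Γ(X, V)))).mpr ht
    exact le_of_eq h2.symm
  obtain ⟨q, hq⟩ := exists_glue S.X₂ (U := V) (fun g : t => X.basicOpen g.1) hle hcov
    (fun g => resF (hle g) f ^ B • p g) (by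
      intro g h
      rw [← sub_eq_zero, res_pow_smul, res_pow_smul, resF_resF, resF_resF, ← smul_sub]
      have e := hb g h
      have e2 : B = (B - b g h) + b g h := (Nat.sub_add_cancel (hB g h)).symm
      rw [e2, pow_add, mul_smul, e, smul_zero])
  refine ⟨B + A, q, sec_ext _ fun x hx => ?_⟩
  obtain ⟨g, hg⟩ := Opens.mem_iSup.mp (hcov hx)
  refine ⟨X.basicOpen g.1, hle g, hg, ?_⟩
  rw [← app_res, hq, Modules.Hom.app_smul, hp, smul_smul, ← pow_add, res_pow_smul]

/-- **Sections over affine opens are right exact** when the kernel is quasi-coherent. -/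
theorem surj_of_qc (S : ShortComplex X.Modules) (hS : S.ShortExact) (h1 : QC S.X₁)
    {V : X.Opens} (hV : IsAffineOpen V) (n : Γ(S.X₃, V)) : ∃ m : Γ(S.X₂, V), S.g.app V m = n := by
  have hepi := hS.epi_g
  let A : Set Γ(X, V) := {g | ∃ m : Γ(S.X₂, X.basicOpen g),
    S.g.app _ m = res S.X₃ (X.basicOpen_le g) n}
  have hAtop : Ideal.span A = ⊤ := by
    rw [← hV.iSup_basicOpen_eq_self_iff]
    apply le_antisymm
    · exact iSup_le fun g => X.basicOpen_le g.1
    · intro x hx
      obtain ⟨W, hW, hxW, m, hm⟩ := locSurj_of_epi S.g V n x hx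
      obtain ⟨g, hg, hxg⟩ := hV.exists_basicOpen_le ⟨x, hxW⟩ hx
      refine Opens.mem_iSup.mpr ⟨⟨g, res S.X₂ hg m, ?_⟩, hxg⟩
      rw [app_res, hm, res_res]
  obtain ⟨t, htA, ht⟩ := (Ideal.span_eq_top_iff_finite A).mp hAtop
  -- the ideal of the functions `f` such that `f n` lifts
  let I : Ideal Γ(X, V) :=
    { carrier := {f | ∃ m : Γ(S.X₂, V), S.g.app V m = f • n}
      add_mem' := by
        rintro f g ⟨a, ha⟩ ⟨b, hb⟩
        exact ⟨a + b, by rw [app_add, ha, hb, add_smul]⟩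
      zero_mem' := ⟨0, by rw [app_zero, zero_smul]⟩
      smul_mem' := by
        rintro c f ⟨a, ha⟩
        exact ⟨c • a, by rw [Modules.Hom.app_smul, ha, smul_smul, smul_eq_mul]⟩ }
  have hrad : Ideal.span (t : Set Γ(X, V)) ≤ I.radical := by
    rw [Ideal.span_le]
    intro f hf
    obtain ⟨m, hm⟩ := htA hf
    obtain ⟨a, m', hm'⟩ := lift_pow_smul S hS h1 hV n t ht (fun g hg => htA hg) f m hm
    exact ⟨a, m', hm'⟩
  rw [ht, top_le_iff, Ideal.radical_eq_top] at hrad
  have h1I : (1 : Γ(X, V)) ∈ I := by rw [hrad]; trivial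
  obtain ⟨m, hm⟩ := h1I
  exact ⟨m, by rw [hm, one_smul]⟩

/-- Cokernels of quasi-coherent modules are quasi-coherent. -/
theorem QC.of_right (S : ShortComplex X.Modules) (hS : S.ShortExact) (h1 : QC S.X₁)
    (h2 : QC S.X₂) : QC S.X₃ where
  tors V hV f s hs := by
    have := hS.mono_f
    obtain ⟨m, rfl⟩ := surj_of_qc S hS h1 hV s
    obtain ⟨k, hk⟩ := exists_of_app_eq_zero S hS.exact (res S.X₂ (X.basicOpen_le f) m) (by
      rw [app_res, hs])
    obtain ⟨a, k', hk'⟩ := h1.ext V hV f k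
    obtain ⟨b, hb⟩ := h2.tors V hV f (f ^ a • m - S.f.app V k') (by
      rw [res_sub, res_pow_smul, ← app_res, hk', Modules.Hom.app_smul, hk, sub_self])
    refine ⟨b + a, ?_⟩
    rw [smul_sub, sub_eq_zero, smul_smul, ← pow_add] at hb
    rw [← Modules.Hom.app_smul, hb, Modules.Hom.app_smul, zero_app_apply, smul_zero]
  ext V hV f t := by
    obtain ⟨m, rfl⟩ := surj_of_qc S hS h1 (hV.basicOpen f) t
    obtain ⟨n, s, hs⟩ := h2.ext V hV f m
    refine ⟨n, S.g.app V s, ?_⟩
    rw [← app_res, hs, Modules.Hom.app_smul]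

/-- Extensions of quasi-coherent modules are quasi-coherent. -/
theorem QC.of_middle (S : ShortComplex X.Modules) (hS : S.ShortExact) (h1 : QC S.X₁)
    (h3 : QC S.X₃) : QC S.X₂ where
  tors V hV f s hs := by
    have := hS.mono_f
    obtain ⟨a, ha⟩ := h3.tors V hV f (S.g.app V s) (by rw [← app_res, hs, app_zero])
    obtain ⟨k, hk⟩ := exists_of_app_eq_zero S hS.exact (f ^ a • s) (by
      rw [Modules.Hom.app_smul, ha])
    obtain ⟨b, hb⟩ := h1.tors V hV f k (by
      apply injective_of_mono S.f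
      rw [app_res, hk, res_pow_smul, hs, smul_zero, app_zero])
    refine ⟨b + a, ?_⟩
    rw [pow_add, mul_smul, ← hk, ← Modules.Hom.app_smul, hb, app_zero]
  ext V hV f t := by
    have := hS.mono_f
    obtain ⟨a, n, hn⟩ := h3.ext V hV f (S.g.app _ t)
    obtain ⟨m, hm⟩ := surj_of_qc S hS h1 hV n
    obtain ⟨k, hk⟩ := exists_of_app_eq_zero S hS.exact
      (resF (X.basicOpen_le f) f ^ a • t - res S.X₂ (X.basicOpen_le f) m) (by
        rw [app_sub, Modules.Hom.app_smul, app_res, hm, hn, sub_self])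
    obtain ⟨b, k', hk'⟩ := h1.ext V hV f k
    refine ⟨b + a, S.f.app V k' + f ^ b • m, ?_⟩
    rw [res_add, ← app_res, hk', Modules.Hom.app_smul, hk, res_pow_smul, smul_sub, sub_add_cancel,
      pow_add, mul_smul]

end M21
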