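import Pool.Agent.H.MP_21b43d_ag.B.QC1

open CategoryTheory CategoryTheory.Limits AlgebraicGeometry TopologicalSpace Opposite
open AlgebraicGeometry.Scheme (Modules)

noncomputable section

namespace M21

variable {X : Scheme.{0}}

/-- The functions on an affine open `U`, restricted to `Spec Γ(X, U)`. -/
theorem fromSpec_appIso_inv {U : X.Opens} (hU : IsAffineOpen U) (V : (Spec Γ(X, U)).Opens)
    (hV : hU.fromSpec ''ᵁ V ≤ U) (r : Γ(X, U)) :
    (hU.fromSpec.appIso V).inv ((Spec Γ(X, U)).presheaf.map V.leTop.op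
      ((Scheme.ΓSpecIso Γ(X, U)).inv r)) = X.presheaf.map (homOfLE hV).op r := by
  have h1 : (Scheme.ΓSpecIso Γ(X, U)).inv ≫ (Spec Γ(X, U)).presheaf.map V.leTop.op =
      X.presheaf.map (homOfLE hV).op ≫ (hU.fromSpec.appIso V).hom := by
    rw [Scheme.Hom.appIso_hom, ← Category.assoc, Scheme.Hom.naturality, hU.fromSpec_app_self]
    simp only [Category.assoc, ← Functor.map_comp]
    rfl
  have h2 : ((Scheme.ΓSpecIso Γ(X, U)).inv ≫ (Spec Γ(X, U)).presheaf.map V.leTop.op) ≫
      (hU.fromSpec.appIso V).inv = X.presheaf.map (homOfLE hV).op := by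
    rw [h1, Category.assoc, Iso.hom_inv_id, Category.comp_id]
  exact congrArg (fun φ => φ.hom r) h2


theorem res_smul' {M : X.Modules} {U V : X.Opens} (h : V ≤ U) (r : Γ(X, U)) (s : Γ(M, U)) :
    res M h (r • s) = resF h r • res M h s := res_smul h r s

theorem resF_pow {U V : X.Opens} (h : V ≤ U) (r : Γ(X, U)) (n : ℕ) :
    resF h (r ^ n) = resF h r ^ n := map_pow _ _ _

/-- The action of `Γ(X, U)` on the sections of the restriction of `M` to `Spec Γ(X, U)`. -/
theorem smul_restrict_fromSpec (M : X.Modules) {U : X.Opens} (hU : IsAffineOpen U)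
    (V : (Spec Γ(X, U)).Opens) (hV : hU.fromSpec ''ᵁ V ≤ U) (r : Γ(X, U))
    (s : Γ(M.restrict hU.fromSpec, V)) :
    (M.restrictAppIso hU.fromSpec V).hom (r • s) =
      resF hV r • (M.restrictAppIso hU.fromSpec V).hom s := by
  rw [Modules.smul_Spec_def]
  have h1 := Modules.smul_restrictAppIso_hom_apply (f := hU.fromSpec) M V
    ((Spec Γ(X, U)).presheaf.map V.leTop.op ((Scheme.ΓSpecIso Γ(X, U)).inv r)) s
  rw [fromSpec_appIso_inv hU V hV r] at h1
  exact h1

theorem image_le {U : X.Opens} (hU : IsAffineOpen U) (V : (Spec Γ(X, U)).Opens) :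
    hU.fromSpec ''ᵁ V ≤ U := by
  have h : hU.fromSpec ''ᵁ V ≤ hU.fromSpec ''ᵁ ⊤ := Scheme.Hom.image_mono _ le_top
  have h2 : hU.fromSpec ''ᵁ ⊤ = U := by
    rw [Scheme.Hom.image_top_eq_opensRange, hU.opensRange_fromSpec]
  rw [h2] at h
  exact h

theorem le_image_top {U : X.Opens} (hU : IsAffineOpen U) : U ≤ hU.fromSpec ''ᵁ ⊤ := by
  rw [Scheme.Hom.image_top_eq_opensRange, hU.opensRange_fromSpec]

/-- The basic open subset of the spectrum. -/
def specD {R : CommRingCat.{0}} (f : R) : (Spec R).Opens := PrimeSpectrum.basicOpen f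

theorem isLocalizing_iff_spec {R : CommRingCat.{0}} (N : (Spec R).Modules) :
    IsLocalizing (modulesSpecToSheaf.obj N) ↔ ∀ f : R,
      (∀ s : Γ(N, ⊤), res N (le_top : specD f ≤ ⊤) s = 0 → ∃ n : ℕ, f ^ n • s = 0) ∧
      (∀ t : Γ(N, specD f), ∃ (n : ℕ) (s : Γ(N, ⊤)),
        res N (le_top : specD f ≤ ⊤) s = f ^ n • t) := by
  constructor
  · intro h f
    have hf : IsLocalizedModule.Away f
      ((modulesSpecToSheaf.obj N).obj.map (PrimeSpectrum.basicOpen f).leTop.op).hom := h f
    constructor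
    · intro s hs
      obtain ⟨⟨_, n, rfl⟩, hn⟩ := (IsLocalizedModule.eq_zero_iff (.powers f)
        ((modulesSpecToSheaf.obj N).obj.map (PrimeSpectrum.basicOpen f).leTop.op).hom).mp hs
      exact ⟨n, hn⟩
    · intro t
      obtain ⟨n, s', hn⟩ := hf.surj _ _ t
      exact ⟨n, s', hn.symm⟩
  · intro h f
    refine IsLocalizedModule.Away.mk_of_addCommGroup ?_ ?_ ?_
    · exact Modules.isUnit_algebraMap_end_of_le_basicOpen f le_rfl
    · intro t
      obtain ⟨n, s, hs⟩ := (h f).2 t
      exact ⟨n, s, hs.symm⟩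
    · intro s hs
      obtain ⟨n, hn⟩ := (h f).1 s hs
      exact ⟨n, hn⟩

/-- `M` restricted to the affine open `U` is localizing iff the explicit conditions hold. -/
theorem isLocalizing_iff (M : X.Modules) {U : X.Opens} (hU : IsAffineOpen U) :
    IsLocalizing (modulesSpecToSheaf.obj (M.restrict hU.fromSpec)) ↔ ∀ f : Γ(X, U),
      (∀ s : Γ(M, U), res M (X.basicOpen_le f) s = 0 → ∃ n : ℕ, f ^ n • s = 0) ∧
      (∀ t : Γ(M, X.basicOpen f), ∃ (n : ℕ) (s : Γ(M, U)),
        res M (X.basicOpen_le f) s = resF (X.basicOpen_le f) f ^ n • t) := by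
  rw [isLocalizing_iff_spec]
  let N : (Spec Γ(X, U)).Modules := M.restrict hU.fromSpec
  let e : ∀ V : (Spec Γ(X, U)).Opens, Γ(N, V) → Γ(M, hU.fromSpec ''ᵁ V) :=
    fun V s => (M.restrictAppIso hU.fromSpec V).hom s
  have einj : ∀ V, Function.Injective (e V) := fun V a b h => h
  have esurj : ∀ V, Function.Surjective (e V) := fun V a => ⟨a, rfl⟩
  have ezero : ∀ V, e V 0 = 0 := fun V => map_zero _
  have esmul : ∀ (V : (Spec Γ(X, U)).Opens) (r : Γ(X, U)) (s : Γ(N, V)),
      e V (r • s) = resF (image_le hU V) r • e V s := fun V r s =>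
    smul_restrict_fromSpec M hU V (image_le hU V) r s
  have emap : ∀ (V W : (Spec Γ(X, U)).Opens) (h : W ≤ V) (s : Γ(N, V)),
      e W (res N h s) = res M (Scheme.Hom.image_mono hU.fromSpec h) (e V s) :=
    fun V W h s => rfl
  have htop := le_image_top hU
  have hb : ∀ f : Γ(X, U), hU.fromSpec ''ᵁ (specD f) = X.basicOpen f := fun f =>
    hU.fromSpec_image_basicOpen f
  have rinj : ∀ (W W' : X.Opens) (h : W' = W) (s t : Γ(M, W)),
      res M h.le s = res M h.le t → s = t := by
    intro W W' h s t hst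
    subst h
    rwa [res_self, res_self] at hst
  clear_value e
  constructor
  · intro h f
    constructor
    · intro s hs
      obtain ⟨s', hs'⟩ := esurj ⊤ (res M (image_le hU ⊤) s)
      obtain ⟨n, hn⟩ := (h f).1 s' (by
        apply einj
        rw [emap, hs', res_res, ezero]
        have h2 := congrArg (res M (hb f).le) hs
        rwa [res_res, res_zero] at h2)
      refine ⟨n, ?_⟩
      have h4 := congrArg (e ⊤) hn
      rw [esmul, hs', ezero, ← res_smul] at h4
      have h5 := congrArg (res M htop) h4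
      rwa [res_res, res_self, res_zero] at h5
    · intro t
      obtain ⟨t', ht'⟩ := esurj (specD f) (res M (hb f).le t)
      obtain ⟨n, s', hn⟩ := (h f).2 t'
      refine ⟨n, res M htop (e ⊤ s'), ?_⟩
      apply rinj _ _ (hb f)
      have h4 := congrArg (e (specD f)) hn
      rw [esmul, emap, ht'] at h4
      rw [res_res, res_res, res_smul', resF_pow, resF_resF]
      rw [resF_pow] at h4
      exact h4
  · intro h f
    constructor
    · intro s hs
      obtain ⟨n, hn⟩ := (h f).1 (res M htop (e ⊤ s)) (by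
        rw [res_res]
        apply rinj _ _ (hb f)
        rw [res_res, res_zero]
        have h2 := congrArg (e (specD f)) hs
        rw [emap, ezero] at h2
        exact h2)
      refine ⟨n, ?_⟩
      apply einj
      rw [esmul, ezero]
      have h4 := congrArg (res M (image_le hU ⊤)) hn
      rw [res_smul, res_res, res_self, res_zero] at h4
      exact h4
    · intro t
      obtain ⟨n, s, hs⟩ := (h f).2 (res M (hb f).ge (e (specD f) t))
      obtain ⟨s', hs'⟩ := esurj ⊤ (res M (image_le hU ⊤) s)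
      refine ⟨n, s', ?_⟩
      apply einj
      rw [esmul, emap, hs', res_res]
      have h2 := congrArg (res M (hb f).le) hs
      rw [res_res, res_smul', res_res, res_self, resF_pow, resF_resF] at h2
      rw [resF_pow]
      exact h2

end M21
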