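import Mathlib

/-!
# M21 (B6): traces of `k ⊗ a` (algebra)

For a ring `R` with a map `φ` to a field `k` and an endomorphism `a` of an `R`-module `M`:
`trφ φ a` is the trace of `k ⊗ a` on `k ⊗ M`, `dimφ φ M` the dimension of `k ⊗ M`.

* `isIntegral_trφ` : the trace is integral over `R` (`M` finitely generated);
* `trφ_loc`, `dimφ_loc` : trace and dimension do not change under localization;
* `trφ_sub` : `tr a - tr b = dim * φ c` if `a - b = c`;
* `exists_smul_eq_zero` : if `k ⊗ M = 0` then some `f` with `φ f ≠ 0` kills `M`.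
-/

set_option autoImplicit false

open TensorProduct Polynomial

noncomputable section

namespace M21

section ring

variable {R k M : Type} [CommRing R] [CommRing k] [Algebra R k] [AddCommGroup M] [Module R M]

theorem aeval_baseChange (a : M →ₗ[R] M) (q : R[X]) :
    aeval (a.baseChange k : Module.End k (k ⊗[R] M)) (q.map (algebraMap R k)) =
      (aeval a q : Module.End R M).baseChange k := by
  induction q using Polynomial.induction_on' with
  | add q r hq hr => rw [Polynomial.map_add, map_add, map_add, hq, hr, LinearMap.baseChange_add]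
  | monomial n r =>
    rw [Polynomial.map_monomial, aeval_monomial, aeval_monomial]
    apply TensorProduct.AlgebraTensorModule.ext
    intro x m
    have h3 : ∀ n : ℕ, ((a.baseChange k : Module.End k (k ⊗[R] M)) ^ n) (x ⊗ₜ[R] m) =
        x ⊗ₜ[R] ((a ^ n) m) := by
      intro n
      induction n with
      | zero => simp
      | succ n ih =>
        rw [pow_succ', pow_succ', Module.End.mul_apply, ih, Module.End.mul_apply]
        exact LinearMap.baseChange_tmul _ _ _
    rw [Module.End.mul_apply, h3, LinearMap.baseChange_tmul, Module.End.mul_apply,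
      Module.algebraMap_end_apply, Module.algebraMap_end_apply, TensorProduct.tmul_smul,
      TensorProduct.smul_tmul', TensorProduct.smul_tmul', algebraMap_smul]

end ring

section alg

variable {R k M : Type} [CommRing R] [Field k] [Algebra R k] [AddCommGroup M] [Module R M]

theorem isIntegral_trace_baseChange [Module.Finite R M] (a : M →ₗ[R] M) :
    IsIntegral R (LinearMap.trace k (k ⊗[R] M) (a.baseChange k)) := by
  obtain ⟨p, hp, hpa⟩ := LinearMap.exists_monic_and_aeval_eq_zero R a
  let K := AlgebraicClosure k
  let b : Module.End k (k ⊗[R] M) := a.baseChange k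
  let c : Module.End K (K ⊗[k] (k ⊗[R] M)) := b.baseChange K
  have hb : aeval b (p.map (algebraMap R k)) = 0 := by
    rw [aeval_baseChange, hpa, LinearMap.baseChange_zero]
  have hc : aeval c ((p.map (algebraMap R k)).map (algebraMap k K)) = 0 := by
    rw [aeval_baseChange, hb, LinearMap.baseChange_zero]
  have htr : LinearMap.trace K (K ⊗[k] (k ⊗[R] M)) c =
      algebraMap k K (LinearMap.trace k (k ⊗[R] M) b) := LinearMap.trace_baseChange _ _
  have hint : IsIntegral R (LinearMap.trace K (K ⊗[k] (k ⊗[R] M)) c) := by
    rw [Module.End.trace_eq_sum_roots_charpoly_of_splits (IsAlgClosed.splits _)]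
    refine IsIntegral.multiset_sum fun μ hμ => ?_
    have h1 : c.charpoly.IsRoot μ := (Polynomial.mem_roots'.1 hμ).2
    rw [← Module.End.hasEigenvalue_iff_isRoot_charpoly] at h1
    obtain ⟨v, hv⟩ := h1.exists_hasEigenvector
    have h2 := Module.End.aeval_apply_of_hasEigenvector (p := (p.map (algebraMap R k)).map (algebraMap k K)) hv
    rw [hc, LinearMap.zero_apply] at h2
    have h3 : ((p.map (algebraMap R k)).map (algebraMap k K)).eval μ = 0 :=
      (smul_eq_zero.1 h2.symm).resolve_right hv.2
    refine ⟨p, hp, ?_⟩
    rw [Polynomial.map_map, ← IsScalarTower.algebraMap_eq, Polynomial.eval_map] at h3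
    exact h3
  rw [htr] at hint
  exact (isIntegral_algebraMap_iff (algebraMap k K).injective).1 hint

theorem trace_baseChange_sub [Module.Finite R M] (a b : M →ₗ[R] M) (c : R)
    (h : ∀ m, a m - b m = c • m) :
    LinearMap.trace k (k ⊗[R] M) (a.baseChange k) - LinearMap.trace k (k ⊗[R] M) (b.baseChange k) =
      (Module.finrank k (k ⊗[R] M) : k) * algebraMap R k c := by
  rw [← map_sub, ← LinearMap.baseChange_sub]
  have h1 : a - b = c • LinearMap.id := LinearMap.ext fun m => h m
  have h2 : ((c • LinearMap.id : M →ₗ[R] M).baseChange k) =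
      algebraMap R k c • (LinearMap.id : k ⊗[R] M →ₗ[k] k ⊗[R] M) := by
    apply TensorProduct.AlgebraTensorModule.ext
    intro x m
    simp only [LinearMap.baseChange_tmul, LinearMap.smul_apply, LinearMap.id_apply]
    rw [TensorProduct.tmul_smul, algebraMap_smul]
  rw [h1, h2, map_smul, LinearMap.trace_id, smul_eq_mul, mul_comm]

theorem exists_smul_eq_zero_of_subsingleton [Module.Finite R M]
    (h : Subsingleton (k ⊗[R] M)) : ∃ f : R, algebraMap R k f ≠ 0 ∧ ∀ m : M, f • m = 0 := by
  let p : Ideal R := RingHom.ker (algebraMap R k)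
  have hp : p.IsPrime := RingHom.ker_isPrime _
  let P : PrimeSpectrum R := ⟨p, hp⟩
  have hns : P ∉ Module.support R M := by
    rw [Module.mem_support_iff_nontrivial_residueField_tensorProduct, not_nontrivial_iff_subsingleton]
    let κ := P.asIdeal.ResidueField
    let ψ : κ →+* k := Ideal.ResidueField.lift P.asIdeal (algebraMap R k) le_rfl (by
      intro x hx
      rw [Submonoid.mem_comap]
      exact IsUnit.mk0 _ hx)
    let : Algebra κ k := ψ.toAlgebra
    have : IsScalarTower R κ k := IsScalarTower.of_algebraMap_eq fun r => by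
      exact (Ideal.ResidueField.lift_algebraMap _ _ _ _ r).symm
    have e := (AlgebraTensorModule.cancelBaseChange R κ k k M)
    have h1 : Subsingleton (k ⊗[κ] (κ ⊗[R] M)) := e.toEquiv.subsingleton
    by_contra hc
    rw [not_subsingleton_iff_nontrivial] at hc
    have h2 : Nontrivial (k ⊗[κ] (κ ⊗[R] M)) := inferInstance
    exact not_nontrivial _ h2
  rw [Module.mem_support_iff_of_finite, SetLike.not_le_iff_exists] at hns
  obtain ⟨f, hf, hfp⟩ := hns
  exact ⟨f, fun h0 => hfp h0, fun m => Module.mem_annihilator.1 hf m⟩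

end alg

section loc

variable {R R' k M M' : Type} [CommRing R] [CommRing R'] [Algebra R R'] [Field k] [Algebra R k]
  [Algebra R' k] [IsScalarTower R R' k] [AddCommGroup M] [Module R M] [AddCommGroup M']
  [Module R' M'] [Module R M'] [IsScalarTower R R' M']

/-- the comparison of fibres under localization -/
def locEquiv (f : R) [IsLocalization.Away f R'] (g : M →ₗ[R] M')
    [IsLocalizedModule (Submonoid.powers f) g] : k ⊗[R] M ≃ₗ[k] k ⊗[R'] M' :=
  have h1 : IsBaseChange R' g := IsLocalizedModule.isBaseChange (Submonoid.powers f) R' g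
  (AlgebraTensorModule.cancelBaseChange R R' k k M).symm ≪≫ₗ
    AlgebraTensorModule.congr (LinearEquiv.refl k k) h1.equiv

theorem locEquiv_tmul (f : R) [IsLocalization.Away f R'] (g : M →ₗ[R] M')
    [IsLocalizedModule (Submonoid.powers f) g] (x : k) (m : M) :
    locEquiv (R' := R') (k := k) f g (x ⊗ₜ[R] m) = x ⊗ₜ[R'] g m := by
  unfold locEquiv
  simp [IsBaseChange.equiv_tmul]

theorem trace_loc (f : R) [IsLocalization.Away f R'] (g : M →ₗ[R] M')
    [IsLocalizedModule (Submonoid.powers f) g] (a : M →ₗ[R] M) (a' : M' →ₗ[R'] M')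
    (h : ∀ m, a' (g m) = g (a m)) :
    LinearMap.trace k (k ⊗[R'] M') (a'.baseChange k) = LinearMap.trace k (k ⊗[R] M) (a.baseChange k) := by
  let e : k ⊗[R] M ≃ₗ[k] k ⊗[R'] M' := locEquiv (R' := R') (k := k) f g
  have h1 : a'.baseChange k = e.conj (a.baseChange k) := by
    refine LinearMap.ext fun y => ?_
    obtain ⟨y, rfl⟩ := e.surjective y
    rw [LinearEquiv.conj_apply_apply, LinearEquiv.symm_apply_apply]
    induction y using TensorProduct.induction_on with
    | zero => simp
    | add y z hy hz => rw [map_add, map_add, hy, hz, map_add, map_add]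
    | tmul x m =>
      show (a'.baseChange k) (locEquiv f g (x ⊗ₜ[R] m)) = locEquiv f g ((a.baseChange k) (x ⊗ₜ[R] m))
      rw [locEquiv_tmul, LinearMap.baseChange_tmul, LinearMap.baseChange_tmul, locEquiv_tmul, h]
  rw [h1, LinearMap.trace_conj']

theorem finrank_loc (f : R) [IsLocalization.Away f R'] (g : M →ₗ[R] M')
    [IsLocalizedModule (Submonoid.powers f) g] :
    Module.finrank k (k ⊗[R'] M') = Module.finrank k (k ⊗[R] M) :=
  (locEquiv (R' := R') (k := k) f g).finrank_eq.symm

end loc

end M21
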