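import Pool.Agent.H.MP_21b43d_ag.Base
import Pool.Agent.H.MP_21b43d_ag.B.Tr1

/-!
# M21 (B6): a cocycle which splits on a coherent module dies at the points of its support
-/

set_option autoImplicit false

open CategoryTheory CategoryTheory.Limits AlgebraicGeometry TopologicalSpace Opposite TensorProduct

noncomputable section

namespace M21

variable {X : Scheme.{0}}

/-- the residue field as an algebra over the functions on `V` -/
@[reducible] def evAlg (z : X) (V : X.Opens) (hz : z ∈ V) : Algebra Γ(X, V) (X.residueField z) :=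
  (X.evaluation V z hz).hom.toAlgebra

/-- the dimension of the fibre -/
def fibDim (M : X.Modules) (z : X) (V : X.Opens) (hz : z ∈ V) : ℕ :=
  let _ := evAlg z V hz
  Module.finrank (X.residueField z) ((X.residueField z) ⊗[Γ(X, V)] Γ(M, V))

/-- the trace on the fibre -/
def fibTr (M : X.Modules) (z : X) (V : X.Opens) (hz : z ∈ V) (a : Γ(M, V) →ₗ[Γ(X, V)] Γ(M, V)) :
    X.residueField z :=
  let _ := evAlg z V hz
  LinearMap.trace (X.residueField z) ((X.residueField z) ⊗[Γ(X, V)] Γ(M, V)) (a.baseChange _)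

theorem eval_resF {U V : X.Opens} (h : V ≤ U) (z : X) (hz : z ∈ V) (r : Γ(X, U)) :
    X.evaluation V z hz (resF h r) = X.evaluation U z (h hz) r := by
  unfold Scheme.evaluation
  rw [ConcreteCategory.comp_apply, ConcreteCategory.comp_apply]
  congr 1
  exact TopCat.Presheaf.germ_res_apply _ _ _ _ _

theorem resF_pow {U V : X.Opens} (h : V ≤ U) (f : Γ(X, U)) (n : ℕ) :
    resF h (f ^ n) = resF h f ^ n := map_pow _ _ _

theorem eq_zero_of_unit_smul {R M : Type} [CommRing R] [AddCommGroup M] [Module R M] {r : R}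
    (hr : IsUnit r) {m : M} (h : r • m = 0) : m = 0 := by
  obtain ⟨u, rfl⟩ := hr
  have h1 := congrArg (fun y : M => (↑u⁻¹ : R) • y) h
  simpa [smul_smul] using h1

theorem isUnit_resF_le {U : X.Opens} (f : Γ(X, U)) {W : X.Opens} (hW : W ≤ U) (h : W ≤ X.basicOpen f) :
    IsUnit (resF hW f) := by
  have h1 : IsUnit (resF (X.basicOpen_le f) f) := RingedSpace.isUnit_res_basicOpen _ f
  have h2 := h1.map (X.presheaf.map (homOfLE h).op).hom
  have h3 : (X.presheaf.map (homOfLE h).op).hom (resF (X.basicOpen_le f) f) = resF hW f :=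
    resF_resF _ _ _
  rwa [h3] at h2

theorem fib_loc {M : X.Modules} (hM : QC M) {z : X} {V : X.Opens} (hV : IsAffineOpen V)
    (f : Γ(X, V)) (hz : z ∈ X.basicOpen f) (a : Γ(M, V) →ₗ[Γ(X, V)] Γ(M, V))
    (a' : Γ(M, X.basicOpen f) →ₗ[Γ(X, X.basicOpen f)] Γ(M, X.basicOpen f))
    (h : ∀ m, a' (res M (X.basicOpen_le f) m) = res M (X.basicOpen_le f) (a m)) :
    fibTr M z (X.basicOpen f) hz a' = fibTr M z V (X.basicOpen_le f hz) a ∧
      fibDim M z (X.basicOpen f) hz = fibDim M z V (X.basicOpen_le f hz) := by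
  let _ := evAlg z V (X.basicOpen_le f hz)
  let _ := evAlg z (X.basicOpen f) hz
  have : IsScalarTower Γ(X, V) Γ(X, X.basicOpen f) (X.residueField z) :=
    IsScalarTower.of_algebraMap_eq fun r => (eval_resF (X.basicOpen_le f) z hz r).symm
  let _ : Module Γ(X, V) Γ(M, X.basicOpen f) :=
    Module.compHom _ (algebraMap Γ(X, V) Γ(X, X.basicOpen f))
  have : IsScalarTower Γ(X, V) Γ(X, X.basicOpen f) Γ(M, X.basicOpen f) := ⟨fun x y m => by
    rw [Algebra.smul_def, mul_smul]; rfl⟩
  have : IsLocalization.Away f Γ(X, X.basicOpen f) := hV.isLocalization_basicOpen f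
  let g : Γ(M, V) →ₗ[Γ(X, V)] Γ(M, X.basicOpen f) :=
    { toFun := res M (X.basicOpen_le f)
      map_add' := res_add _
      map_smul' := fun r m => res_smul _ r m }
  have hsm : ∀ (r : Γ(X, V)) (m : Γ(M, X.basicOpen f)), r • m = resF (X.basicOpen_le f) r • m :=
    fun r m => rfl
  have hg : ∀ m, g m = res M (X.basicOpen_le f) m := fun m => rfl
  have : IsLocalizedModule (Submonoid.powers f) g :=
    { map_units := by
        rintro ⟨x, n, rfl⟩
        rw [Module.End.isUnit_iff]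
        have hu : IsUnit (resF (X.basicOpen_le f) (f ^ n)) := by
          rw [resF_pow]
          exact (isUnit_resF_le f (X.basicOpen_le f) le_rfl).pow n
        obtain ⟨u, hu⟩ := hu
        have h1 := MulAction.bijective (β := Γ(M, X.basicOpen f)) u
        have h2 : (fun m : Γ(M, X.basicOpen f) => u • m) =
            fun m => (algebraMap Γ(X, V) (Module.End Γ(X, V) Γ(M, X.basicOpen f)) (f ^ n)) m := by
          funext m
          rw [Module.algebraMap_end_apply, hsm, ← hu]
          rfl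
        rwa [h2] at h1
      surj := by
        intro y
        obtain ⟨n, t, ht⟩ := hM.ext V hV f y
        refine ⟨(t, ⟨f ^ n, n, rfl⟩), ?_⟩
        rw [hg, ht, Submonoid.smul_def, hsm]
        exact congrArg (· • y) (resF_pow _ _ _)
      exists_of_eq := by
        intro x1 x2 h12
        rw [hg, hg] at h12
        obtain ⟨n, hn⟩ := hM.tors V hV f (x1 - x2) (by rw [res_sub, h12, sub_self])
        refine ⟨⟨f ^ n, n, rfl⟩, ?_⟩
        rw [Submonoid.smul_def, Submonoid.smul_def, ← sub_eq_zero, ← smul_sub]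
        exact hn }
  exact ⟨trace_loc (R := Γ(X, V)) (R' := Γ(X, X.basicOpen f)) f g a a' h,
    finrank_loc (R := Γ(X, V)) (R' := Γ(X, X.basicOpen f)) f g⟩

/-- the endomorphism of the sections over `V` -/
def LEnd.lin {M : X.Modules} {U : X.Opens} (α : LEnd M U) (V : X.Opens) (hV : V ≤ U) :
    Γ(M, V) →ₗ[Γ(X, V)] Γ(M, V) where
  toFun := α.f V hV
  map_add' := α.add V hV
  map_smul' := α.smul V hV

theorem LEnd.lin_apply {M : X.Modules} {U : X.Opens} (α : LEnd M U) (V : X.Opens) (hV : V ≤ U)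
    (s : Γ(M, V)) : α.lin V hV s = α.f V hV s := rfl

theorem fibTr_eq {M : X.Modules} (hM : QC M) {z : X} {U : X.Opens} (α : LEnd M U) {V V' : X.Opens}
    (hV : IsAffineOpen V) (hV' : IsAffineOpen V') (h : V ≤ U) (h' : V' ≤ U) (hz : z ∈ V)
    (hz' : z ∈ V') : fibTr M z V hz (α.lin V h) = fibTr M z V' hz' (α.lin V' h') := by
  obtain ⟨f, g, hfg, hzf⟩ := exists_basicOpen_le_affine_inter hV hV' z ⟨hz, hz'⟩
  have h1 := (fib_loc hM hV f hzf (α.lin V h) (α.lin _ ((X.basicOpen_le f).trans h)) (fun m => by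
    rw [LEnd.lin_apply, LEnd.lin_apply, α.res])).1
  have hzg : z ∈ X.basicOpen g := hfg ▸ hzf
  have h2 := (fib_loc hM hV' g hzg (α.lin V' h') (α.lin _ ((X.basicOpen_le g).trans h')) (fun m => by
    rw [LEnd.lin_apply, LEnd.lin_apply, α.res])).1
  have h3 : ∀ (W W' : X.Opens) (_ : W = W') (hW : W ≤ U) (hW' : W' ≤ U) (hzW : z ∈ W)
      (hzW' : z ∈ W'), fibTr M z W hzW (α.lin W hW) = fibTr M z W' hzW' (α.lin W' hW') := by
    rintro W _ rfl _ _ _ _
    rfl
  rw [← h1, ← h2]
  exact h3 _ _ hfg _ _ _ _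

theorem fibDim_eq {M : X.Modules} (hM : QC M) {z : X} {V V' : X.Opens}
    (hV : IsAffineOpen V) (hV' : IsAffineOpen V') (hz : z ∈ V)
    (hz' : z ∈ V') : fibDim M z V hz = fibDim M z V' hz' := by
  obtain ⟨f, g, hfg, hzf⟩ := exists_basicOpen_le_affine_inter hV hV' z ⟨hz, hz'⟩
  have hzg : z ∈ X.basicOpen g := hfg ▸ hzf
  have h1 := (fib_loc hM hV f hzf LinearMap.id LinearMap.id (fun m => rfl)).2
  have h2 := (fib_loc hM hV' g hzg LinearMap.id LinearMap.id (fun m => rfl)).2
  have h3 : ∀ (W W' : X.Opens) (_ : W = W') (hzW : z ∈ W)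
      (hzW' : z ∈ W'), fibDim M z W hzW = fibDim M z W' hzW' := by
    rintro W _ rfl _ _
    rfl
  rw [← h1, ← h2]
  exact h3 _ _ hfg _ _

theorem exists_affine {z : X} {U : X.Opens} (hz : z ∈ U) :
    ∃ V : X.Opens, IsAffineOpen V ∧ z ∈ V ∧ V ≤ U := by
  obtain ⟨V, hV, hzV, hVU⟩ := TopologicalSpace.Opens.isBasis_iff_nbhd.mp X.isBasis_affineOpens hz
  exact ⟨V, hV, hzV, hVU⟩

theorem fibDim_pos {M : X.Modules} (hM : QC M)
    (hfin : ∀ U : X.Opens, IsAffineOpen U → Module.Finite Γ(X, U) Γ(M, U)) {z : X}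
    (hz : ¬ ZeroAt M z) {V : X.Opens} (hV : IsAffineOpen V) (hzV : z ∈ V) :
    0 < fibDim M z V hzV := by
  rw [Nat.pos_iff_ne_zero]
  intro h0
  apply hz
  intro U hzU s
  let _ := evAlg z V hzV
  have := hfin V hV
  have h1 : Subsingleton ((X.residueField z) ⊗[Γ(X, V)] Γ(M, V)) :=
    Module.finrank_zero_iff.1 h0
  obtain ⟨f, hf, hfM⟩ := exists_smul_eq_zero_of_subsingleton h1
  have hzf : z ∈ X.basicOpen f := (X.evaluation_ne_zero_iff_mem_basicOpen z hzV f).1 hf
  obtain ⟨g, hgU, hzg⟩ := hV.exists_basicOpen_le (V := V ⊓ U) ⟨z, hzV, hzU⟩ hzV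
  obtain ⟨n, t, ht⟩ := hM.ext V hV g (res M (hgU.trans inf_le_right) s)
  let W : X.Opens := X.basicOpen g ⊓ X.basicOpen f
  have hWV : W ≤ V := inf_le_left.trans (X.basicOpen_le g)
  refine ⟨W, inf_le_left.trans (hgU.trans inf_le_right), ⟨hzg, hzf⟩, ?_⟩
  have h2 : res M hWV t = 0 := by
    have h3 : resF hWV f • res M hWV t = 0 := by
      rw [← res_smul, hfM, res_zero]
    exact eq_zero_of_unit_smul (isUnit_resF_le f hWV inf_le_right) h3
  have h4 := congrArg (res M (inf_le_left : W ≤ X.basicOpen g)) ht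
  rw [res_res, h2, res_smul, res_res] at h4
  have h5 : resF (inf_le_left : W ≤ X.basicOpen g) (resF (X.basicOpen_le g) g ^ n) =
      resF hWV g ^ n := by
    rw [resF_pow, resF_resF]
  refine eq_zero_of_unit_smul ((isUnit_resF_le g hWV inf_le_left).pow n) ?_
  rw [← h5]
  exact h4.symm

/-- **(B6)** If the cocycle `c` splits on the coherent module `M`, it dies at every point of the
support of `M`. -/
theorem dies_of_splits {M : X.Modules} (hM : QC M)
    (hfin : ∀ U : X.Opens, IsAffineOpen U → Module.Finite Γ(X, U) Γ(M, U)) {z : X}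
    (hz : ¬ ZeroAt M z) {ι : Type} {U : ι → X.Opens} (c : Cocycle U) (hs : Splits c M) :
    Dies c z := by
  classical
  obtain ⟨α, hα⟩ := hs
  obtain ⟨V0, hV0, hzV0, -⟩ := exists_affine (X := X) (z := z) (U := ⊤) trivial
  choose! V hV hzV hVU using fun (i : ι) (h : z ∈ U i) => exists_affine h
  let g : ι → X.residueField z := fun i =>
    if h : z ∈ U i then fibTr M z (V i) (hzV i h) ((α i).lin (V i) (hVU i h)) else 0
  have hg : ∀ (i : ι) (V' : X.Opens) (_ : IsAffineOpen V') (h : V' ≤ U i) (hz' : z ∈ V'),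
      g i = fibTr M z V' hz' ((α i).lin V' h) := by
    intro i V' hV' h hz'
    have h1 : g i = fibTr M z (V i) (hzV i (h hz')) ((α i).lin (V i) (hVU i (h hz'))) :=
      dif_pos (h hz')
    rw [h1]
    exact fibTr_eq hM (α i) (hV i (h hz')) hV' _ _ _ _
  refine ⟨fibDim M z V0 hzV0, g, fibDim_pos hM hfin hz hV0 hzV0, ?_, ?_⟩
  · intro i j hi hj
    obtain ⟨V', hV', hzV', hV'U⟩ := exists_affine (X := X) (z := z) (U := U i ⊓ U j) ⟨hi, hj⟩
    rw [hg i V' hV' (hV'U.trans inf_le_left) hzV', hg j V' hV' (hV'U.trans inf_le_right) hzV',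
      fibDim_eq hM hV0 hV' hzV0 hzV', ← eval_resF hV'U z hzV' (c.c i j)]
    let _ := evAlg z V' hzV'
    have := hfin V' hV'
    exact trace_baseChange_sub (k := X.residueField z) ((α i).lin V' _) ((α j).lin V' _)
      (resF hV'U (c.c i j)) (fun m => hα i j V' _ _ m)
  · intro i V' hV' hVU' hz'
    rw [hg i V' hV' hVU' hz']
    let _ := evAlg z V' hz'
    have := hfin V' hV'
    exact isIntegral_trace_baseChange (k := X.residueField z) ((α i).lin V' hVU')

end M21
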