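import Pool.Agent.H.MP_21b43d_ag.B.Coh4
import Pool.Agent.H.MP_21b43d_ag.B.Tr2

/-!
# M21 (B7): a cocycle which splits on the cohomology sheaves of an object of `D^b_coh` dies at the
points of its support
-/

set_option autoImplicit false

open CategoryTheory CategoryTheory.Limits AlgebraicGeometry TopologicalSpace

noncomputable section

namespace M21

variable {X : Scheme.{0}}

theorem dies_of_isCoh {M : X.Modules} (hM : IsCoh M) {z : X} (hz : ¬ ZeroAt M z) {ι : Type}
    {U : ι → X.Opens} (c : Cocycle U) (hs : Splits c M) : Dies c z :=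
  dies_of_splits hM.qc hM.finite hz c hs

/-- the cocycle dies at every point of the support of an object on whose cohomology it splits -/
theorem dies_of_mem_supp {A : DMod X} (hA : dbCoh X A) {z : X} (hz : z ∈ supp A) {ι : Type}
    {U : ι → X.Opens} (c : Cocycle U) (hs : ∀ m : ℤ, Splits c (hh m A)) : Dies c z := by
  obtain ⟨m, hm⟩ := hz
  exact dies_of_isCoh (hA.2 m) hm c (hs m)

/-- **(B7)** If a triangle `A → B → C` in `D^b_coh` has the property that every cocycle (for a
family of opens covering the support of `A` and of `C`) splits on the cohomology of `A` and of `C`,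
then the supports of `A` and `C` are finite sets of closed points. -/
theorem finite_supp_of_condY (hY : CondY X) {A C : DMod X} (hA : dbCoh X A) (hC : dbCoh X C)
    (hs : ∀ (ι : Type) (U : ι → X.Opens) (c : Cocycle U),
      supp A ∪ supp C ⊆ ⋃ i, (U i : Set X) →
        (∀ m : ℤ, Splits c (hh m A)) ∧ ∀ m : ℤ, Splits c (hh m C)) :
    (supp A ∪ supp C).Finite ∧ ∀ x ∈ supp A ∪ supp C, IsClosed ({x} : Set X) := by
  by_contra hcon
  obtain ⟨ι, U, c, hU, z, hz, hd⟩ := hY _ ((isClosed_supp A hA).union (isClosed_supp C hC)) hcon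
  obtain ⟨h1, h2⟩ := hs ι U c hU
  rcases hz with hz | hz
  · exact hd (dies_of_mem_supp hA hz c h1)
  · exact hd (dies_of_mem_supp hC hz c h2)

end M21
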